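import Mathlib

/-! Elements of a Clifford algebra that commute with all vectors up to the involution are
scalars, in every characteristic. -/

namespace Pool.Agent.Lib.MP_1ae3da_al.JP

open CliffordAlgebra QuadraticMap

variable {K : Type} [Field K] {V : Type} [AddCommGroup V] [Module K V] {Q : QuadraticForm K V}

lemma cf_con_polar (v : V) (x : CliffordAlgebra Q) :
    contractLeft (Q.polarBilin v) x = ι Q v * x - involute x * ι Q v := by
  induction x using CliffordAlgebra.left_induction with
  | algebraMap r => simp [contractLeft_algebraMap, Algebra.commutes]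
  | add x y hx hy => simp only [map_add, hx, hy, mul_add, add_mul]; abel
  | ι_mul x m hx =>
    have h3 : ι Q v * ι Q m = algebraMap _ _ (polar Q v m) - ι Q m * ι Q v :=
      eq_sub_of_add_eq (ι_mul_ι_add_swap (Q := Q) v m)
    rw [contractLeft_ι_mul, hx, ← mul_assoc, h3, map_mul, involute_ι, polarBilin_apply_apply,
      Algebra.smul_def]
    noncomm_ring

lemma cf_sub_step (W : Submodule K V) (e : V) {x : CliffordAlgebra Q}
    (hx : x ∈ Algebra.adjoin K (ι Q '' ((W ⊔ Submodule.span K {e} : Submodule K V) : Set V))) :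
    ∃ a ∈ Algebra.adjoin K (ι Q '' (W : Set V)), ∃ b ∈ Algebra.adjoin K (ι Q '' (W : Set V)),
      x = a + ι Q e * b := by
  set A := Algebra.adjoin K (ι Q '' (W : Set V))
  have key : ∀ y ∈ Algebra.adjoin K (ι Q '' ((W ⊔ Submodule.span K {e} : Submodule K V) : Set V)),
      ∀ a ∈ A, ∀ b ∈ A, ∃ a' ∈ A, ∃ b' ∈ A, y * (a + ι Q e * b) = a' + ι Q e * b' := by
    intro y hy
    induction hy using Algebra.adjoin_induction with
    | mem y hy =>
      obtain ⟨v, hv, rfl⟩ := hy
      obtain ⟨w, hw, z, hz, rfl⟩ := Submodule.mem_sup.mp hv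
      obtain ⟨c, rfl⟩ := Submodule.mem_span_singleton.mp hz
      intro a ha b hb
      have hw' : ι Q w ∈ A := Algebra.subset_adjoin ⟨w, hw, rfl⟩
      have h3 : ι Q w * ι Q e = algebraMap _ _ (polar Q w e) - ι Q e * ι Q w :=
        eq_sub_of_add_eq (ι_mul_ι_add_swap (Q := Q) w e)
      refine ⟨ι Q w * a + polar Q w e • b + (c * Q e) • b, ?_, c • a - ι Q w * b, ?_, ?_⟩
      · exact add_mem (add_mem (mul_mem hw' ha) (A.smul_mem hb _)) (A.smul_mem hb _)
      · exact sub_mem (A.smul_mem ha _) (mul_mem hw' hb)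
      · rw [map_add, map_smul, add_mul, mul_add, ← mul_assoc, h3, smul_mul_assoc, mul_add,
          ← mul_assoc, ι_sq_scalar, sub_mul, ← Algebra.smul_def, ← Algebra.smul_def, mul_sub,
          mul_smul_comm, mul_assoc]
        module
    | algebraMap r =>
      intro a ha b hb
      exact ⟨r • a, A.smul_mem ha _, r • b, A.smul_mem hb _, by
        rw [← Algebra.smul_def, smul_add, mul_smul_comm]⟩
    | add y z _ _ hy hz =>
      intro a ha b hb
      obtain ⟨a1, h1, b1, h2, e1⟩ := hy a ha b hb
      obtain ⟨a2, h3, b2, h4, e2⟩ := hz a ha b hb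
      exact ⟨_, add_mem h1 h3, _, add_mem h2 h4, by rw [add_mul, e1, e2, mul_add]; abel⟩
    | mul y z _ _ hy hz =>
      intro a ha b hb
      obtain ⟨a1, h1, b1, h2, e1⟩ := hz a ha b hb
      obtain ⟨a2, h3, b2, h4, e2⟩ := hy a1 h1 b1 h2
      exact ⟨_, h3, _, h4, by rw [mul_assoc, e1, e2]⟩
  simpa using key x hx 1 (one_mem _) 0 (zero_mem _)

lemma cf_con_zero (W : Submodule K V) {d : Module.Dual K V} (hd : ∀ w ∈ W, d w = 0)
    {x : CliffordAlgebra Q} (hx : x ∈ Algebra.adjoin K (ι Q '' (W : Set V))) :
    contractLeft d x = 0 := by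
  have key : ∀ y ∈ Algebra.adjoin K (ι Q '' (W : Set V)), ∀ a : CliffordAlgebra Q,
      contractLeft d a = 0 → contractLeft d (y * a) = 0 := by
    intro y hy
    induction hy using Algebra.adjoin_induction with
    | mem y hy =>
      obtain ⟨v, hv, rfl⟩ := hy
      intro a ha
      rw [contractLeft_ι_mul, ha, hd v hv, zero_smul, mul_zero, sub_zero]
    | algebraMap r => intro a ha; rw [contractLeft_algebraMap_mul, ha, mul_zero]
    | add y z _ _ hy hz => intro a ha; rw [add_mul, map_add, hy a ha, hz a ha, add_zero]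
    | mul y z _ _ hy hz => intro a ha; rw [mul_assoc]; exact hy _ (hz a ha)
  simpa using key x hx 1 (contractLeft_one Q d)

lemma cf_scalar_of_con [Module.Finite K V] {x : CliffordAlgebra Q}
    (h : ∀ d : Module.Dual K V, contractLeft d x = 0) : ∃ c, x = algebraMap K _ c := by
  have key : ∀ s : Finset V, x ∈ Algebra.adjoin K (ι Q '' (Submodule.span K (s : Set V) : Set V)) →
      ∃ c, x = algebraMap K _ c := by
    classical
    intro s
    induction s using Finset.induction_on with
    | empty =>
      intro hx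
      have : Algebra.adjoin K (ι Q '' (Submodule.span K ((∅ : Finset V) : Set V) : Set V)) ≤ ⊥ :=
        Algebra.adjoin_le (by simpa using ⟨0, map_zero _⟩)
      obtain ⟨c, hc⟩ := Algebra.mem_bot.mp (this hx)
      exact ⟨c, hc.symm⟩
    | insert e s _ ih =>
      intro hx
      by_cases he : e ∈ Submodule.span K (s : Set V)
      · rw [Finset.coe_insert, Submodule.span_insert_eq_span he] at hx
        exact ih hx
      rw [Finset.coe_insert, Submodule.span_insert, sup_comm] at hx
      obtain ⟨a, ha, b, hb, rfl⟩ := cf_sub_step _ e hx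
      obtain ⟨d, hd, hd'⟩ := Submodule.exists_dual_map_eq_bot_of_notMem he inferInstance
      have h0 : ∀ w ∈ Submodule.span K (s : Set V), d w = 0 := fun w hw =>
        (Submodule.mem_bot K).mp (hd' ▸ Submodule.mem_map_of_mem hw)
      have h1 := h d
      rw [map_add, contractLeft_ι_mul, cf_con_zero _ h0 ha, cf_con_zero _ h0 hb, mul_zero, sub_zero,
        zero_add, smul_eq_zero] at h1
      apply ih
      rw [h1.resolve_left hd, mul_zero, add_zero]
      exact ha
  obtain ⟨s, hs⟩ := Module.Finite.fg_top (R := K) (M := V)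
  refine key s ?_
  rw [hs, Submodule.top_coe, Set.image_univ, adjoin_range_ι]
  trivial

/-- the kernel of the action on the vectors. -/
theorem cen_free [Module.Finite K V] (nd : ∀ v, (∀ w, polar Q v w = 0) → v = 0)
    {x : CliffordAlgebra Q} (he : involute x = x) (hc : ∀ v, ι Q v * x = x * ι Q v) :
    ∃ c, x = algebraMap K _ c :=
  cf_scalar_of_con fun d => by
    have hi : Function.Injective Q.polarBilin := (injective_iff_map_eq_zero _).2 fun v hv =>
      nd v fun w => LinearMap.congr_fun hv w
    obtain ⟨v, rfl⟩ := (LinearMap.injective_iff_surjective_of_finrank_eq_finrank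
      (Subspace.dual_finrank_eq (K := K) (V := V)).symm).1 hi d
    rw [cf_con_polar, he, hc, sub_self]

end Pool.Agent.Lib.MP_1ae3da_al.JP
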