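import Pool.Agent.Lib.MP_1ae3da_al.P.Df
import Pool.Agent.Lib.MP_1ae3da_al.P.Cf

/-! The lifts of diagonal rotations commute. -/

namespace Pool.Agent.Lib.MP_1ae3da_al.JP

open CliffordAlgebra

variable {K : Type} [Field K] {m : ℕ}

/-- the even centre of the Clifford algebra of a nondegenerate form. -/
theorem cen_nd {Q : QuadraticForm K (Fin m → K)}
    (nd : ∀ v, (∀ w, QuadraticMap.polar Q v w = 0) → v = 0) {x : CliffordAlgebra Q}
    (he : involute x = x) (hc : ∀ v, ι Q v * x = x * ι Q v) : ∃ c, x = algebraMap K _ c :=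
  cen_free nd he hc

theorem c2_pol {l : K} {Q : QuadraticForm K (Fin m → K)} (hQ : ∀ v, Q v = l * bt v v)
    (v w : Fin m → K) : QuadraticMap.polar Q v w = 2 * l * bt v w := by
  rw [QuadraticMap.polar, hQ, hQ, hQ, bt_add_l, bt_add_r, bt_add_r, bt_comm w v]
  ring

theorem c2_ring {A : Type} [Ring A] [Algebra K A] {w : K} (h2 : w ≠ 0) {e f : A} (he : e * e = 0)
    (hf : f * f = 0) (h : e * f + f * e = w • 1) : ∃ G : K → A,
      (∀ x, e * G x = e) ∧ (∀ x, G x * e = x • e) ∧ (∀ x, f * G x = x • f) ∧ (∀ x, G x * f = f) ∧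
      (∀ x y, x * y = 1 → G x * G y = 1) ∧ ∀ x, ∃ c : K, G x = c • (e * f) + 1 := by
  have h1 : e * f * e = w • e := by
    rw [mul_assoc, eq_sub_of_add_eq' h, mul_sub, ← mul_assoc, he, zero_mul, sub_zero,
      mul_smul_comm, mul_one]
  have h3 : f * (e * f) = w • f := by
    rw [← mul_assoc, eq_sub_of_add_eq' h, sub_mul, mul_assoc, hf, mul_zero, sub_zero,
      smul_mul_assoc, one_mul]
  refine ⟨fun x => ((x - 1) / w) • (e * f) + 1, fun x => ?_, fun x => ?_, fun x => ?_,
    fun x => ?_, fun x y hxy => ?_, fun x => ⟨_, rfl⟩⟩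
  · simp only [mul_add, mul_smul_comm, ← mul_assoc, he, zero_mul, smul_zero, zero_add, mul_one]
  · simp only [add_mul, smul_mul_assoc, h1, one_mul]
    match_scalars
    field_simp
    ring
  · simp only [mul_add, mul_smul_comm, h3, mul_one]
    match_scalars
    field_simp
    ring
  · simp only [add_mul, smul_mul_assoc, mul_assoc, hf, mul_zero, smul_zero, zero_add, one_mul]
  · simp only [add_mul, mul_add, smul_mul_assoc, mul_smul_comm, ← mul_assoc, h1, one_mul, mul_one]
    match_scalars
    · field_simp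
      linear_combination hxy
    · rfl

/-- two elements that act diagonally on the basis vectors commute. -/
theorem ab_free {l : K} (hl : l ≠ 0) {Q : QuadraticForm K (Fin m → K)}
    (hP : ∀ v w, QuadraticMap.polar Q v w = l * bt v w)
    (h0 : ∀ i : Fin m, i ≠ i.rev → Q (ev K i) = 0)
    {s t : CliffordAlgebra Q} (he : involute t = t) {d d' : Fin m → K}
    (hd : ∀ i, d i * d i.rev = 1) (hd' : ∀ i, d' i * d' i.rev = 1)
    (hm : ∀ i : Fin m, i = i.rev → d' i = 1)
    (hs : ∀ i, ι Q (ev K i) * s = d i • (s * ι Q (ev K i)))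
    (ht : ∀ i, ι Q (ev K i) * t = d' i • (t * ι Q (ev K i))) : s * t = t * s := by
  have e0 : ∀ {i j : Fin m}, j ≠ i → ev K i j = 0 := fun h => Pi.single_eq_of_ne h _
  have e1 : ∀ i : Fin m, ev K i i = 1 := fun i => Pi.single_eq_same _ _
  have sw : ∀ i j : Fin m, ι Q (ev K i) * ι Q (ev K j) + ι Q (ev K j) * ι Q (ev K i) =
      (l * ev K j i.rev) • 1 := fun i j => by
    rw [ι_mul_ι_add_swap, hP, bt_ev_l, Algebra.algebraMap_eq_smul_one]
  have sq : ∀ i : Fin m, i ≠ i.rev → ι Q (ev K i) * ι Q (ev K i) = 0 := fun i hi => by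
    rw [ι_sq_scalar, h0 i hi, map_zero]
  have key : ∀ (S : Finset (Fin m)) (t : CliffordAlgebra Q) (d' : Fin m → K), involute t = t →
      (∀ i, d' i * d' i.rev = 1) → (∀ i : Fin m, i = i.rev → d' i = 1) →
      (∀ i, i ∉ S → i.rev ∉ S → d' i = 1) →
      (∀ i, ι Q (ev K i) * t = d' i • (t * ι Q (ev K i))) → s * t = t * s := fun S => by
    induction S using Finset.induction_on with
    | empty =>
      intro t d' he _ _ h1 ht
      obtain ⟨c, rfl⟩ := cen_nd (Q := Q) (fun v hv => funext fun i => by
        have := hv (ev K i.rev)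
        rw [hP, bt_ev_r, Fin.rev_rev] at this
        exact (mul_eq_zero.1 this).resolve_left hl) he fun v => by
          rw [← Finset.univ_sum_single v, map_sum, Finset.sum_mul, Finset.mul_sum]
          refine Finset.sum_congr rfl fun i _ => ?_
          have : Pi.single i (v i) = v i • ev K i := by rw [← Pi.single_smul, smul_eq_mul, mul_one]
          rw [this, map_smul, smul_mul_assoc, mul_smul_comm, ht, h1 i (by simp) (by simp), one_smul]
      exact (Algebra.commutes c s).symm
    | insert a S _ ih =>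
      intro t d' he hd' hm h1 ht
      by_cases ha : a = a.rev
      · refine ih t d' he hd' hm (fun i p q => ?_) ht
        by_cases c : i = a
        · exact hm i (c ▸ ha)
        · refine h1 i (by simp [c, p]) ?_
          rw [Finset.mem_insert, not_or]
          exact ⟨fun e => c (by rw [ha, ← e, Fin.rev_rev]), q⟩
      obtain ⟨G, g1, g2, g3, g4, g5, g6⟩ := c2_ring hl (sq a ha)
        (sq a.rev (by rw [Fin.rev_rev]; exact Ne.symm ha)) (by
          rw [sw, e1, mul_one])
      have cs : ∀ x, s * G x = G x * s := fun x => by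
        obtain ⟨c, e⟩ := g6 x
        rw [e, mul_add, add_mul, mul_one, one_mul, mul_smul_comm, smul_mul_assoc, mul_assoc _ _ s,
          hs, mul_smul_comm, ← mul_assoc _ s, hs, smul_mul_assoc, smul_smul (d _), mul_comm (d _),
          hd, one_smul, mul_assoc]
      have := ih (t * G (d' a)) (fun i => if i = a ∨ i = a.rev then 1 else d' i) ?_ (fun i => ?_)
        (fun i hi => ?_) (fun i p q => ?_) fun i => ?_
      · rw [← mul_one t, ← g5 _ _ (hd' a), ← mul_assoc t, ← mul_assoc s, this, mul_assoc, cs,
          ← mul_assoc]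
      · obtain ⟨c, e⟩ := g6 (d' a)
        rw [map_mul, he, e, map_add, map_one, map_smul, map_mul, involute_ι, involute_ι,
          neg_mul_neg]
      · by_cases c : i = a ∨ i = a.rev
        · rw [if_pos c, if_pos (by
            rcases c with c | c
            · exact .inr (congrArg _ c)
            · exact .inl (by rw [c, Fin.rev_rev])), mul_one]
        · rw [if_neg c, if_neg (fun e => c (by
            rcases e with e | e
            · exact .inr (by rw [← e, Fin.rev_rev])
            · exact .inl (Fin.rev_injective e))), hd']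
      · split_ifs
        exacts [rfl, hm i hi]
      · split_ifs with c
        · rfl
        · rw [not_or] at c
          refine h1 i (by simp [c.1, p]) ?_
          rw [Finset.mem_insert, not_or]
          exact ⟨fun e => c.2 (by rw [← e, Fin.rev_rev]), q⟩
      · rw [← mul_assoc, ht, smul_mul_assoc, mul_assoc, mul_assoc]
        split_ifs with c
        · rcases c with rfl | rfl
          · rw [g1, g2, one_smul, mul_smul_comm]
          · rw [g3, g4, one_smul, mul_smul_comm, smul_smul, mul_comm (d' _), hd', one_smul]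
        · rw [not_or] at c
          obtain ⟨x, e⟩ := g6 (d' a)
          have s1 := sw a i
          have s2 := sw a.rev i
          rw [e0 (Ne.symm c.2), mul_zero, zero_smul, add_eq_zero_iff_eq_neg'] at s1
          rw [Fin.rev_rev, e0 (Ne.symm c.1), mul_zero, zero_smul,
            add_eq_zero_iff_eq_neg] at s2
          rw [e, mul_add (ι Q _), add_mul, mul_one, one_mul, mul_smul_comm, smul_mul_assoc,
            mul_assoc (ι Q _), s2, ← mul_assoc (ι Q _), s1, neg_mul, mul_neg, mul_assoc]
  exact key Finset.univ t d' he hd' hm (fun i hi => absurd (Finset.mem_univ i) hi) ht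

/-- the same in odd characteristic, for a multiple of the diagonal of `bt`. -/
theorem ab_split (h2 : (2 : K) ≠ 0) {l : K} (hl : l ≠ 0) {Q : QuadraticForm K (Fin m → K)}
    (hQ : ∀ v, Q v = l * bt v v)
    {s t : CliffordAlgebra Q} (he : involute t = t) {d d' : Fin m → K}
    (hd : ∀ i, d i * d i.rev = 1) (hd' : ∀ i, d' i * d' i.rev = 1)
    (hm : ∀ i : Fin m, i = i.rev → d' i = 1)
    (hs : ∀ i, ι Q (ev K i) * s = d i • (s * ι Q (ev K i)))
    (ht : ∀ i, ι Q (ev K i) * t = d' i • (t * ι Q (ev K i))) : s * t = t * s :=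
  ab_free (mul_ne_zero h2 hl) (c2_pol hQ) (fun i hi => by
    rw [hQ, bt_ev_l, show ev K i i.rev = 0 from Pi.single_eq_of_ne hi.symm _, mul_zero])
    he hd hd' hm hs ht

end Pool.Agent.Lib.MP_1ae3da_al.JP
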