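import Pool.Agent.Lib.MP_1ae3da_al.P.M1

/-! The invariant of Dickson in characteristic two. -/

namespace Pool.Agent.Lib.MP_1ae3da_al.JP

open SLI Matrix JM

variable {F : Type} [Field F] {m : ℕ} {σ : Equiv.Perm (Fin m)}

/-- the invariant of Dickson. -/
def dk (g : Matrix (Fin m) (Fin m) F) : F :=
  ∑ i : Fin m, ∑ j : Fin m, if i < i.rev ∧ j < j.rev then g i.rev j * g i j.rev else 0

lemma oq_tr {g : SLm m F} (hg : g ∈ OQ m F) : g.transpose ∈ OQ m F := by
  have hi := inv_mem hg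
  have e : ∀ i j, (g.transpose).1 i j = (g⁻¹).1 i.rev j.rev := fun i j => by
    rw [so_inv hg.1, Fin.rev_rev, Fin.rev_rev]
    rfl
  refine ⟨mem_SO.2 fun i j => ?_, fun v => ?_⟩
  · have h := mem_SO.1 hi.1 i.rev j.rev
    have e2 : bt ((g.transpose).1 i) ((g.transpose).1 j) = bt ((g⁻¹).1 i.rev) ((g⁻¹).1 j.rev) := by
      rw [bt, bt, ← Equiv.sum_comp Fin.revPerm]
      refine Finset.sum_congr rfl fun l _ => ?_
      rw [e, e]
      simp only [Fin.revPerm_apply, Fin.rev_rev]
    rw [e2, h]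
    exact if_congr Fin.rev_inj rfl rfl
  · have e2 : v ᵥ* (g.transpose).1 = fun j => ((fun i => v i.rev) ᵥ* (g⁻¹).1) j.rev := by
      funext j
      rw [vecMul, vecMul, dotProduct, dotProduct, ← Equiv.sum_comp Fin.revPerm]
      refine Finset.sum_congr rfl fun l _ => ?_
      rw [e]
      simp only [Fin.revPerm_apply, Fin.rev_rev]
    rw [e2, qf_rev, hi.2, qf_rev]

/-- the matrix of the quadratic form. -/
def dkA (F : Type) [Field F] (m : ℕ) : Matrix (Fin m) (Fin m) F :=
  fun i j => if j = i.rev ∧ i < i.rev then 1 else 0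

lemma dk_ne (hm : Even m) (i : Fin m) : i ≠ i.rev := fun e => by
  have := congrArg Fin.val e
  obtain ⟨t, ht⟩ := hm
  rw [Fin.val_rev] at this
  omega

lemma dkA_l (g : Matrix (Fin m) (Fin m) F) (i j : Fin m) :
    (dkA F m * g) i j = if i < i.rev then g i.rev j else 0 := by
  rw [Matrix.mul_apply, Finset.sum_eq_single i.rev (fun l _ hl => by simp [dkA, hl]) (by simp)]
  simp [dkA]

lemma dk_tr (g : Matrix (Fin m) (Fin m) F) : dk g = trace (dkA F m * g * (dkA F m * gᵀ)) := by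
  rw [dk, trace]
  refine Finset.sum_congr rfl fun i _ => ?_
  rw [diag_apply, Matrix.mul_apply]
  refine Finset.sum_congr rfl fun j _ => ?_
  rw [dkA_l, dkA_l, transpose_apply]
  by_cases c : i < i.rev <;> by_cases d : j < j.rev <;> simp [c, d]

lemma dk_qf (hm : Even m) (v : Fin m → F) : qf v = v ⬝ᵥ (dkA F m *ᵥ v) := by
  rw [qf, dotProduct]
  refine Finset.sum_congr rfl fun i _ => ?_
  rw [if_neg (dk_ne hm i), mulVec, dotProduct,
    Finset.sum_eq_single i.rev (fun l _ hl => by simp [dkA, hl]) (by simp)]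
  by_cases c : i < i.rev <;> simp [dkA, c]

lemma dk_alt {S : Matrix (Fin m) (Fin m) F} (h : ∀ v : Fin m → F, v ⬝ᵥ (S *ᵥ v) = 0) :
    (∀ i, S i i = 0) ∧ ∀ i j, S j i = -S i j := by
  have d : ∀ i, S i i = 0 := fun i => by simpa using h (Pi.single i 1)
  refine ⟨d, fun i j => ?_⟩
  have := h (Pi.single i 1 + Pi.single j 1)
  simp only [mulVec_add, add_dotProduct, dotProduct_add, single_one_dotProduct, mulVec_single_one,
    col_apply, d] at this
  linear_combination this

lemma dk_oq (hm : Even m) {g : SLm m F} (hg : g ∈ OQ m F) (v : Fin m → F) :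
    v ⬝ᵥ ((g.1 * dkA F m * g.1ᵀ - dkA F m) *ᵥ v) = 0 := by
  rw [sub_mulVec, dotProduct_sub, ← dk_qf hm, ← mulVec_mulVec, ← mulVec_mulVec, dotProduct_mulVec,
    mulVec_transpose, ← dk_qf hm, hg.2, sub_self]

lemma dk_one : dk (1 : Matrix (Fin m) (Fin m) F) = 0 := by
  refine Finset.sum_eq_zero fun i _ => Finset.sum_eq_zero fun j _ => ?_
  split_ifs with c
  · rw [one_apply_ne, zero_mul]
    rintro rfl
    rw [Fin.rev_rev] at c
    exact c.1.not_gt c.2
  · rfl

lemma dk_mul (h2 : (2 : F) = 0) (hm : Even m) {g g' : SLm m F} (hg : g ∈ OQ m F)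
    (hg' : g' ∈ OQ m F) : dk (g * g').1 = dk g.1 + dk g'.1 := by
  obtain ⟨d1, s1⟩ := dk_alt (dk_oq hm (oq_tr hg))
  obtain ⟨d2, s2⟩ := dk_alt (dk_oq hm hg')
  have et : (g.transpose).1 = g.1ᵀ := rfl
  rw [et, transpose_transpose] at d1 s1
  obtain ⟨S, hS⟩ : ∃ S, S = g.1ᵀ * dkA F m * g.1 - dkA F m := ⟨_, rfl⟩
  obtain ⟨S', hS'⟩ : ∃ S', S' = g'.1 * dkA F m * g'.1ᵀ - dkA F m := ⟨_, rfl⟩
  rw [← hS] at d1 s1
  rw [← hS'] at d2 s2
  have z : trace (S * S') = 0 := by
    have e : trace (S * S') = ∑ p : Fin m × Fin m, S p.1 p.2 * S' p.2 p.1 := by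
      rw [trace, Fintype.sum_prod_type]
      rfl
    rw [e]
    refine Finset.sum_involution (fun p _ => p.swap) (fun p _ => ?_) (fun p _ hp c => hp ?_)
      (fun _ _ => Finset.mem_univ _) (fun p _ => p.swap_swap)
    · simp only [Prod.fst_swap, Prod.snd_swap]
      rw [s1 p.1 p.2, s2 p.2 p.1]
      linear_combination (S p.1 p.2 * S' p.2 p.1) * h2
    · have c1 : p.2 = p.1 := congrArg Prod.fst c
      rw [c1, d1, zero_mul]
  have o := dk_one (F := F) (m := m)
  rw [dk_tr, transpose_one, Matrix.mul_one] at o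
  have e1 : trace (g.1ᵀ * dkA F m * g.1 * (g'.1 * dkA F m * g'.1ᵀ)) = dk (g * g').1 := by
    rw [dk_tr, show (g * g').1 = g.1 * g'.1 from rfl, transpose_mul]
    simp only [Matrix.mul_assoc]
    rw [trace_mul_comm]
    simp only [Matrix.mul_assoc]
  have e2 : trace (g.1ᵀ * dkA F m * g.1 * dkA F m) = dk g.1 := by
    rw [dk_tr]
    simp only [Matrix.mul_assoc]
    rw [trace_mul_comm]
    simp only [Matrix.mul_assoc]
  have e3 : trace (dkA F m * (g'.1 * dkA F m * g'.1ᵀ)) = dk g'.1 := by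
    rw [dk_tr]
    simp only [Matrix.mul_assoc]
  rw [hS, hS', Matrix.sub_mul, Matrix.mul_sub, Matrix.mul_sub, trace_sub, trace_sub, trace_sub,
    e1, e2, e3, o] at z
  linear_combination z

lemma dk_refl (hm : Even m) {g : Matrix (Fin m) (Fin m) F} {w : Fin m → F} (hw : qf w ≠ 0)
    (hg : ∀ v, v ᵥ* g = v - (bt v w / qf w) • w) : dk g = 1 := by
  have r : ∀ i j, j ≠ i → g i j = -(w i.rev / qf w * w j) := fun i j c => by
    rw [← ev_vecMul i g, hg, bt_ev_l, Pi.sub_apply, m1_ne c, zero_sub]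
    rfl
  have q : qf w = ∑ i : Fin m, if i < i.rev then w i * w i.rev else 0 :=
    Finset.sum_congr rfl fun i _ => by rw [if_neg (dk_ne hm i)]
  have e : dk g = (qf w * qf w) * ((qf w)⁻¹ * (qf w)⁻¹) := by
    rw [dk]
    conv_rhs => rw [show qf w * qf w = _ * _ from congrArg₂ _ q q]
    rw [Finset.sum_mul_sum, Finset.sum_mul]
    refine Finset.sum_congr rfl fun i _ => ?_
    rw [Finset.sum_mul]
    refine Finset.sum_congr rfl fun j _ => ?_
    by_cases c : i < i.rev
    · by_cases d : j < j.rev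
      · have n1 : j ≠ i.rev := by
          rintro rfl
          rw [Fin.rev_rev] at d
          exact c.not_gt d
        have n2 : j.rev ≠ i := fun e => n1 (by rw [← e, Fin.rev_rev])
        rw [if_pos ⟨c, d⟩, if_pos c, if_pos d, r _ _ n1, r _ _ n2, Fin.rev_rev]
        ring
      · simp [d]
    · simp [c]
  rw [e]
  field_simp

lemma flip_sign (hσ : ∀ i, σ i.rev = (σ i).rev) : Equiv.Perm.sign σ =
    (-1) ^ (Finset.univ.filter fun i : Fin m => i < i.rev ∧ (σ i).rev < σ i).card := by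
  obtain ⟨f, hf⟩ : ∃ f : Fin m × Fin m → ℤˣ,
      f = fun p => if p.1 < p.2 then (if σ p.1 < σ p.2 then 1 else -1) else 1 := ⟨_, rfl⟩
  have e : Equiv.Perm.sign σ = ∏ p, f p := by
    rw [Equiv.Perm.sign_eq_prod_prod_Ioi, Fintype.prod_prod_type, hf]
    refine Finset.prod_congr rfl fun i _ => ?_
    rw [← Finset.prod_filter]
    refine Finset.prod_congr ?_ fun _ _ => rfl
    ext j
    simp
  have a : ∏ p ∈ Finset.univ.filter (fun p : Fin m × Fin m => ¬ p.2 = p.1.rev), f p = 1 := by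
    refine Finset.prod_involution (fun p _ => (p.2.rev, p.1.rev)) (fun p _ => ?_)
      (fun p hp _ c => (Finset.mem_filter.1 hp).2 (congrArg Prod.snd c).symm) (fun p hp => ?_)
      (fun p _ => by simp)
    · have : f (p.2.rev, p.1.rev) = f p := by
        simp only [hf, hσ, Fin.rev_lt_rev]
      rw [this, Int.units_mul_self]
    · refine Finset.mem_filter.2 ⟨Finset.mem_univ _, fun c => (Finset.mem_filter.1 hp).2 ?_⟩
      simpa using c.symm
  have b : ∏ p ∈ Finset.univ.filter (fun p : Fin m × Fin m => p.2 = p.1.rev), f p =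
      ∏ i : Fin m, f (i, i.rev) := by
    rw [Finset.prod_filter, Fintype.prod_prod_type]
    refine Finset.prod_congr rfl fun i _ => ?_
    simp
  rw [e, ← Finset.prod_filter_mul_prod_filter_not _ (fun p : Fin m × Fin m => p.2 = p.1.rev), a, b,
    mul_one, ← Finset.prod_const, Finset.prod_filter]
  refine Finset.prod_congr rfl fun i _ => ?_
  simp only [hf, hσ]
  by_cases c : i < i.rev
  · have n : σ i ≠ (σ i).rev := by
      rw [← hσ]
      exact σ.injective.ne c.ne
    rcases lt_or_gt_of_ne n with d | d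
    · simp [c, d, d.not_gt]
    · simp [c, d, d.not_gt]
  · simp [c]

lemma dk_sign (h2 : (2 : F) = 0) {g : SLm m F} (hg : g ∈ SOm m F) (hσ : IsMon g.1 σ)
    (h : dk g.1 = 0) : Equiv.Perm.sign σ = 1 := by
  have e : dk g.1 =
      ((Finset.univ.filter fun i : Fin m => i < i.rev ∧ (σ i).rev < σ i).card : F) := by
    rw [dk, Finset.card_filter, Nat.cast_sum]
    refine Finset.sum_congr rfl fun i _ => ?_
    rw [Finset.sum_eq_single (σ i).rev (fun j _ c => by
      rw [hσ i.rev j (by rw [so_rev hg hσ]; exact c), zero_mul, ite_self]) (by simp),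
      Fin.rev_rev, mul_comm, so_mu hg hσ]
    simp
  rw [flip_sign (so_rev hg hσ)]
  refine Even.neg_one_pow (Nat.not_odd_iff_even.1 fun ⟨t, ht⟩ => ?_)
  rw [h, ht] at e
  push_cast at e
  rw [h2, zero_mul, zero_add] at e
  exact zero_ne_one e

end Pool.Agent.Lib.MP_1ae3da_al.JP
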