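import Pool.Agent.Lib.MP_1ae3da_al.P.C1
import Pool.Agent.Lib.MP_1ae3da_al.P.C2
import Pool.Agent.Lib.MP_1ae3da_al.P.Dk

/-! The spin group of a form that is split over an extension field. -/

namespace Pool.Agent.Lib.MP_1ae3da_al.JP

open CliffordAlgebra QuadraticMap Matrix SLI

variable {K F : Type} [Field K] [Field F] [Algebra K F] {m k : ℕ}
  {Q : QuadraticForm K (Fin m → K)} {P P' : Matrix (Fin m) (Fin m) F} {φ : F →+* F} {s : K}

/-- the coordinates in the split basis. -/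
def jv (K : Type) [Field K] [Algebra K F] (P : Matrix (Fin m) (Fin m) F) :
    (Fin m → K) →ₗ[K] (Fin m → F) where
  toFun v := (fun i => algebraMap K F (v i)) ᵥ* P
  map_add' v w := by
    rw [← add_vecMul]
    congr 1
    ext i
    simp
  map_smul' c v := by
    rw [RingHom.id_apply, ← smul_vecMul]
    congr 1
    ext i
    simp [Algebra.smul_def]

/-- the data of a splitting. -/
structure Spl (Q : QuadraticForm K (Fin m → K)) (P P' : Matrix (Fin m) (Fin m) F) (φ : F →+* F)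
    (k : ℕ) (s : K) : Prop where
  par : Par F m
  big : ∃ t : K, t ≠ 0 ∧ t ≠ 1
  s0 : s ≠ 0
  lo : 2 * k ≤ m
  hi : m ≤ 2 * k + 2
  k2 : 2 ≤ k
  inv : P * P' = 1
  qq : ∀ v, algebraMap K F (Q v) = algebraMap K F s * qf (jv K P v)
  rt : ∀ w, Rt φ k w ↔ ∃ v, jv K P v = w
  fix : ∀ c, φ c = c → ∃ d, algebraMap K F d = c

open Classical in
/-- an element of the algebra as an element of the group. -/
noncomputable def mk' (Q : QuadraticForm K (Fin m → K)) (x : CliffordAlgebra Q) : spinGroup Q :=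
  if h : x ∈ spinGroup Q then ⟨x, h⟩ else 1

lemma mk'_val {x : CliffordAlgebra Q} (h : x ∈ spinGroup Q) :
    (mk' Q x : CliffordAlgebra Q) = x := by
  rw [mk', dif_pos h]

lemma mk'_map (g : spinGroup Q → spinGroup Q) (γ : CliffordAlgebra Q → CliffordAlgebra Q)
    (h1 : g 1 = 1) (h2 : ∀ x, (g x : CliffordAlgebra Q) = γ x)
    (h3 : ∀ x, γ x ∈ spinGroup Q → x ∈ spinGroup Q) (x : CliffordAlgebra Q) :
    g (mk' Q x) = mk' Q (γ x) := by
  by_cases h : x ∈ spinGroup Q
  · have e : (g (mk' Q x) : CliffordAlgebra Q) = γ x := by rw [h2, mk'_val h]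
    exact Subtype.ext (e.trans (mk'_val (e ▸ (g _).2)).symm)
  · rw [mk', dif_neg h, mk', dif_neg (mt (h3 x) h), h1]

/-- the lifts of the Eichler transformations. -/
noncomputable def EE (Q : QuadraticForm K (Fin m → K)) (P : Matrix (Fin m) (Fin m) F) (s : K)
    (e f : Fin m → F) : spinGroup Q :=
  mk' Q (El Q s⁻¹ (Function.invFun (jv K P) e) (Function.invFun (jv K P) f))

lemma c3_ev {a b : Fin m} (h : b ≠ a) : ev F a b = 0 := Pi.single_eq_of_ne h _

lemma jv_smul (d : K) (v : Fin m → K) : jv K P (d • v) = algebraMap K F d • jv K P v := by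
  rw [map_smul, algebraMap_smul]

lemma jv_ev (i : Fin m) : jv K P (ev K i) = P i := by
  rw [← ev_vecMul i P]
  change _ ᵥ* P = _
  congr 1
  ext j
  by_cases e : j = i <;> simp [e]

namespace Spl
variable (h : Spl Q P P' φ k s)
include h

lemma sF : algebraMap K F s ≠ 0 := (map_ne_zero _).2 h.s0

lemma inv' : P' * P = 1 := mul_eq_one_comm.1 h.inv

lemma inj : Function.Injective (jv K P) := fun v w e => by
  have := congrArg (· ᵥ* P') e
  simp only [jv, LinearMap.coe_mk, AddHom.coe_mk, vecMul_vecMul, h.inv, vecMul_one] at this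
  exact funext fun i => (algebraMap K F).injective (congrFun this i)

lemma ind (p : (Fin m → F) → Prop) (h0 : ∀ v, p (jv K P v)) (h1 : ∀ v w, p v → p w → p (v + w))
    (h2 : ∀ (c : F) v, p v → p (c • v)) (w : Fin m → F) : p w := by
  have e : w = ∑ i, (w ᵥ* P') i • jv K P (ev K i) := by
    conv_lhs => rw [← vecMul_one w, ← h.inv', ← vecMul_vecMul, vecMul_eq_sum]
    simp only [jv_ev]
  rw [e]
  exact Finset.sum_induction _ p h1 (by simpa using h0 0) fun i _ => h2 _ _ (h0 _)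

lemma pol (v w : Fin m → K) : 
    algebraMap K F (polar Q v w) = algebraMap K F s * bt (jv K P v) (jv K P w) := by
  rw [polar, map_sub, map_sub, h.qq, h.qq, h.qq, map_add, qf_add h.par]
  ring

lemma pol0 {v w : Fin m → K} (e : bt (jv K P v) (jv K P w) = 0) : polar Q v w = 0 :=
  (algebraMap K F).injective (by rw [h.pol, e, mul_zero, map_zero])

lemma nd : Nd Q := fun v hv => h.inj (by
  have : ∀ w, bt (jv K P v) w = 0 := h.ind _ (fun w => by
      have := h.pol v w
      rw [hv, map_zero] at this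
      exact (mul_eq_zero.1 this.symm).resolve_left h.sF)
    (fun a b ha hb => by rw [bt_add_r, ha, hb, add_zero])
    fun c a ha => by rw [bt_smul_r, ha, mul_zero]
  ext i
  have := this (ev F i.rev)
  rw [bt_ev_r, Fin.rev_rev] at this
  rw [this, map_zero, Pi.zero_apply])

lemma EE_jv (e f : Fin m → K) : EE Q P s (jv K P e) (jv K P f) = mk' Q (El Q s⁻¹ e f) := by
  rw [EE, Function.leftInverse_invFun h.inj, Function.leftInverse_invFun h.inj]

lemma ex_pi : ∃ π : spinGroup Q →* SLm m F, ∀ x : spinGroup Q, ∀ v, ∃ w,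
    ι Q v * x = x * ι Q w ∧ jv K P v ᵥ* (π x).1 = jv K P w := by
  obtain ⟨ρ, hρ⟩ := ex_rho h.nd
  refine ⟨MonoidHom.mk' (fun x => ⟨P' * (ρ x).1.map (algebraMap K F) * P, ?_⟩) fun x y =>
    Subtype.ext ?_, fun x v => ⟨_, hρ x v, ?_⟩⟩
  · rw [det_mul_comm, ← mul_assoc, h.inv, one_mul]
    have := (algebraMap K F).map_det (ρ x).1
    rw [(ρ x).2, map_one] at this
    exact this.symm
  · change P' * (ρ (x * y)).1.map _ * P = (P' * (ρ x).1.map _ * P) * (P' * (ρ y).1.map _ * P)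
    rw [show (ρ (x * y)).1 = (ρ x).1 * (ρ y).1 from congrArg Subtype.val (map_mul ρ x y),
      Matrix.map_mul, mul_assoc _ P, ← mul_assoc P,
      ← mul_assoc P, h.inv, one_mul]
    simp only [mul_assoc]
  · change (_ ᵥ* P) ᵥ* (P' * (ρ x).1.map _ * P) = _ ᵥ* P
    rw [vecMul_vecMul, ← mul_assoc, ← mul_assoc, h.inv, one_mul, ← vecMul_vecMul]
    congr 1
    ext i
    exact (RingHom.map_vecMul _ _ _ i).symm

lemma mem {a : Fin m} (ha : ¬ Md k a) {e f : Fin m → K} (he : jv K P e = ev F a)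
    (hf : jv K P f a.rev = 0) : Q e = 0 ∧ polar Q e f = 0 ∧ El Q s⁻¹ e f ∈ spinGroup Q := by
  have h1 : Q e = 0 := (algebraMap K F).injective (by
    rw [h.qq, he, qf_ev (md_ne h.lo ha), mul_zero, map_zero])
  have h2 : polar Q e f = 0 := h.pol0 (by rw [he, bt_ev_l, hf])
  obtain ⟨b, p⟩ : ∃ b, Pr k a b := by
    have := h.lo
    have := h.k2
    by_cases c : (a : ℕ) = 0 ∨ (a.rev : ℕ) = 0
    · refine ⟨⟨1, by omega⟩, ha, fun e => ?_, fun e => ?_, fun e => ?_⟩
      · have := e.1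
        simp only at this
        omega
      all_goals
        have := congrArg Fin.val e
        simp only [Fin.val_rev] at this c
        omega
    · refine ⟨⟨0, by omega⟩, ha, fun e => ?_, fun e => ?_, fun e => ?_⟩
      · have := e.1
        simp only at this
        omega
      all_goals
        have := congrArg Fin.val e
        simp only [Fin.val_rev] at this c
        omega
  obtain ⟨w, hw⟩ := (h.rt _).1 ((rt_ev (φ := φ) p.r).add (rt_ev (mt md_rev.1 p.r)))
  refine ⟨h1, h2, El_mem h.big h1 h2 (w := w) (h.pol0 ?_) fun c => h.sF ?_⟩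
  · rw [he, hw, bt_ev_l, Pi.add_apply, c3_ev (Fin.rev_injective.ne p.ne),
      c3_ev fun e => p.nr (by rw [← e, Fin.rev_rev]), add_zero]
  · have := h.qq w
    have n1 := md_ne h.lo p.r
    rw [c, map_zero, hw, qf_add h.par, qf_ev n1, qf_ev (md_ne h.lo (mt md_rev.1 p.r)), bt_ev_l,
      m1_eq] at this
    linear_combination -this

variable {π : spinGroup Q →* SLm m F} (hπ : ∀ x : spinGroup Q, ∀ v, ∃ w,
    ι Q v * x = x * ι Q w ∧ jv K P v ᵥ* (π x).1 = jv K P w)
include hπ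

lemma pi_of {x : spinGroup Q} {v w : Fin m → K} (e : ι Q v * x = x * ι Q w) :
    jv K P v ᵥ* (π x).1 = jv K P w := by
  obtain ⟨w', h1, h2⟩ := hπ x v
  rw [h2, c1_inj h.nd ((ac_cj h1).symm.trans (ac_cj e))]

lemma scal {z : spinGroup Q} (hz : π z = 1) :
    ∃ c, (z : CliffordAlgebra Q) = algebraMap K _ c := by
  refine cen_free h.nd (spin_ev z) fun v => ?_
  obtain ⟨w, h1, h2⟩ := hπ z v
  rw [hz] at h2
  rw [h1, h.inj ((vecMul_one _).symm.trans h2)]

lemma oq (x : spinGroup Q) : π x ∈ OQ m F := by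
  have k1 : ∀ v w, bt (jv K P v ᵥ* (π x).1) (jv K P w ᵥ* (π x).1) = bt (jv K P v) (jv K P w) := by
    intro v w
    obtain ⟨v', h1, h2⟩ := hπ x v
    obtain ⟨w', h3, h4⟩ := hπ x w
    have h5 : ι Q (v + w) * x = x * ι Q (v' + w') := by
      rw [map_add, map_add, add_mul, mul_add, h1, h3]
    refine mul_left_cancel₀ h.sF ?_
    rw [h2, h4, ← h.pol, ← h.pol, polar, polar, ac_iso h1, ac_iso h3, ac_iso h5]
  have k2 : ∀ v w, bt (v ᵥ* (π x).1) (w ᵥ* (π x).1) = bt v w := fun v w =>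
    h.ind (fun v => bt (v ᵥ* (π x).1) (w ᵥ* (π x).1) = bt v w)
      (fun v => h.ind (fun w => bt (jv K P v ᵥ* (π x).1) (w ᵥ* (π x).1) = bt (jv K P v) w) (k1 v)
        (fun a b ha hb => by rw [add_vecMul, bt_add_r, bt_add_r, ha, hb])
        (fun c a ha => by rw [smul_vecMul, bt_smul_r, bt_smul_r, ha]) w)
      (fun a b ha hb => by rw [add_vecMul, bt_add_l, bt_add_l, ha, hb])
      (fun c a ha => by rw [smul_vecMul, bt_smul_l, bt_smul_l, ha]) v
  refine ⟨mem_SO.2 fun i j => ?_, h.ind _ (fun v => ?_) (fun a b ha hb => ?_) fun c a ha => ?_⟩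
  · rw [← ev_vecMul i (π x).1, ← ev_vecMul j (π x).1, k2, bt_ev_l]
    simp only [Pi.single_apply, eq_comm]
  · obtain ⟨v', h1, h2⟩ := hπ x v
    refine mul_left_cancel₀ h.sF ?_
    rw [h2, ← h.qq, ← h.qq, ac_iso h1]
  · rw [add_vecMul, qf_add h.par, qf_add h.par, ha, hb, k2]
  · rw [smul_vecMul, qf_smul, qf_smul, ha]

lemma iso (x : spinGroup Q) : π x ∈ SOm m F := (h.oq hπ x).1

lemma rat (x : spinGroup Q) : Rm φ k (π x) := fun i j => by
  have := h.ind (fun w => ∑ i, w i * φ ((π x).1 (tm k i) (tm k j)) = (w ᵥ* (π x).1) j)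
    (fun v => by
      obtain ⟨w, -, h2⟩ := hπ x v
      rw [← (h2 ▸ (h.rt _).2 ⟨w, rfl⟩ : Rt φ k (jv K P v ᵥ* (π x).1)) j, vecMul, dotProduct,
        ← Equiv.sum_comp (tm k) fun i => jv K P v i * (π x).1 i (tm k j), map_sum]
      exact Finset.sum_congr rfl fun i _ => by rw [map_mul, (h.rt _).2 ⟨v, rfl⟩ i])
    (fun a b ha hb => by
      rw [add_vecMul, Pi.add_apply, ← ha, ← hb, ← Finset.sum_add_distrib]
      exact Finset.sum_congr rfl fun i _ => add_mul _ _ _)
    (fun c a ha => by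
      rw [smul_vecMul, Pi.smul_apply, ← ha, smul_eq_mul, Finset.mul_sum]
      exact Finset.sum_congr rfl fun i _ => mul_assoc _ _ _) (ev F i)
  simpa [Pi.single_apply] using this

lemma ker (z : spinGroup Q) (hz : π z = 1) : (∀ x, z * x = x * z) ∧ z * z = 1 := by
  obtain ⟨c, hc⟩ := h.scal hπ hz
  refine ⟨fun x => Subtype.ext ?_, Subtype.ext ?_⟩
  · rw [Submonoid.coe_mul, Submonoid.coe_mul, hc, Algebra.commutes]
  · have := spin_l z
    rw [hc, CliffordAlgebra.star_algebraMap, ← hc] at this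
    exact this

lemma inj2 (h2 : (2 : F) = 0) (z : spinGroup Q) (hz : π z = 1) : z = 1 := by
  obtain ⟨c, hc⟩ := h.scal hπ hz
  have e := spin_l z
  rw [hc, CliffordAlgebra.star_algebraMap, ← map_mul, ← map_one (algebraMap K _)] at e
  have e1 := c1_alg e
  have e2 : (2 : K) = 0 := (algebraMap K F).injective (by rw [map_ofNat, h2, map_zero])
  have e3 : c = 1 := sub_eq_zero.1 (mul_self_eq_zero.1 (by linear_combination e1 + (1 - c) * e2))
  exact Subtype.ext (by rw [hc, e3, map_one, OneMemClass.coe_one])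

omit hπ in
lemma rf_oq (h2 : (2 : F) = 0) (hm : Even m) (l : List (Fin m → K)) (hl : ∀ a ∈ l, Q a ≠ 0) :
    ∃ g ∈ OQ m F, dk g.1 = l.length ∧
      ∀ v, jv K P v ᵥ* g.1 = jv K P (v ᵥ* (l.map (rf Q)).prod) := by
  induction l with
  | nil => exact ⟨1, one_mem _, by rw [List.length_nil, Nat.cast_zero]; exact dk_one, by simp⟩
  | cons a l ih =>
    obtain ⟨g, g1, g2, g3⟩ := ih fun b hb => hl b (by simp [hb])
    have ha := hl a (by simp)
    have hq : qf (jv K P a) ≠ 0 := fun c => ha ((algebraMap K F).injective (by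
      rw [h.qq, c, mul_zero, map_zero]))
    have d : (P' * (rf Q a).map (algebraMap K F) * P).det = 1 := by
      rw [det_mul_comm, ← mul_assoc, h.inv, one_mul]
      have := (algebraMap K F).map_det (rf Q a)
      rw [rf_det ha, map_neg, map_one] at this
      exact this.symm.trans (by linear_combination -h2)
    have e1 : ∀ v, jv K P v ᵥ* (P' * (rf Q a).map (algebraMap K F) * P) =
        jv K P (v ᵥ* rf Q a) := fun v => by
      change (_ ᵥ* P) ᵥ* _ = _ ᵥ* P
      rw [vecMul_vecMul, ← mul_assoc, ← mul_assoc, h.inv, one_mul, ← vecMul_vecMul]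
      congr 1
      ext i
      exact (RingHom.map_vecMul _ _ _ i).symm
    have e2 : ∀ v, v ᵥ* (P' * (rf Q a).map (algebraMap K F) * P) =
        v - (bt v (jv K P a) / qf (jv K P a)) • jv K P a := h.ind _ (fun v => by
        rw [e1, rf_vec, map_sub, jv_smul, map_div₀, h.pol, h.qq, mul_div_mul_left _ _ h.sF])
      (fun v w hv hw => by
        rw [add_vecMul, hv, hw, bt_add_l, add_div]
        module)
      fun c v hv => by
        rw [smul_vecMul, hv, bt_smul_l, mul_div_assoc]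
        module
    have e3 : ∀ v, qf (v ᵥ* (P' * (rf Q a).map (algebraMap K F) * P)) = qf v := fun v => by
      rw [e2, sub_eq_add_neg, qf_add h.par, qf_neg, qf_smul, bt_neg_r, bt_smul_r]
      field_simp
      ring
    have o : (⟨_, d⟩ : SLm m F) ∈ OQ m F := by
      refine ⟨mem_SO.2 fun i j => ?_, e3⟩
      have := e3 (ev F i + ev F j)
      rw [add_vecMul, qf_add h.par, qf_add h.par, e3, e3, add_right_inj, ev_vecMul, ev_vecMul,
        bt_ev_l] at this
      rw [this]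
      simp only [Pi.single_apply, eq_comm]
    refine ⟨_, mul_mem o g1, ?_, fun v => ?_⟩
    · rw [dk_mul h2 hm o g1, g2, dk_refl hm hq e2, List.length_cons, Nat.cast_succ, add_comm]
    · rw [List.map_cons, List.prod_cons, ← vecMul_vecMul, ← g3, ← e1, vecMul_vecMul]
      rfl

lemma sgn (hm : Even m) (x : spinGroup Q) (σ : Equiv.Perm (Fin m)) (hσ : IsMon (π x).1 σ) :
    Equiv.Perm.sign σ = 1 := by
  by_cases h2 : (2 : F) = 0
  swap
  · exact so_sign h2 hm (h.iso hπ x) hσ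
  obtain ⟨l, h0, ⟨t, ht⟩, h3⟩ := spin_list x
  obtain ⟨g, -, g2, g3⟩ := h.rf_oq h2 hm l h0
  have e : π x = g := sl_ext fun i => h.ind (fun w => w ᵥ* (π x).1 = w ᵥ* g.1)
    (fun v => by rw [g3, h.pi_of hπ (h3 v)])
    (fun a b ha hb => by rw [add_vecMul, add_vecMul, ha, hb])
    (fun c a ha => by rw [smul_vecMul, smul_vecMul, ha]) _
  refine dk_sign h2 (h.iso hπ x) hσ ?_
  rw [e, g2, ht, Nat.cast_add, ← two_mul, h2, zero_mul]

lemma fin [Finite K] [Finite F] : Finite (spinGroup Q) := by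
  refine (π.finite_iff_finite_ker_range).2 ⟨?_, inferInstance⟩
  refine Set.Finite.subset (Set.finite_range fun c : K => mk' Q (algebraMap K _ c)) fun z hz => ?_
  obtain ⟨c, hc⟩ := h.scal hπ hz
  exact ⟨c, Subtype.ext ((mk'_val (hc ▸ z.2)).trans hc.symm)⟩

lemma ab (y t : spinGroup Q) (hs : IsMon (π y).1 1) (ht : IsMon (π t).1 1) : y * t = t * y := by
  have h0 : π (y * t * (t * y)⁻¹) = 1 := by
    rw [map_mul, map_inv, map_mul, map_mul, mon_one_comm hs ht, mul_inv_cancel]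
  by_cases h2 : (2 : F) = 0
  · exact mul_inv_eq_one.1 (h.inj2 hπ h2 _ h0)
  let QF : QuadraticForm F (Fin m → F) :=
    (algebraMap K F s * 2⁻¹) • ∑ i : Fin m, QuadraticMap.proj i i.rev
  have hQ : ∀ v, QF v = algebraMap K F s * 2⁻¹ * bt v v := fun v => by simp [QF, bt]
  let J : CliffordAlgebra Q →ₐ[K] CliffordAlgebra QF :=
    lift Q ⟨(ι QF).restrictScalars K ∘ₗ jv K P, fun v => by
      change ι QF _ * ι QF _ = _
      rw [ι_sq_scalar, hQ, two_qf h.par, mul_assoc, inv_mul_cancel_left₀ h2, ← h.qq]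
      rfl⟩
  have hJ : ∀ v, J (ι Q v) = ι QF (jv K P v) := fun v => lift_ι_apply _ _ v
  have hc : ∀ c : K, J (algebraMap K _ c) = algebraMap F _ (algebraMap K F c) := fun c =>
    J.commutes c
  have hi : ∀ x, involute (J x) = J (involute x) := fun x => by
    induction x using CliffordAlgebra.induction with
    | algebraMap c => rw [AlgHom.commutes involute, hc, AlgHom.commutes]
    | ι v => rw [hJ, involute_ι, involute_ι, map_neg, hJ]
    | mul x y hx hy => simp only [map_mul, hx, hy]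
    | add x y hx hy => simp only [map_add, hx, hy]
  have ha : ∀ (x : spinGroup Q), IsMon (π x).1 1 → ∀ i,
      ι QF (ev F i) * J x = (π x).1 i i • (J x * ι QF (ev F i)) := fun x hx i => by
    have := h.ind (fun w => ι QF w * J x = J x * ι QF (w ᵥ* (π x).1))
      (fun v => by
        obtain ⟨w, h1, h2⟩ := hπ x v
        rw [h2, ← hJ, ← hJ, ← map_mul, h1, map_mul])
      (fun a b ha hb => by rw [add_vecMul, map_add, map_add, add_mul, mul_add, ha, hb])
      (fun c a ha => by rw [smul_vecMul, map_smul, map_smul, smul_mul_assoc, mul_smul_comm, ha])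
      (ev F i)
    rw [this, mon_ev hx, map_smul, mul_smul_comm]
    rfl
  have e := ab_split h2 (mul_ne_zero h.sF (inv_ne_zero h2)) hQ (s := J y) (t := J t)
    (by rw [hi, spin_ev t]) (so_mu (h.iso hπ y) hs) (so_mu (h.iso hπ t) ht)
    (fun i hi => so_mid (h.iso hπ t) ht hi) (ha y hs) (ha t ht)
  obtain ⟨c, hz⟩ := h.scal hπ h0
  have e1 := congrArg J hz
  rw [Submonoid.coe_mul, Submonoid.coe_mul, map_mul, map_mul, e, ← map_mul, ← map_mul,
    ← Submonoid.coe_mul, ← Submonoid.coe_mul, mul_inv_cancel, OneMemClass.coe_one, map_one,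
    hc] at e1
  have e2 : c = 1 := (algebraMap K F).injective (c1_alg (Q := QF) (by
    rw [← e1, map_one, map_one]))
  rw [← mul_inv_eq_one]
  exact Subtype.ext (by rw [hz, e2, map_one, OneMemClass.coe_one])

lemma act {a : Fin m} (ha : ¬ Md k a) {f : Fin m → F} (hf : Rt φ k f) (h0 : f a.rev = 0)
    (v : Fin m → F) : v ᵥ* (π (EE Q P s (ev F a) f)).1 = v + bt v f • ev F a - v a.rev • f -
      (v a.rev * qf f) • ev F a := by
  obtain ⟨e, he⟩ := (h.rt _).1 (rt_ev (φ := φ) ha)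
  obtain ⟨f, rfl⟩ := (h.rt _).1 hf
  obtain ⟨h1, h2, h3⟩ := h.mem ha he h0
  have t : ∀ v w, algebraMap K F (s⁻¹ * polar Q v w) = bt (jv K P v) (jv K P w) := fun v w => by
    rw [map_mul, h.pol, map_inv₀, inv_mul_cancel_left₀ h.sF]
  induction v using h.ind with
  | h0 v =>
    nth_rewrite 1 [← he]
    rw [h.EE_jv, h.pi_of hπ (by rw [mk'_val h3]; exact El_act h1 h2 v), map_sub, map_sub, map_add,
      jv_smul, jv_smul, jv_smul, t, t, map_mul, map_mul, t, h.qq, he, bt_ev_r, map_inv₀,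
      mul_comm _ (jv K P v a.rev), mul_assoc, inv_mul_cancel_left₀ h.sF]
  | h1 v w hv hw =>
    rw [add_vecMul, hv, hw, bt_add_l, Pi.add_apply]
    module
  | h2 c v hv =>
    rw [smul_vecMul, hv, bt_smul_l, Pi.smul_apply, smul_eq_mul]
    module

lemma gr {a : Fin m} (ha : ¬ Md k a) : ∃ g : MulAut (spinGroup Q), (∀ x, g (g x) = x) ∧
    (∀ x i j, (π (g x)).1 i j = (π x).1 (Equiv.swap a a.rev i) (Equiv.swap a a.rev j)) ∧
    ∀ e f, Rt φ k e → Rt φ k f →
      g (EE Q P s e f) = EE Q P s (e ∘ Equiv.swap a a.rev) (f ∘ Equiv.swap a a.rev) := by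
  have n1 := md_ne h.lo ha
  obtain ⟨w, hw⟩ := (h.rt _).1 ((rt_ev (φ := φ) ha).add (rt_ev (mt md_rev.1 ha)).neg)
  have hq : algebraMap K F (Q w) = -algebraMap K F s := by
    rw [h.qq, hw, qf_add h.par, qf_neg, qf_ev n1, qf_ev (md_ne h.lo (mt md_rev.1 ha)), bt_neg_r,
      bt_ev_l, m1_eq]
    ring
  have h0 : Q w ≠ 0 := fun e => h.sF (by rw [e, map_zero] at hq; linear_combination hq)
  have hs : ∀ v, jv K P (v ᵥ* rf Q w) = jv K P v ∘ Equiv.swap a a.rev := fun v => by
    rw [rf_vec, map_sub, jv_smul, map_div₀, h.pol, hq, hw, bt_add_r, bt_neg_r, bt_ev_r, bt_ev_r,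
      Fin.rev_rev, div_neg, mul_div_cancel_left₀ _ h.sF]
    ext i
    by_cases e1 : i = a
    · simp [e1, c3_ev n1]
    · by_cases e2 : i = a.rev
      · simp [e2, c3_ev n1.symm]
      · simp [c3_ev e1, c3_ev e2, Equiv.swap_apply_of_ne_of_ne e1 e2]
  obtain ⟨g, hg⟩ := ex_gr h0
  refine ⟨g, fun x => Subtype.ext (by rw [hg, hg, cw_cw h0]), fun x i j => ?_, fun e f he hf => ?_⟩
  · have := h.ind (fun u => (u ∘ Equiv.swap a a.rev) ᵥ* (π (g x)).1 =
        (u ᵥ* (π x).1) ∘ Equiv.swap a a.rev) (fun v => by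
        obtain ⟨u, h1, h2⟩ := hπ x v
        have := congrArg (cw Q w) h1
        rw [cw_mul h0, cw_mul h0, cw_ι h0, cw_ι h0, ← hg, map_neg, map_neg, neg_mul, mul_neg,
          neg_inj] at this
        rw [h2, ← hs, ← hs, h.pi_of hπ this])
      (fun a b ha hb => by rw [Pi.add_comp, add_vecMul, add_vecMul, ha, hb, Pi.add_comp])
      (fun c a ha => by rw [Pi.smul_comp, smul_vecMul, smul_vecMul, ha, Pi.smul_comp])
      (ev F (Equiv.swap a a.rev i))
    rw [ev_vecMul, show ev F (Equiv.swap a a.rev i) ∘ Equiv.swap a a.rev = ev F i from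
      funext fun l => by simp [Pi.single_apply], ev_vecMul] at this
    exact congrFun this j
  · obtain ⟨e, rfl⟩ := (h.rt _).1 he
    obtain ⟨f, rfl⟩ := (h.rt _).1 hf
    rw [← hs, ← hs, h.EE_jv, h.EE_jv, mk'_map g (cw Q w) (map_one g) hg
      (fun x hx => cw_cw h0 x ▸ cw_mem h0 hx), cw,
      El_cj (cw_l h0) (cw_r h0) (cw_ι h0 e) (cw_ι h0 f), ← neg_one_smul K (e ᵥ* _), El_sc,
      neg_one_smul, neg_neg]

theorem spn : Spn φ k π (EE Q P s) where
  par := h.par
  lo := h.lo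
  hi := h.hi
  k2 := h.k2
  oq := h.oq hπ
  sgn := h.sgn hπ
  inj := h.inj2 hπ
  rat := h.rat hπ
  ker := h.ker hπ
  ab := h.ab hπ
  cj g e f he hf := by
    obtain ⟨e, rfl⟩ := (h.rt _).1 he
    obtain ⟨f, rfl⟩ := (h.rt _).1 hf
    obtain ⟨e', h1, h2⟩ := hπ g e
    obtain ⟨f', h3, h4⟩ := hπ g f
    rw [h2, h4, h.EE_jv, h.EE_jv, mk'_map (fun x => g⁻¹ * x * g)
      (fun x => star (g : CliffordAlgebra Q) * x * (g : CliffordAlgebra Q)) (by simp) (fun _ => rfl) fun x hx => ?_,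
      El_cj (spin_l g) (spin_r g) (ac_cj h1) (ac_cj h3)]
    have := mul_mem (mul_mem g.2 hx) (g⁻¹).2
    rwa [spin_inv, ← mul_assoc, ← mul_assoc, spin_r, one_mul, mul_assoc, spin_r, mul_one] at this
  sc c hc e f he hf := by
    obtain ⟨e, rfl⟩ := (h.rt _).1 he
    obtain ⟨f, rfl⟩ := (h.rt _).1 hf
    obtain ⟨d, rfl⟩ := h.fix c hc
    rw [← jv_smul, ← jv_smul, h.EE_jv, h.EE_jv, El_sc]
  sw e f he hf h0 := by
    obtain ⟨e, rfl⟩ := (h.rt _).1 he
    obtain ⟨f, rfl⟩ := (h.rt _).1 hf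
    rw [← map_neg, h.EE_jv, h.EE_jv, El_sw (h.pol0 h0)]
  add a ha f f' hf hf' h0 h0' := by
    obtain ⟨e, he⟩ := (h.rt _).1 (rt_ev (φ := φ) ha)
    obtain ⟨f, rfl⟩ := (h.rt _).1 hf
    obtain ⟨f', rfl⟩ := (h.rt _).1 hf'
    obtain ⟨h1, -, h3⟩ := h.mem ha he h0
    obtain ⟨-, h2, h4⟩ := h.mem ha he h0'
    rw [← he, ← map_add, h.EE_jv, h.EE_jv, h.EE_jv, El_add h1 h2]
    exact Subtype.ext (by
      rw [mk'_val (mul_mem h3 h4), Submonoid.coe_mul, mk'_val h3, mk'_val h4])
  act a ha f hf h0 := h.act hπ ha hf h0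
  gr a ha := h.gr hπ ha

end Spl

end Pool.Agent.Lib.MP_1ae3da_al.JP
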