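import Mathlib

/-! The decomposition of Witt over a finite field. -/

namespace Pool.Agent.Lib.MP_1ae3da_al.JP

open QuadraticMap

variable {K : Type} [Field K] {m : ℕ} {Q : QuadraticForm K (Fin m → K)}

/-- hyperbolic pairs. -/
def HP (Q : QuadraticForm K (Fin m → K)) (k : ℕ) (e f : ℕ → Fin m → K) : Prop :=
  ∀ i < k, Q (e i) = 0 ∧ Q (f i) = 0 ∧ ∀ j < k, polar Q (e i) (f j) = (if i = j then 1 else 0) ∧
    polar Q (e i) (e j) = 0 ∧ polar Q (f i) (f j) = 0

lemma wt1_sum {I : Type} (s : Finset I) (x : I → Fin m → K) (y : Fin m → K) :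
    polar Q (∑ i ∈ s, x i) y = ∑ i ∈ s, polar Q (x i) y :=
  map_sum (Q.polarBilin.flip y) x s

section
variable {k : ℕ} {e f : ℕ → Fin m → K} (h : HP Q k e f)
include h

lemma wt1_f (a b : ℕ → K) {j : ℕ} (hj : j < k) :
    polar Q (∑ i ∈ Finset.range k, (a i • e i + b i • f i)) (f j) = a j := by
  rw [wt1_sum, Finset.sum_eq_single j (fun i hi hne => ?_) (by simp [hj])]
  · simp [((h j hj).2.2 j hj).1, ((h j hj).2.2 j hj).2.2, -polar_self]
  · have := (h i (Finset.mem_range.mp hi)).2.2 j hj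
    simp [this.1, this.2.2, hne]

lemma wt1_e (a b : ℕ → K) {j : ℕ} (hj : j < k) :
    polar Q (∑ i ∈ Finset.range k, (a i • e i + b i • f i)) (e j) = b j := by
  rw [wt1_sum, Finset.sum_eq_single j (fun i hi hne => ?_) (by simp [hj])]
  · simp [polar_comm Q (f j), ((h j hj).2.2 j hj).1, ((h j hj).2.2 j hj).2.1, -polar_self]
  · have hi := Finset.mem_range.mp hi
    simp [polar_comm Q (f i), ((h j hj).2.2 i hi).1, ((h i hi).2.2 j hj).2.1, hne.symm]

lemma wt1_ker : ∃ W : Submodule K (Fin m → K), m = 2 * k + Module.finrank K W ∧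
    ∀ v, v ∈ W ↔ ∀ i < k, polar Q v (e i) = 0 ∧ polar Q v (f i) = 0 := by
  let Φ : (Fin m → K) →ₗ[K] (Fin k → K) × (Fin k → K) :=
    (LinearMap.pi fun i : Fin k => Q.polarBilin.flip (f i)).prod
      (LinearMap.pi fun i : Fin k => Q.polarBilin.flip (e i))
  have hs : LinearMap.range Φ = ⊤ := LinearMap.range_eq_top.mpr fun ⟨a, b⟩ =>
    ⟨∑ i ∈ Finset.range k, ((if c : i < k then a ⟨i, c⟩ else 0) • e i +
      (if c : i < k then b ⟨i, c⟩ else 0) • f i),
      Prod.ext (funext fun j => (wt1_f h _ _ j.2).trans (dif_pos j.2))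
        (funext fun j => (wt1_e h _ _ j.2).trans (dif_pos j.2))⟩
  refine ⟨LinearMap.ker Φ, ?_, fun v => ⟨fun hv i hi => ?_, fun hv => ?_⟩⟩
  · have := LinearMap.finrank_range_add_finrank_ker Φ
    rw [hs, finrank_top] at this
    simp only [Module.finrank_prod, Module.finrank_fin_fun] at this
    omega
  · exact ⟨congrFun (congrArg Prod.snd hv) ⟨i, hi⟩, congrFun (congrArg Prod.fst hv) ⟨i, hi⟩⟩
  · exact Prod.ext (funext fun j => (hv j j.2).2) (funext fun j => (hv j j.2).1)

lemma wt1_pr (v : Fin m → K) : ∀ j < k, polar Q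
    (v - ∑ i ∈ Finset.range k, (polar Q v (f i) • e i + polar Q v (e i) • f i)) (e j) = 0 ∧ polar Q
    (v - ∑ i ∈ Finset.range k, (polar Q v (f i) • e i + polar Q v (e i) • f i)) (f j) = 0 :=
  fun j hj => ⟨by rw [polar_sub_left, wt1_e h _ _ hj, sub_self],
    by rw [polar_sub_left, wt1_f h _ _ hj, sub_self]⟩

lemma wt1_add {x y : Fin m → K} (hx : ∀ i < k, polar Q x (e i) = 0 ∧ polar Q x (f i) = 0)
    (hy : ∀ i < k, polar Q y (e i) = 0 ∧ polar Q y (f i) = 0) (h1 : Q x = 0) (h2 : Q y = 0)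
    (h3 : polar Q x y = 1) : HP Q (k + 1) (Function.update e k x) (Function.update f k y) := by
  intro i hi
  rcases Nat.lt_succ_iff_lt_or_eq.mp hi with hi | rfl
  · rw [Function.update_of_ne hi.ne, Function.update_of_ne hi.ne]
    refine ⟨(h i hi).1, (h i hi).2.1, fun j hj => ?_⟩
    rcases Nat.lt_succ_iff_lt_or_eq.mp hj with hj | rfl
    · rw [Function.update_of_ne hj.ne, Function.update_of_ne hj.ne]
      exact (h i hi).2.2 j hj
    · rw [Function.update_self, Function.update_self, if_neg hi.ne, polar_comm Q (e i),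
        polar_comm Q (e i), polar_comm Q (f i)]
      exact ⟨(hy i hi).1, (hx i hi).1, (hy i hi).2⟩
  · rw [Function.update_self, Function.update_self]
    refine ⟨h1, h2, fun j hj => ?_⟩
    rcases Nat.lt_succ_iff_lt_or_eq.mp hj with hj | rfl
    · rw [Function.update_of_ne hj.ne, Function.update_of_ne hj.ne, if_neg hj.ne']
      exact ⟨(hx j hj).2, (hx j hj).1, (hy j hj).2⟩
    · rw [Function.update_self, Function.update_self, if_pos rfl, polar_self, polar_self, h1, h2,
        smul_zero]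
      exact ⟨h3, rfl, rfl⟩

lemma wt1_step (nd : ∀ v, (∀ w, polar Q v w = 0) → v = 0) {x : Fin m → K}
    (hx : ∀ i < k, polar Q x (e i) = 0 ∧ polar Q x (f i) = 0) (h1 : Q x = 0) (h0 : x ≠ 0) :
    ∃ e' f', HP Q (k + 1) e' f' := by
  obtain ⟨y, hy⟩ := not_forall.mp (mt (nd x) h0)
  set z := y - ∑ i ∈ Finset.range k, (polar Q y (f i) • e i + polar Q y (e i) • f i) with hz
  have h2 : polar Q x z = polar Q x y := by
    rw [hz, polar_sub_right, polar_comm Q x (∑ _ ∈ _, _), wt1_sum, Finset.sum_eq_zero, sub_zero]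
    intro i hi
    have := hx i (Finset.mem_range.mp hi)
    rw [polar_comm, polar_add_right, polar_smul_right, polar_smul_right, this.1, this.2, smul_zero,
      smul_zero, add_zero]
  have h3 : polar Q x ((polar Q x y)⁻¹ • z) = 1 := by
    rw [polar_smul_right, h2, smul_eq_mul, inv_mul_cancel₀ hy]
  have h4 : ∀ i < k, polar Q ((polar Q x y)⁻¹ • z) (e i) = 0 ∧
      polar Q ((polar Q x y)⁻¹ • z) (f i) = 0 := fun i hi => by
    have := wt1_pr h y i hi
    rw [polar_smul_left, polar_smul_left, this.1, this.2, smul_zero]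
    exact ⟨rfl, rfl⟩
  generalize (polar Q x y)⁻¹ • z = u at h3 h4
  refine ⟨_, _, wt1_add h (y := u + (-Q u) • x) hx (fun i hi => ?_) h1 ?_ ?_⟩
  · rw [polar_add_left, polar_add_left, polar_smul_left, polar_smul_left, (hx i hi).1, (hx i hi).2,
      (h4 i hi).1, (h4 i hi).2, smul_zero, add_zero]
    exact ⟨rfl, rfl⟩
  · rw [QuadraticMap.map_add Q, QuadraticMap.map_smul, h1, polar_smul_right, polar_comm, h3]
    simp
  · rw [polar_add_right, polar_smul_right, polar_self, h1, h3]
    simp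

end

lemma wt1_cw [Finite K] {d : ℕ} (w : Fin d → Fin m → K)
    (h : ∀ c : Fin d → K, Q (∑ j, c j • w j) = 0 → c = 0) : d ≤ 2 := by
  classical
  have := Fintype.ofFinite K
  by_contra hd
  obtain ⟨p, hp⟩ := CharP.exists K
  let B := Q.toBilin (Pi.basisFun K (Fin m))
  have hB : ∀ v, Q v = B v v := fun v => by
    conv_lhs => rw [← toQuadraticMap_toBilin Q (Pi.basisFun K (Fin m))]
    rfl
  let g : MvPolynomial (Fin d) K :=
    ∑ i, ∑ j, MvPolynomial.C (B (w i) (w j)) * (MvPolynomial.X i * MvPolynomial.X j)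
  have h1 : g.IsHomogeneous 2 := MvPolynomial.IsHomogeneous.sum _ _ _ fun i _ =>
    MvPolynomial.IsHomogeneous.sum _ _ _ fun j _ =>
      ((MvPolynomial.isHomogeneous_X K i).mul (MvPolynomial.isHomogeneous_X K j)).C_mul _
  have h2 : ∀ c, MvPolynomial.eval c g = Q (∑ j, c j • w j) := fun c => by
    rw [hB]
    simp only [g, map_sum, map_mul, MvPolynomial.eval_C, MvPolynomial.eval_X, map_smul,
      LinearMap.sum_apply, LinearMap.smul_apply, smul_eq_mul, Finset.mul_sum]
    rw [Finset.sum_comm]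
    exact Finset.sum_congr rfl fun i _ => Finset.sum_congr rfl fun j _ => by ring
  have h3 := char_dvd_card_solutions p (f := g)
    (h1.totalDegree_le.trans_lt (by rw [Fintype.card_fin]; omega))
  have h4 : Fintype.card {c : Fin d → K // MvPolynomial.eval c g = 0} = 1 :=
    Fintype.card_eq_one_iff.mpr ⟨⟨0, by rw [h2]; simp⟩, fun c =>
      Subtype.ext (h _ ((h2 _).symm.trans c.2))⟩
  rw [h4, Nat.dvd_one] at h3
  exact CharP.char_ne_one K p h3

/-- hint: take `k` maximal (the `e i` are independent, so `k ≤ m`). The vectors orthogonal to all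
`e i`, `f i` form a subspace `W` of dimension `m - 2 k` without singular vectors, else there is
one more pair; `char_dvd_card_solutions` (three variables, degree two) bounds its dimension by two.
`w` is a basis of `W`. -/
theorem witt [Finite K] (nd : ∀ v, (∀ w, polar Q v w = 0) → v = 0) :
    ∃ (k d : ℕ) (e f : ℕ → Fin m → K) (w : Fin d → Fin m → K), HP Q k e f ∧ m = 2 * k + d ∧ d ≤ 2 ∧
      (∀ j, ∀ i < k, polar Q (w j) (e i) = 0 ∧ polar Q (w j) (f i) = 0) ∧
      (∀ c : Fin d → K, Q (∑ j, c j • w j) = 0 → c = 0) ∧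
      ∀ v, ∃ c : Fin d → K, v = ∑ i ∈ Finset.range k, (polar Q v (f i) • e i + polar Q v (e i) • f i) +
        ∑ j, c j • w j := by
  obtain ⟨k, ⟨e, f, h⟩, hk⟩ : ∃ k, (∃ e f, HP Q k e f) ∧ ¬ ∃ e f, HP Q (k + 1) e f := by
    by_contra c
    push Not at c
    have : ∀ k, ∃ e f, HP Q k e f := fun k => by
      induction k with
      | zero => exact ⟨0, 0, fun i hi => absurd hi (Nat.not_lt_zero i)⟩
      | succ k ih => exact c k ih
    obtain ⟨e, f, h⟩ := this (m + 1)
    obtain ⟨W, h1, -⟩ := wt1_ker h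
    omega
  obtain ⟨W, h1, h2⟩ := wt1_ker h
  let b := Module.finBasis K W
  have h3 : ∀ c : Fin (Module.finrank K W) → K,
      ∑ j, c j • (b j : Fin m → K) = (b.equivFun.symm c : W) := fun c => by simp
  have h4 : ∀ c : Fin (Module.finrank K W) → K, Q (∑ j, c j • (b j : Fin m → K)) = 0 → c = 0 :=
    fun c hc => by
      rw [h3] at hc
      by_contra h0
      refine hk (wt1_step h nd ((h2 _).mp (b.equivFun.symm c).2) hc fun e => h0 ?_)
      exact b.equivFun.symm.map_eq_zero_iff.mp (Subtype.ext e)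
  refine ⟨k, _, e, f, fun j => b j, h, h1, wt1_cw _ h4, fun j => (h2 _).mp (b j).2, h4, fun v => ?_⟩
  refine ⟨b.equivFun ⟨_, (h2 _).mpr (wt1_pr h v)⟩, ?_⟩
  rw [h3, LinearEquiv.symm_apply_apply, add_sub_cancel]

/-- the span of the `e i`. -/
theorem HP.sing {k : ℕ} {e f : ℕ → Fin m → K} (h : HP Q k e f) :
    ∃ W : Submodule K (Fin m → K), Module.finrank K W = k ∧ ∀ v ∈ W, Q v = 0 := by
  have h1 : LinearIndependent K fun i : Fin k => e i := by
    rw [Fintype.linearIndependent_iff]
    intro a ha j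
    have := congrArg (polar Q · (f j)) ha
    simp only [wt1_sum, polar_smul_left, polar_zero_left] at this
    rw [Finset.sum_eq_single j (fun i _ hne => ?_) (by simp), ((h j j.2).2.2 j j.2).1] at this
    · simpa using this
    · rw [((h i i.2).2.2 j j.2).1, if_neg (Fin.val_injective.ne hne), smul_zero]
  refine ⟨Submodule.span K (Set.range fun i : Fin k => e i), by
    rw [finrank_span_eq_card h1, Fintype.card_fin], fun v hv => ?_⟩
  obtain ⟨a, rfl⟩ := (Submodule.mem_span_range_iff_exists_fun K).mp hv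
  induction (Finset.univ : Finset (Fin k)) using Finset.induction_on with
  | empty => simp
  | insert i s hi ih =>
    rw [Finset.sum_insert hi, QuadraticMap.map_add Q, ih, QuadraticMap.map_smul, (h i i.2).1,
      polar_comm, wt1_sum, Finset.sum_eq_zero fun j _ => by
        rw [polar_smul_left, polar_smul_right, ((h j j.2).2.2 i i.2).2.1, smul_zero, smul_zero]]
    simp

end Pool.Agent.Lib.MP_1ae3da_al.JP
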