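import Pool.Agent.Lib.MP_1ae3da_al.P.Df
import Pool.Agent.Lib.MP_1ae3da_al.P.Wt1

/-! Every non degenerate form over a finite field has a splitting. -/

namespace Pool.Agent.Lib.MP_1ae3da_al.JP

open Matrix QuadraticMap

variable {K : Type} [Field K] {m : ℕ} {Q : QuadraticForm K (Fin m → K)}

/-- the quadratic extension given by an irreducible polynomial. -/
lemma wt_ext [Finite K] {a b : K} (h : ∀ r, r ^ 2 ≠ a + b * r) (h2 : (2 : K) = 0 → b ≠ 0) :
    ∃ (F : Type) (_ : Field F) (_ : Finite F) (_ : Algebra K F) (φ : F →+* F) (t : F),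
      t + φ t = algebraMap K F b ∧ t * φ t = -algebraMap K F a ∧ φ t ≠ t ∧
      (∀ z, ∃ x y, z = algebraMap K F x + algebraMap K F y * t) ∧
      ∀ c, φ c = c ↔ ∃ d, algebraMap K F d = c := by
  have : Fact (∀ r, r ^ 2 ≠ a + b * r) := ⟨h⟩
  have fx : ∀ c : QuadraticAlgebra K a b, star c = c → c.im = 0 := fun c hc => by
    have e1 := congrArg QuadraticAlgebra.re hc
    have e2 := congrArg QuadraticAlgebra.im hc
    rw [QuadraticAlgebra.re_star] at e1
    rw [QuadraticAlgebra.im_star] at e2
    by_contra h0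
    refine h2 (mul_right_cancel₀ h0 ?_) (mul_right_cancel₀ h0 ?_)
    · linear_combination -e2
    · linear_combination e1
  refine ⟨QuadraticAlgebra K a b, inferInstance,
    Finite.of_equiv _ (QuadraticAlgebra.equivProd a b).symm, inferInstance, starRingEnd _,
    QuadraticAlgebra.omega, ?_, ?_, fun e => ?_, fun z => ⟨z.re, z.im, ?_⟩,
    fun c => ⟨fun hc => ⟨c.re, ?_⟩, ?_⟩⟩
  · ext <;> simp [starRingEnd_apply]
  · ext <;> simp [starRingEnd_apply]
  · exact one_ne_zero (fx _ e)
  · ext <;> simp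
  · ext
    · rfl
    · exact (fx c hc).symm
  · rintro ⟨d, rfl⟩
    ext <;> simp [starRingEnd_apply]

section
variable {k : ℕ} {e f : ℕ → Fin m → K} (h : HP Q k e f)
include h

lemma wt_Q (a b : ℕ → K) : ∀ n ≤ k,
    Q (∑ i ∈ Finset.range n, (a i • e i + b i • f i)) = ∑ i ∈ Finset.range n, a i * b i
  | 0, _ => by simp
  | n + 1, hn => by
    have hn' : n < k := hn
    have e1 : Q (a n • e n + b n • f n) = a n * b n := by
      rw [QuadraticMap.map_add Q, Q.map_smul, Q.map_smul, (h n hn').1, (h n hn').2.1, polar_smul_left,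
        polar_smul_right, ((h n hn').2.2 n hn').1]
      simp
    rw [Finset.sum_range_succ, Finset.sum_range_succ, QuadraticMap.map_add Q, wt_Q a b n hn'.le,
      e1, wt1_sum, add_eq_left]
    refine Finset.sum_eq_zero ?_
    intro i hi
    have hi := Finset.mem_range.1 hi
    have p1 := (h i (hi.trans hn')).2.2 n hn'
    have p2 := ((h n hn').2.2 i (hi.trans hn')).1
    rw [polar_comm] at p2
    simp [p1.1, p1.2.1, p1.2.2, p2, hi.ne, hi.ne']

variable {d : ℕ} {w : Fin d → Fin m → K}
  (ho : ∀ j, ∀ i < k, polar Q (w j) (e i) = 0 ∧ polar Q (w j) (f i) = 0)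
include ho

lemma wt_o (c : Fin d → K) {i : ℕ} (hi : i < k) :
    polar Q (∑ j, c j • w j) (e i) = 0 ∧ polar Q (∑ j, c j • w j) (f i) = 0 := by
  constructor <;> rw [wt1_sum] <;> refine Finset.sum_eq_zero fun j _ => ?_
  · rw [polar_smul_left, (ho j i hi).1, smul_zero]
  · rw [polar_smul_left, (ho j i hi).2, smul_zero]

lemma wt_oo (c : Fin d → K) (a b : ℕ → K) :
    polar Q (∑ i ∈ Finset.range k, (a i • e i + b i • f i)) (∑ j, c j • w j) = 0 := by
  rw [wt1_sum]
  refine Finset.sum_eq_zero fun i hi => ?_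
  obtain ⟨p1, p2⟩ := wt_o h ho c (Finset.mem_range.1 hi)
  rw [polar_comm, polar_add_right, polar_smul_right, polar_smul_right, p1, p2]
  simp

variable (hs : ∀ v, ∃ c : Fin d → K,
  v = ∑ i ∈ Finset.range k, (polar Q v (f i) • e i + polar Q v (e i) • f i) + ∑ j, c j • w j)
include hs

lemma wt_rad (nd : ∀ v, (∀ w, polar Q v w = 0) → v = 0) (c : Fin d → K)
    (hc : ∀ j, polar Q (w j) (∑ j, c j • w j) = 0) : ∑ j, c j • w j = 0 := nd _ fun v => by
  obtain ⟨c', e⟩ := hs v
  rw [polar_comm, e, polar_add_left, wt_oo h ho, wt1_sum, zero_add]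
  exact Finset.sum_eq_zero fun j _ => by rw [polar_smul_left, hc, smul_zero]

/-- the splitting from the images `μ` of the anisotropic basis vectors. -/
lemma wt_gen (ha : ∀ c : Fin d → K, Q (∑ j, c j • w j) = 0 → c = 0) (lo : 2 * k ≤ m)
    {F : Type} [Field F] [Algebra K F] {φ : F →+* F} {s : K} (s0 : s ≠ 0) (par : Par F m)
    (fx : ∀ c, φ c = c ↔ ∃ d, algebraMap K F d = c) (μ : Fin d → Fin m → F)
    (m1 : ∀ j, Mv φ k (μ j)) (m2 : ∀ x, Mv φ k x → ∃ c : Fin d → K, ∑ j, c j • μ j = x)
    (m3 : ∀ c : Fin d → K,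
      algebraMap K F (Q (∑ j, c j • w j)) = algebraMap K F s * qf (∑ j, c j • μ j))
    (m4 : ∀ j, Md k j → ev F j ∈ Submodule.span F (Set.range μ)) :
    ∃ P P' : Matrix (Fin m) (Fin m) F, P * P' = 1 ∧
      (∀ v, algebraMap K F (Q v) = algebraMap K F s * qf ((fun i => algebraMap K F (v i)) ᵥ* P)) ∧
      (∀ w, Rt φ k w ↔ ∃ v : Fin m → K, (fun i => algebraMap K F (v i)) ᵥ* P = w) := by
  obtain ⟨G, hG⟩ := (Fintype.linearCombination K w).exists_leftInverse_of_injective
    (LinearMap.ker_eq_bot'.2 fun c hc => ha c (by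
      rw [← Fintype.linearCombination_apply, hc, map_zero]))
  have hG' : ∀ c, G (∑ j, c j • w j) = c := fun c => by
    rw [← Fintype.linearCombination_apply]
    exact LinearMap.congr_fun hG c
  let Y : (Fin m → K) →ₗ[K] (Fin m → K) := ∑ i ∈ Finset.range k,
    ((Q.polarBilin.flip (f i)).smulRight (e i) + (Q.polarBilin.flip (e i)).smulRight (f i))
  have hY : ∀ v, Y v =
      ∑ i ∈ Finset.range k, (polar Q v (f i) • e i + polar Q v (e i) • f i) := fun v => by
    simp [Y, LinearMap.sum_apply]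
  let H : (Fin m → K) →ₗ[K] (Fin m → F) := LinearMap.pi fun i => Algebra.linearMap K F ∘ₗ
    if (i : ℕ) < k then Q.polarBilin.flip (f i) else
      if (i.rev : ℕ) < k then s⁻¹ • Q.polarBilin.flip (e i.rev) else 0
  have hH : ∀ v i, H v i = algebraMap K F (if (i : ℕ) < k then polar Q v (f i) else
      if (i.rev : ℕ) < k then s⁻¹ * polar Q v (e i.rev) else 0) := fun v i => by
    simp only [H, LinearMap.pi_apply, LinearMap.comp_apply, Algebra.linearMap_apply]
    split_ifs <;> simp
  have H0 : ∀ v i, Md k i → H v i = 0 := fun v i hi => by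
    rw [hH, if_neg hi.1.not_gt, if_neg hi.2.not_gt, map_zero]
  let L : (Fin m → K) →ₗ[K] (Fin m → F) :=
    H + Fintype.linearCombination K μ ∘ₗ G ∘ₗ (LinearMap.id - Y)
  have hL : ∀ v (c : Fin d → K), v = Y v + ∑ j, c j • w j → L v = H v + ∑ j, c j • μ j :=
    fun v c e => by
      have : v - Y v = ∑ j, c j • w j := sub_eq_of_eq_add' e
      simp only [L, LinearMap.add_apply, LinearMap.comp_apply, LinearMap.sub_apply,
        LinearMap.id_apply, this, hG', Fintype.linearCombination_apply]
  have mv : ∀ c : Fin d → K, Mv φ k (∑ j, c j • μ j) := fun c => by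
    refine ⟨fun i => ?_, fun i hi => ?_⟩
    · simp only [Finset.sum_apply, Pi.smul_apply, map_sum]
      exact Finset.sum_congr rfl fun j _ => by
        rw [Algebra.smul_def, Algebra.smul_def, map_mul, (fx _).2 ⟨_, rfl⟩, (m1 j).1]
    · simp [(m1 _).2 i hi]
  let P : Matrix (Fin m) (Fin m) F := Matrix.of fun i => L (Pi.single i 1)
  have hP : ∀ v : Fin m → K, (fun i => algebraMap K F (v i)) ᵥ* P = L v := fun v => by
    conv_rhs => rw [← Finset.univ_sum_single v, map_sum]
    funext j
    simp only [vecMul, dotProduct, Finset.sum_apply, P, Matrix.of_apply]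
    refine Finset.sum_congr rfl fun i _ => ?_
    rw [← Algebra.smul_def, ← Pi.smul_apply, ← map_smul, ← Pi.single_smul', smul_eq_mul, mul_one]
  have hR : ∀ x, Rt φ k x ↔ ∃ v : Fin m → K, (fun i => algebraMap K F (v i)) ᵥ* P = x := fun x => by
    constructor
    · intro hx
      have : ∀ i : ℕ, ∃ a : K, ∀ j : Fin m, (j : ℕ) = i → ¬ Md k j → algebraMap K F a = x j :=
        fun i => by
          by_cases hi : ∃ j : Fin m, (j : ℕ) = i ∧ ¬ Md k j
          · obtain ⟨j, j1, j2⟩ := hi
            have := hx j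
            rw [tm_nd j2] at this
            obtain ⟨a, e⟩ := (fx _).1 this
            exact ⟨a, fun j' e' _ => by rw [e, Fin.ext (j1.trans e'.symm)]⟩
          · exact ⟨0, fun j j1 j2 => absurd ⟨j, j1, j2⟩ hi⟩
      choose a hax using this
      obtain ⟨c, hc⟩ := m2 (fun i => if Md k i then x i else 0) ⟨fun i => by
        by_cases e : Md k i
        · have := hx i
          rw [tm_md e] at this
          simp only [tm_md e, if_pos e, if_pos (md_rev.2 e), this]
        · simp only [tm_nd e, if_neg e, map_zero], fun i hi => if_neg hi⟩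
      obtain ⟨v, hv⟩ : ∃ v, v = ∑ i ∈ Finset.range k,
        (a i • e i + (s * a (m - (i + 1))) • f i) + ∑ j, c j • w j := ⟨_, rfl⟩
      have p1 : ∀ i < k, polar Q v (f i) = a i := fun i hi => by
        rw [hv, polar_add_left, wt1_f h _ _ hi, (wt_o h ho c hi).2, add_zero]
      have p2 : ∀ i < k, polar Q v (e i) = s * a (m - (i + 1)) := fun i hi => by
        rw [hv, polar_add_left, wt1_e h _ _ hi, (wt_o h ho c hi).1, add_zero]
      refine ⟨v, ?_⟩
      rw [hP, hL v c (by
        rw [hY, Finset.sum_congr rfl fun i hi => by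
          rw [p1 i (Finset.mem_range.1 hi), p2 i (Finset.mem_range.1 hi)]]
        exact hv), hc]
      funext i
      rw [Pi.add_apply]
      by_cases e : Md k i
      · rw [H0 v i e, if_pos e, zero_add]
      · rw [if_neg e, add_zero, hH]
        split_ifs with c1 c2
        · rw [p1 i c1]
          exact hax _ i rfl e
        · rw [p2 _ c2, inv_mul_cancel_left₀ s0]
          exact hax _ i (by rw [Fin.val_rev]; omega) e
        · exact absurd ⟨not_lt.1 c1, not_lt.1 c2⟩ e
    · rintro ⟨v, rfl⟩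
      obtain ⟨c, hc⟩ := hs v
      rw [hP, hL v c (by rwa [hY])]
      refine Rt.add (fun i => ?_) (mv c).1
      by_cases e : Md k i
      · rw [tm_md e, H0 v i e, H0 v _ (md_rev.2 e), map_zero]
      · rw [tm_nd e, hH]
        exact (fx _).2 ⟨_, rfl⟩
  have hU : IsUnit P := vecMul_surjective_iff_isUnit.1 fun x => by
    have h1 : ∀ y, Rt φ k y → y ∈ LinearMap.range (vecMulLinear P) := fun y hy => by
      obtain ⟨v, hv⟩ := (hR y).1 hy
      exact ⟨_, hv⟩
    have h2 : x ∈ LinearMap.range (vecMulLinear P) := by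
      rw [← Finset.univ_sum_single x]
      refine Submodule.sum_mem _ fun j _ => ?_
      rw [← mul_one (x j), ← smul_eq_mul, Pi.single_smul']
      refine Submodule.smul_mem _ _ ?_
      by_cases e : Md k j
      · refine Submodule.span_le.2 ?_ (m4 j e)
        rintro _ ⟨l, rfl⟩
        exact h1 _ (m1 l).1
      · exact h1 _ (rt_ev e)
    exact h2
  obtain ⟨P', hP'⟩ := hU.exists_right_inv
  refine ⟨P, P', hP', fun v => ?_, hR⟩
  obtain ⟨c, hc⟩ := hs v
  have b0 : bt (H v) (∑ j, c j • μ j) = 0 := Finset.sum_eq_zero fun i _ => by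
    by_cases e : Md k i
    · rw [H0 v i e, zero_mul]
    · rw [(mv c).2 _ (mt md_rev.1 e), mul_zero]
  have q1 : qf (H v) = ∑ i ∈ Finset.range k,
      algebraMap K F (s⁻¹ * (polar Q v (f i) * polar Q v (e i))) := by
    have : qf (H v) = ∑ i : Fin m, (fun i : ℕ => if i < k then
        algebraMap K F (s⁻¹ * (polar Q v (f i) * polar Q v (e i))) else 0) i := by
      refine Finset.sum_congr rfl fun i _ => ?_
      have hi := i.2
      by_cases c1 : (i : ℕ) < k
      · have c2 : ¬ (i.rev : ℕ) < k := by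
          rw [Fin.val_rev]
          omega
        rw [if_pos (Fin.lt_def.2 (by omega)), hH, hH, if_pos c1, if_neg c2, Fin.rev_rev,
          if_pos c1, ← map_mul, mul_left_comm]
        exact (if_pos c1).symm
      · refine Eq.trans ?_ (if_neg c1).symm
        split_ifs with c2 c3
        · rw [H0 v i ⟨not_lt.1 c1, by rw [Fin.lt_def] at c2; omega⟩, zero_mul]
        · rw [H0 v i ⟨not_lt.1 c1, c3 ▸ not_lt.1 c1⟩, zero_mul, mul_zero]
        · rfl
    rw [this.trans (Fin.sum_univ_eq_sum_range (fun i : ℕ => if i < k then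
      algebraMap K F (s⁻¹ * (polar Q v (f i) * polar Q v (e i))) else 0) m), ← Finset.sum_filter]
    congr 1
    ext i
    simp only [Finset.mem_filter, Finset.mem_range]
    omega
  rw [hP, hL v c (by rwa [hY]), qf_add par, b0, add_zero, q1, mul_add, ← m3, ← map_sum, ← map_mul,
    ← Finset.mul_sum, mul_inv_cancel_left₀ s0, ← wt_Q h _ _ k le_rfl, ← map_add]
  congr 1
  conv_lhs => rw [hc, QuadraticMap.map_add Q, wt_oo h ho, add_zero]

end

/-- hint: `witt`. The coordinates of `v` are `polar v (f i)` at `i < k`, `s⁻¹ * polar v (e i)` at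
`i.rev`, and in the middle: `d = 0`: `F = K`, `φ = id`, `s = 1`. `d = 1`: `2 ≠ 0` by `nd`, `F = K`,
`s = 2 * Q (w 0)`, the middle coordinate is `c 0`. `d = 2`: `s = Q (w 0)`,
`Q (x w0 + y w1) = s * (x + ω y) * (x + φ ω y)` where `ω` is a root of the irreducible
`X ^ 2 - (polar w0 w1 / s) X + Q w1 / s` (`QuadraticAlgebra` with `star`, or `AdjoinRoot`). -/
theorem ex_spl0 [Finite K] (nd : ∀ v, (∀ w, polar Q v w = 0) → v = 0) :
    ∃ (k : ℕ) (F : Type) (_ : Field F) (_ : Finite F) (_ : Algebra K F)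
      (P P' : Matrix (Fin m) (Fin m) F) (φ : F →+* F) (s : K), Par F m ∧ s ≠ 0 ∧ 2 * k ≤ m ∧
      m ≤ 2 * k + 2 ∧ P * P' = 1 ∧
      (∀ v, algebraMap K F (Q v) = algebraMap K F s * qf ((fun i => algebraMap K F (v i)) ᵥ* P)) ∧
      (∀ w, Rt φ k w ↔ ∃ v : Fin m → K, (fun i => algebraMap K F (v i)) ᵥ* P = w) ∧
      (∀ c, φ c = c ↔ ∃ d, algebraMap K F d = c) ∧
      ∃ W : Submodule K (Fin m → K), Module.finrank K W = k ∧ ∀ v ∈ W, Q v = 0 := by
  obtain ⟨k, d, e, f, w, h, hm, hd, ho, ha, hs⟩ := witt nd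
  have lo : 2 * k ≤ m := by omega
  have fx : ∀ c : K, RingHom.id K c = c ↔ ∃ d, algebraMap K K d = c :=
    fun c => ⟨fun _ => ⟨c, rfl⟩, fun _ => rfl⟩
  have w0 : ∀ j, Q (w j) ≠ 0 := fun j c => by
    have := ha (Pi.single j 1) (by simpa [Pi.single_apply] using c)
    simpa using congrFun this j
  have rd : ∀ j, (∀ l, polar Q (w l) (w j) = 0) → False := fun j c => by
    have := wt_rad h ho hs nd (Pi.single j 1) (by simpa [Pi.single_apply] using c)
    exact w0 j (by simpa [Pi.single_apply] using congrArg Q this)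
  interval_cases d
  · have nm : ∀ i : Fin m, ¬ Md k i := fun i c => by
      have := i.2
      rw [Md, Fin.val_rev] at c
      omega
    have par : Par K m := Or.inr ⟨k, by omega⟩
    obtain ⟨P, P', a1, a2, a3⟩ := wt_gen h ho hs ha lo (φ := RingHom.id K) one_ne_zero par fx
      (fun _ => 0) (fun j => j.elim0)
      (fun x hx => ⟨0, by funext i; simp [hx.2 i (nm i)]⟩) (fun c => by simp [qf_zero])
      fun j c => absurd c (nm j)
    exact ⟨k, K, _, inferInstance, _, P, P', _, 1, par, one_ne_zero, lo, by omega, a1, a2, a3, fx,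
      h.sing⟩
  · have two : (2 : K) ≠ 0 := fun c => rd 0 fun l => by
      rw [Subsingleton.elim l 0, polar_self, two_smul, ← two_mul, c, zero_mul]
    obtain ⟨j, hj⟩ : ∃ j : Fin m, (j : ℕ) = k := ⟨⟨k, by omega⟩, rfl⟩
    have jr : j = j.rev := Fin.ext (by rw [Fin.val_rev]; omega)
    have md : ∀ i : Fin m, Md k i ↔ i = j := fun i => by
      have := i.2
      rw [Md, Fin.val_rev, Fin.ext_iff]
      omega
    have s0 := mul_ne_zero two (w0 0)
    obtain ⟨P, P', a1, a2, a3⟩ := wt_gen h ho hs ha lo (φ := RingHom.id K) s0 (Or.inl two) fx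
      (fun _ => ev K j) (fun _ => ⟨fun i => by
        by_cases c : Md k i
        · rw [tm_md c, (md i).1 c, ← jr]
          rfl
        · rw [tm_nd c]
          rfl, fun i c => Pi.single_eq_of_ne (mt (md i).2 c) _⟩)
      (fun x hx => ⟨fun _ => x j, by
        funext i
        by_cases c : i = j
        · simp [c]
        · simp [Pi.single_eq_of_ne c, hx.2 i (mt (md i).1 c)]⟩)
      (fun c => by
        rw [Fin.sum_univ_one, Fin.sum_univ_one, Q.map_smul, qf_smul,
          qf_mid jr fun l c => by simp [c]]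
        simp only [Algebra.algebraMap_self, RingHom.id_apply, Pi.single_eq_same, smul_eq_mul]
        field_simp)
      fun i c => Submodule.subset_span ⟨0, by rw [(md i).1 c]⟩
    exact ⟨k, K, _, inferInstance, _, P, P', _, _, Or.inl two, s0, lo, by omega, a1, a2, a3, fx,
      h.sing⟩
  · have s0 := w0 0
    have qq : ∀ c : Fin 2 → K, Q (∑ j, c j • w j) = c 0 * c 0 * Q (w 0) + c 1 * c 1 * Q (w 1) +
        c 0 * (c 1 * polar Q (w 0) (w 1)) := fun c => by
      rw [Fin.sum_univ_two, QuadraticMap.map_add Q, Q.map_smul, Q.map_smul, polar_smul_left, polar_smul_right]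
      rfl
    obtain ⟨F, _, _, _, φ, t, t1, t2, t3, t4, fx⟩ := wt_ext (a := -Q (w 1) / Q (w 0))
      (b := polar Q (w 0) (w 1) / Q (w 0)) (fun r c => by
        have := ha ![-r, 1] (by
          rw [qq]
          field_simp at c
          simp only [Matrix.cons_val_zero, Matrix.cons_val_one]
          linear_combination c)
        simpa using congrFun this 1) fun c b0 => rd 0 fun l => by
      fin_cases l
      · show polar Q (w 0) (w 0) = 0
        rw [polar_self, two_smul, ← two_mul, c, zero_mul]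
      · show polar Q (w 1) (w 0) = 0
        rw [polar_comm]
        exact (div_eq_zero_iff.1 b0).resolve_right s0
    have fa : ∀ x, φ (algebraMap K F x) = algebraMap K F x := fun x => (fx _).2 ⟨x, rfl⟩
    have tt : φ (φ t) = t := by
      have := congrArg φ t1
      rw [map_add, fa, ← t1] at this
      linear_combination this
    obtain ⟨j, hj⟩ : ∃ j : Fin m, (j : ℕ) = k := ⟨⟨k, by omega⟩, rfl⟩
    have jr : j ≠ j.rev := Fin.ne_of_val_ne (by rw [Fin.val_rev]; omega)
    have md : ∀ i : Fin m, Md k i ↔ i = j ∨ i = j.rev := fun i => by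
      have := i.2
      rw [Md, Fin.ext_iff, Fin.ext_iff, Fin.val_rev, Fin.val_rev]
      omega
    have mv : ∀ z : F, φ (φ z) = z → Mv φ k (z • ev F j + φ z • ev F j.rev) := fun z hz =>
      ⟨fun i => by
        by_cases c : Md k i
        · rw [tm_md c]
          rcases (md i).1 c with c | c <;> simp [c, jr, jr.symm, hz]
        · obtain ⟨c1, c2⟩ := not_or.1 (mt (md i).2 c)
          simp [tm_nd c, c1, c2], fun i c => by
        obtain ⟨c1, c2⟩ := not_or.1 (mt (md i).2 c)
        simp [c1, c2]⟩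
    have par : Par F m := Or.inr ⟨k + 1, by omega⟩
    have sm : ∀ c : Fin 2 → K, ∑ l, c l • ![(1 : F) • ev F j + φ 1 • ev F j.rev,
        t • ev F j + φ t • ev F j.rev] l = (algebraMap K F (c 0) + algebraMap K F (c 1) * t) • ev F j +
          (algebraMap K F (c 0) + algebraMap K F (c 1) * φ t) • ev F j.rev := fun c => by
      rw [Fin.sum_univ_two, ← algebraMap_smul F (c 0), ← algebraMap_smul F (c 1), map_one]
      simp only [Matrix.cons_val_zero, Matrix.cons_val_one]
      module
    have tn := sub_ne_zero.2 t3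
    obtain ⟨P, P', a1, a2, a3⟩ := wt_gen h ho hs ha lo (φ := φ) s0 par fx
      ![(1 : F) • ev F j + φ 1 • ev F j.rev, t • ev F j + φ t • ev F j.rev]
      (fun l => by
        fin_cases l
        · exact mv 1 (by rw [map_one, map_one])
        · exact mv t tt)
      (fun x hx => by
        obtain ⟨p, q, e⟩ := t4 (x j)
        have e' := hx.1 j.rev
        rw [tm_md ((md _).2 (Or.inr rfl)), Fin.rev_rev, e, map_add, map_mul, fa, fa] at e'
        refine ⟨![p, q], ?_⟩
        rw [sm]
        funext i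
        by_cases c : Md k i
        · rcases (md i).1 c with c | c <;> simp [c, jr, jr.symm, e, ← e']
        · obtain ⟨c1, c2⟩ := not_or.1 (mt (md i).2 c)
          simp [c1, c2, hx.2 i c])
      (fun c => by
        have s1 : algebraMap K F (Q (w 0)) ≠ 0 := (map_ne_zero _).2 s0
        rw [map_div₀, eq_div_iff s1] at t1
        rw [map_div₀, map_neg, neg_div, neg_neg, eq_div_iff s1] at t2
        rw [sm, qq, qf_pair jr fun l c1 c2 => by simp [c1, c2]]
        simp only [map_add, map_mul, Pi.add_apply, Pi.smul_apply, Pi.single_eq_same,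
          Pi.single_eq_of_ne jr, Pi.single_eq_of_ne jr.symm, smul_eq_mul, ← t1, ← t2]
        ring)
      fun i c => by
        rw [Submodule.mem_span_range_iff_exists_fun]
        rcases (md i).1 c with c | c
        · refine ⟨![(φ t - t)⁻¹ * φ t, -(φ t - t)⁻¹], ?_⟩
          rw [Fin.sum_univ_two, c, map_one]
          simp only [Matrix.cons_val_zero, Matrix.cons_val_one]
          match_scalars <;> field_simp <;> ring
        · refine ⟨![-((φ t - t)⁻¹ * t), (φ t - t)⁻¹], ?_⟩
          rw [Fin.sum_univ_two, c, map_one]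
          simp only [Matrix.cons_val_zero, Matrix.cons_val_one]
          match_scalars <;> field_simp <;> ring
    exact ⟨k, F, _, inferInstance, _, P, P', φ, _, par, s0, lo, by omega, a1, a2, a3, fx, h.sing⟩

end Pool.Agent.Lib.MP_1ae3da_al.JP
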