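import Pool.Agent.Lib.MP_1ae3da_al.P.Df

/-! The vector representation of the spin group, and the Eichler elements. -/

namespace Pool.Agent.Lib.MP_1ae3da_al.JP

open CliffordAlgebra QuadraticMap Matrix SLI

variable {K : Type} [Field K] {m : ℕ} {Q : QuadraticForm K (Fin m → K)}

/-- the form is not degenerate. -/
def Nd (Q : QuadraticForm K (Fin m → K)) : Prop := ∀ v, (∀ w, polar Q v w = 0) → v = 0

lemma c1_alg : Function.Injective (algebraMap K (CliffordAlgebra Q)) := fun a b e => by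
  have h : (-(Q.toBilin (Pi.basisFun K (Fin m)))).toQuadraticMap = 0 - Q := by
    rw [zero_sub]
    ext v
    rw [LinearMap.BilinMap.toQuadraticMap_apply, LinearMap.neg_apply, LinearMap.neg_apply,
      ← LinearMap.BilinMap.toQuadraticMap_apply, toQuadraticMap_toBilin]
    rfl
  have := congrArg (changeForm h) e
  rw [changeForm_algebraMap, changeForm_algebraMap] at this
  exact (ExteriorAlgebra.algebraMap_inj (Fin m → K) a b).1 this

lemma c1_inj (nd : Nd Q) : Function.Injective (ι Q) :=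
  (injective_iff_map_eq_zero _).2 fun v hv => nd v fun w => c1_alg (Q := Q) (by
    rw [← ι_mul_ι_add_swap, hv, zero_mul, mul_zero, add_zero, map_zero])

lemma c1_sw (v w : Fin m → K) : ι Q v * ι Q w = polar Q v w • 1 - ι Q w * ι Q v := by
  rw [ι_mul_ι_comm, Algebra.algebraMap_eq_smul_one]

lemma c1_sq (v : Fin m → K) : ι Q v * ι Q v = Q v • 1 := by
  rw [ι_sq_scalar, Algebra.algebraMap_eq_smul_one]

lemma c1_dot (v a : Fin m → K) (c : K) :
    v ⬝ᵥ (fun i => -(polar Q (Pi.single i 1) a / c)) = -(polar Q v a / c) := by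
  have : polar Q v a = ∑ i, v i * polar Q (Pi.single i 1) a := by
    conv_lhs => rw [pi_eq_sum_univ' v]
    change Q.polarBilin _ a = _
    rw [map_sum, LinearMap.sum_apply]
    exact Finset.sum_congr rfl fun i _ => polar_smul_left Q _ _ _
  rw [this, dotProduct, Finset.sum_div, ← Finset.sum_neg_distrib]
  exact Finset.sum_congr rfl fun i _ => by ring

/-- the matrix of a reflection. -/
def rf (Q : QuadraticForm K (Fin m → K)) (a : Fin m → K) : Matrix (Fin m) (Fin m) K :=
  1 + vecMulVec (fun i => -(polar Q (Pi.single i 1) a / Q a)) a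

lemma rf_vec (a v : Fin m → K) : v ᵥ* rf Q a = v - (polar Q v a / Q a) • a := by
  rw [rf, vecMul_add, vecMul_one, vecMul_vecMulVec, c1_dot, neg_smul, sub_eq_add_neg]

lemma rf_det {a : Fin m → K} (ha : Q a ≠ 0) : (rf Q a).det = -1 := by
  rw [rf, vecMulVec_eq Unit, det_one_add_replicateCol_mul_replicateRow, c1_dot, polar_self,
    two_smul]
  field_simp
  ring

lemma rf_act {a : Fin m → K} (ha : Q a ≠ 0) (v : Fin m → K) :
    ι Q v * ι Q a = -ι Q a * ι Q (v ᵥ* rf Q a) := by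
  rw [rf_vec, map_sub, map_smul, neg_mul, mul_sub, mul_smul_comm, c1_sq, smul_smul,
    div_mul_cancel₀ _ ha, neg_sub, c1_sw]

/-- the twisted action on the vectors. -/
def Tw (Q : QuadraticForm K (Fin m → K)) (x : CliffordAlgebra Q) : Prop :=
  ∃ l : List (Fin m → K), (∀ a ∈ l, Q a ≠ 0) ∧ x ∈ evenOdd Q l.length ∧
    ∀ v, ι Q v * x = involute x * ι Q (v ᵥ* (l.map (rf Q)).prod)

lemma tw_ι {a : Fin m → K} (ha : Q a ≠ 0) : Tw Q (ι Q a) :=
  ⟨[a], by simpa using ha, by simpa using ι_mem_evenOdd_one Q a, fun v => by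
    rw [involute_ι, rf_act ha, List.map_singleton, List.prod_singleton]⟩

lemma lip_tw {x : (CliffordAlgebra Q)ˣ} (hx : x ∈ lipschitzGroup Q) : Tw Q x := by
  have k : ∀ (x : (CliffordAlgebra Q)ˣ) a, ι Q a = x → Q a ≠ 0 := fun x a e c => by
    have := x.isUnit.mul x.isUnit
    rw [← e, ι_sq_scalar, c, map_zero, isUnit_zero_iff] at this
    exact zero_ne_one (c1_alg (Q := Q) (by rw [map_zero, map_one, this]))
  unfold lipschitzGroup at hx
  induction hx using Subgroup.closure_induction'' with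
  | mem x hx =>
    obtain ⟨a, ha⟩ := hx
    exact ha ▸ tw_ι (k x a ha)
  | inv_mem x hx =>
    obtain ⟨a, ha⟩ := hx
    have e : ι Q ((Q a)⁻¹ • a) = (x⁻¹ : (CliffordAlgebra Q)ˣ) :=
      (Units.inv_eq_of_mul_eq_one_right (by
        rw [← ha, map_smul, mul_smul_comm, c1_sq, inv_smul_smul₀ (k x a ha)])).symm
    exact e ▸ tw_ι (k _ _ e)
  | one => exact ⟨[], by simp, by simpa using SetLike.one_mem_graded (evenOdd Q), fun v => by simp⟩
  | mul x y _ _ hx hy =>
    obtain ⟨l, h0, h2, h1⟩ := hx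
    obtain ⟨l', k0, k2, k1⟩ := hy
    refine ⟨l ++ l', fun a ha => (List.mem_append.1 ha).elim (h0 a) (k0 a), ?_, fun v => by
      rw [Units.val_mul, ← mul_assoc, h1, mul_assoc, k1, map_mul, mul_assoc, vecMul_vecMul,
        List.map_append, List.prod_append]⟩
    rw [List.length_append, Nat.cast_add]
    exact SetLike.mul_mem_graded h2 k2

lemma spin_ev (x : spinGroup Q) : involute (x : CliffordAlgebra Q) = x :=
  involute_eq_of_mem_even (spinGroup.mem_even x.2)

lemma spin_l (x : spinGroup Q) : star (x : CliffordAlgebra Q) * x = 1 :=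
  spinGroup.star_mul_self_of_mem x.2

lemma spin_r (x : spinGroup Q) : (x : CliffordAlgebra Q) * star (x : CliffordAlgebra Q) = 1 :=
  spinGroup.mul_star_self_of_mem x.2

lemma spin_inv (x : spinGroup Q) :
    ((x⁻¹ : spinGroup Q) : CliffordAlgebra Q) = star (x : CliffordAlgebra Q) := rfl

lemma spin_list (x : spinGroup Q) : ∃ l : List (Fin m → K), (∀ a ∈ l, Q a ≠ 0) ∧ Even l.length ∧
    ∀ v, ι Q v * x = x * ι Q (v ᵥ* (l.map (rf Q)).prod) := by
  obtain ⟨y, hy, e⟩ := x.2.1.1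
  obtain ⟨l, h0, h3, h1⟩ := lip_tw (Q := Q) hy
  have e' : (y : CliffordAlgebra Q) = x := e
  rw [e'] at h3
  rw [e', spin_ev] at h1
  refine ⟨l, h0, (Nat.even_or_odd _).resolve_right fun c => ?_, h1⟩
  rw [(ZMod.natCast_eq_one_iff_odd).2 c] at h3
  have h4 := (Submodule.disjoint_def.1 (evenOdd_isCompl Q).disjoint) _ (spinGroup.mem_even x.2) h3
  have := spin_l x
  rw [h4, mul_zero] at this
  exact zero_ne_one (c1_alg (Q := Q) (by rw [map_zero, map_one, this]))

lemma rf_list (l : List (Fin m → K)) (h : ∀ a ∈ l, Q a ≠ 0) :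
    (l.map (rf Q)).prod.det = (-1) ^ l.length := by
  induction l with
  | nil => simp
  | cons a l ih =>
    rw [List.map_cons, List.prod_cons, det_mul, rf_det (h a (by simp)),
      ih fun b hb => h b (by simp [hb]), List.length_cons, pow_succ']

lemma ex_M (x : spinGroup Q) : ∃ M : SLm m K, ∀ v, ι Q v * x = x * ι Q (v ᵥ* M.1) := by
  obtain ⟨l, h0, h1, h2⟩ := spin_list x
  exact ⟨⟨_, (rf_list l h0).trans h1.neg_one_pow⟩, h2⟩

lemma ac_cj {x : spinGroup Q} {v w : Fin m → K} (h : ι Q v * x = x * ι Q w) :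
    star (x : CliffordAlgebra Q) * ι Q v * x = ι Q w := by
  rw [mul_assoc, h, ← mul_assoc, spin_l, one_mul]

theorem ex_rho (nd : Nd Q) :
    ∃ ρ : spinGroup Q →* SLm m K, ∀ x v, ι Q v * x = x * ι Q (v ᵥ* (ρ x).1) := by
  choose M hM using ex_M (Q := Q)
  refine ⟨MonoidHom.mk' M fun x y => Subtype.ext (Matrix.ext fun i j => ?_), hM⟩
  have e : ι Q (ev K i) * ↑(x * y) = ↑(x * y) * ι Q (ev K i ᵥ* ((M x).1 * (M y).1)) := by
    rw [Submonoid.coe_mul, ← mul_assoc, hM, mul_assoc, hM, mul_assoc, vecMul_vecMul]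
  have := c1_inj nd ((ac_cj (hM (x * y) (ev K i))).symm.trans (ac_cj e))
  rw [ev_vecMul, ev_vecMul] at this
  exact congrFun this j

lemma ac_iso {x : spinGroup Q} {v w : Fin m → K}
    (h : ι Q v * x = x * ι Q w) : Q w = Q v := c1_alg (Q := Q) (by
  rw [← ι_sq_scalar, ← ac_cj h, mul_assoc, ← mul_assoc (x : CliffordAlgebra Q),
    ← mul_assoc (x : CliffordAlgebra Q), spin_r, one_mul, mul_assoc, ← mul_assoc (ι Q v),
    ι_sq_scalar, Algebra.commutes, ← mul_assoc, spin_l, one_mul])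

/-- the Eichler elements. -/
def El (Q : QuadraticForm K (Fin m → K)) (s : K) (e f : Fin m → K) : CliffordAlgebra Q :=
  1 + s • (ι Q f * ι Q e)

variable {e f f' : Fin m → K} {s : K}

lemma El_add (he : Q e = 0) (h : polar Q e f' = 0) : El Q s e (f + f') = El Q s e f * El Q s e f' := by
  have : ι Q f * ι Q e * (ι Q f' * ι Q e) = 0 := by
    rw [mul_assoc, ← mul_assoc (ι Q e), c1_sw e, h, zero_smul, zero_sub, neg_mul, mul_assoc, c1_sq,
      he, zero_smul, mul_zero, neg_zero, mul_zero]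
  simp only [El, map_add, add_mul, mul_add, one_mul, mul_one, smul_mul_assoc, mul_smul_comm, this,
    smul_zero, smul_add]
  abel

lemma El_zero : El Q s e 0 = 1 := by simp [El]

lemma El_sc (c : K) : El Q s (c • e) f = El Q s e (c • f) := by
  simp only [El, map_smul, smul_mul_assoc, mul_smul_comm]

lemma El_sw (h : polar Q e f = 0) : El Q s e f = El Q s f (-e) := by
  rw [El, El, map_neg, neg_mul, c1_sw e, h, zero_smul, zero_sub, neg_neg]

lemma El_star (h : polar Q e f = 0) : star (El Q s e f) = El Q s e (-f) := by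
  rw [El, El, star_add, star_one, CliffordAlgebra.star_smul, star_mul, star_ι, star_ι, neg_mul_neg,
    c1_sw e, h, zero_smul, zero_sub, map_neg, neg_mul]

lemma El_cj {x y : CliffordAlgebra Q} (h : y * x = 1) (h' : x * y = 1) {e' f' : Fin m → K}
    (he : y * ι Q e * x = ι Q e') (hf : y * ι Q f * x = ι Q f') :
    y * El Q s e f * x = El Q s e' f' := by
  rw [El, El, ← he, ← hf, mul_add, add_mul, mul_one, h, mul_smul_comm, smul_mul_assoc,
    mul_assoc _ x, ← mul_assoc x, ← mul_assoc x, h', one_mul]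
  simp only [mul_assoc]

lemma El_act (he : Q e = 0) (h : polar Q e f = 0) (v : Fin m → K) :
    ι Q v * El Q s e f = El Q s e f * ι Q (v + (s * polar Q v f) • e - (s * polar Q v e) • f -
      (s * (s * polar Q v e) * Q f) • e) := by
  have h1 : ι Q v * (ι Q f * ι Q e) =
      polar Q v f • ι Q e - polar Q v e • ι Q f + ι Q f * ι Q e * ι Q v := by
    rw [← mul_assoc, c1_sw v f, sub_mul, mul_assoc, c1_sw v e, mul_sub]
    simp only [smul_mul_assoc, mul_smul_comm, one_mul, mul_one, mul_assoc]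
    abel
  have h3 : ι Q f * ι Q e * ι Q e = 0 := by rw [mul_assoc, c1_sq, he, zero_smul, mul_zero]
  have h4 : ι Q f * ι Q e * ι Q f = -(Q f • ι Q e) := by
    rw [mul_assoc, c1_sw e, h, zero_smul, zero_sub, mul_neg, ← mul_assoc, c1_sq, smul_mul_assoc,
      one_mul]
  simp only [El, map_add, map_sub, map_smul, add_mul, mul_add, mul_sub, one_mul, mul_one,
    smul_mul_assoc, mul_smul_comm, h1, h3, h4]
  module

/-- the Lipschitz group inside the algebra. -/
abbrev LL (Q : QuadraticForm K (Fin m → K)) : Submonoid (CliffordAlgebra Q) :=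
  (lipschitzGroup Q).toSubmonoid.map (Units.coeHom (CliffordAlgebra Q))

lemma ι_LL {a : Fin m → K} (ha : Q a ≠ 0) : ι Q a ∈ LL Q :=
  ⟨(isUnit_ι_of_isUnit Q ha.isUnit).unit, Subgroup.subset_closure ⟨a, rfl⟩, rfl⟩

lemma El_LL (he : Q e = 0) (h : polar Q e f = 0) (hf : Q f ≠ 0) :
    El Q s e f ∈ LL Q := by
  have e1 : El Q s e f = ι Q ((Q f)⁻¹ • f) * ι Q (f + (s * Q f) • e) := by
    rw [El, map_smul, map_add, map_smul, smul_mul_assoc, mul_add, c1_sq, mul_smul_comm, smul_add,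
      inv_smul_smul₀ hf, smul_smul, mul_left_comm, inv_mul_cancel₀ hf, mul_one]
  rw [e1]
  refine mul_mem (ι_LL ?_) (ι_LL ?_)
  · rw [QuadraticMap.map_smul]
    exact smul_ne_zero (mul_ne_zero (inv_ne_zero hf) (inv_ne_zero hf)) hf
  · rwa [QuadraticMap.map_add Q, QuadraticMap.map_smul, he, smul_zero, add_zero, polar_smul_right,
      polar_comm, h, smul_zero, add_zero]

theorem El_mem (h3 : ∃ t : K, t ≠ 0 ∧ t ≠ 1) (he : Q e = 0) (h : polar Q e f = 0) {w : Fin m → K}
    (hw : polar Q e w = 0) (h0 : Q w ≠ 0) : El Q s e f ∈ spinGroup Q := by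
  have hn : polar Q e (-f) = 0 := by rw [polar_neg_right, h, neg_zero]
  refine ⟨⟨?_, ?_, ?_⟩, ?_⟩
  · have k : ∀ w, polar Q e w = 0 → Q w ≠ 0 → Q (f - w) ≠ 0 → El Q s e f ∈ LL Q :=
      fun w hw h0 h1 => by
        rw [← sub_add_cancel f w, El_add he hw]
        exact mul_mem (El_LL he (by rw [polar_sub_right, h, hw, sub_zero]) h1) (El_LL he hw h0)
    by_cases hf : Q f = 0
    · by_cases h1 : Q (f - w) = 0
      · obtain ⟨t, t0, t1⟩ := h3
        refine k (t • w) (by rw [polar_smul_right, hw, smul_zero]) (by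
          rw [QuadraticMap.map_smul]
          exact smul_ne_zero (mul_ne_zero t0 t0) h0) ?_
        rw [sub_eq_add_neg, QuadraticMap.map_add Q, QuadraticMap.map_neg, polar_neg_right] at h1 ⊢
        rw [QuadraticMap.map_smul, polar_smul_right, smul_eq_mul, smul_eq_mul]
        intro c
        exact mul_ne_zero (mul_ne_zero t0 (sub_ne_zero.2 t1)) h0
          (by linear_combination c - t * h1 + (t - 1) * hf)
      · exact k w hw h0 h1
    · exact El_LL he h hf
  · rw [El_star h, ← El_add he h, neg_add_cancel, El_zero]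
  · rw [El_star h, ← El_add he hn, add_neg_cancel, El_zero]
  · exact (even Q).add_mem (even Q).one_mem
      ((even Q).smul_mem (ι_mul_ι_mem_evenOdd_zero Q f e) _)

/-- conjugation by a vector. -/
def cw (Q : QuadraticForm K (Fin m → K)) (w : Fin m → K) (x : CliffordAlgebra Q) :
    CliffordAlgebra Q := ι Q ((Q w)⁻¹ • w) * x * ι Q w

lemma cw_l {w : Fin m → K} (hw : Q w ≠ 0) : ι Q ((Q w)⁻¹ • w) * ι Q w = 1 := by
  rw [map_smul, smul_mul_assoc, c1_sq, inv_smul_smul₀ hw]

lemma cw_r {w : Fin m → K} (hw : Q w ≠ 0) : ι Q w * ι Q ((Q w)⁻¹ • w) = 1 := by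
  rw [map_smul, mul_smul_comm, c1_sq, inv_smul_smul₀ hw]

lemma cw_mul {w : Fin m → K} (hw : Q w ≠ 0) (x y : CliffordAlgebra Q) :
    cw Q w (x * y) = cw Q w x * cw Q w y := by
  rw [cw, cw, cw, mul_assoc _ (ι Q w), ← mul_assoc (ι Q w), ← mul_assoc (ι Q w), cw_r hw, one_mul]
  simp only [mul_assoc]

lemma cw_cw {w : Fin m → K} (hw : Q w ≠ 0) (x : CliffordAlgebra Q) : cw Q w (cw Q w x) = x := by
  rw [cw, cw, mul_assoc, mul_assoc _ (ι Q w), c1_sq, ← mul_assoc, ← mul_assoc, mul_smul_comm,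
    mul_one, map_smul, smul_mul_assoc, mul_smul_comm, c1_sq, inv_smul_smul₀ hw, smul_mul_assoc,
    one_mul, smul_inv_smul₀ hw]

lemma cw_ι {w : Fin m → K} (hw : Q w ≠ 0) (v : Fin m → K) :
    cw Q w (ι Q v) = ι Q (-(v ᵥ* rf Q w)) := by
  rw [cw, mul_assoc, rf_act hw, neg_mul, mul_neg, ← mul_assoc, cw_l hw, one_mul, map_neg]

lemma cw_star {w : Fin m → K} (x : CliffordAlgebra Q) : star (cw Q w x) = cw Q w (star x) := by
  simp only [cw, star_mul, star_ι, map_smul, CliffordAlgebra.star_smul, smul_mul_assoc,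
    neg_mul, mul_neg, neg_neg, mul_assoc]

lemma cw_one {w : Fin m → K} (hw : Q w ≠ 0) : cw Q w 1 = 1 := by rw [cw, mul_one, cw_l hw]

lemma cw_mem {w : Fin m → K} (hw : Q w ≠ 0) {x : CliffordAlgebra Q} (hx : x ∈ spinGroup Q) :
    cw Q w x ∈ spinGroup Q := by
  refine ⟨⟨mul_mem (mul_mem (ι_LL ?_) hx.1.1) (ι_LL hw), ?_, ?_⟩, ?_⟩
  · rw [QuadraticMap.map_smul]
    exact smul_ne_zero (mul_ne_zero (inv_ne_zero hw) (inv_ne_zero hw)) hw
  · rw [cw_star, ← cw_mul hw, spinGroup.star_mul_self_of_mem hx, cw_one hw]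
  · rw [cw_star, ← cw_mul hw, spinGroup.mul_star_self_of_mem hx, cw_one hw]
  · have h1 : x ∈ evenOdd Q 0 := spinGroup.mem_even hx
    have h2 := SetLike.mul_mem_graded (A := evenOdd Q) (SetLike.mul_mem_graded (A := evenOdd Q)
      (ι_mem_evenOdd_one Q ((Q w)⁻¹ • w)) h1) (ι_mem_evenOdd_one Q w)
    rw [show (1 + 0 + 1 : ZMod 2) = 0 from rfl] at h2
    exact h2

theorem ex_gr {w : Fin m → K} (hw : Q w ≠ 0) :
    ∃ g : MulAut (spinGroup Q), ∀ x, (g x : CliffordAlgebra Q) = cw Q w x :=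
  ⟨{ toFun := fun x => ⟨_, cw_mem hw x.2⟩
     invFun := fun x => ⟨_, cw_mem hw x.2⟩
     left_inv := fun x => Subtype.ext (cw_cw hw x.1)
     right_inv := fun x => Subtype.ext (cw_cw hw x.1)
     map_mul' := fun x y => Subtype.ext (cw_mul hw x.1 y.1) }, fun _ => rfl⟩

end Pool.Agent.Lib.MP_1ae3da_al.JP
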