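import Pool.Agent.Lib.MP_1ae3da_al.Z.Cl4

/-! Covers of the split orthogonal groups: definitions. -/

namespace Pool.Agent.Lib.MP_1ae3da_al.JP

open SLI Matrix

variable {F : Type} [Field F] {m : ℕ}

/-- the split symmetric bilinear form. -/
def bt (v w : Fin m → F) : F := ∑ i, v i * w i.rev

/-- the split quadratic form. -/
def qf (v : Fin m → F) : F :=
  ∑ i : Fin m, if i < i.rev then v i * v i.rev else if i = i.rev then 2⁻¹ * (v i * v i) else 0

/-- the characteristic is odd or the dimension is even. -/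
def Par (F : Type) [Field F] (m : ℕ) : Prop := (2 : F) ≠ 0 ∨ Even m

/-- the basis vectors. -/
abbrev ev (F : Type) [Field F] (a : Fin m) : Fin m → F := Pi.single a 1

/-- the special orthogonal group. -/
abbrev SOm (m : ℕ) (F : Type) [Field F] : Subgroup (SLm m F) :=
  Iso (RingHom.id F) (JJ fun _ => 1)

/-- the isometries of the quadratic form. -/
def OQ (m : ℕ) (F : Type) [Field F] : Subgroup (SLm m F) where
  carrier := {g | g ∈ SOm m F ∧ ∀ v, qf (v ᵥ* g.1) = qf v}
  one_mem' := ⟨one_mem _, fun v => congrArg qf (vecMul_one v)⟩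
  mul_mem' := fun {a b} ha hb => ⟨mul_mem ha.1 hb.1, fun v => by
    rw [← ha.2 v, ← hb.2 (v ᵥ* a.1), vecMul_vecMul]
    rfl⟩
  inv_mem' := fun {a} ha => ⟨inv_mem ha.1, fun v => by
    have e : (a⁻¹).1 * a.1 = 1 := congrArg Subtype.val (inv_mul_cancel a)
    rw [← ha.2, vecMul_vecMul, e, vecMul_one]⟩

/-- the middle indices. -/
def Md (k : ℕ) (i : Fin m) : Prop := k ≤ (i : ℕ) ∧ k ≤ (i.rev : ℕ)

instance (k : ℕ) (i : Fin m) : Decidable (Md k i) := inferInstanceAs (Decidable (_ ∧ _))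

lemma md_rev {k : ℕ} {i : Fin m} : Md k i.rev ↔ Md k i := by
  rw [Md, Md, Fin.rev_rev, and_comm]

/-- the reversal of the middle indices. -/
def tm (k : ℕ) : Equiv.Perm (Fin m) :=
  Function.Involutive.toPerm (fun i => if Md k i then i.rev else i) fun i => by
    by_cases h : Md k i
    · simp only [if_pos h, if_pos (md_rev.2 h), Fin.rev_rev]
    · simp only [if_neg h]

lemma tm_md {k : ℕ} {i : Fin m} (h : Md k i) : tm k i = i.rev := if_pos h

lemma tm_nd {k : ℕ} {i : Fin m} (h : ¬ Md k i) : tm k i = i := if_neg h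

/-- the rational vectors. -/
def Rt (φ : F →+* F) (k : ℕ) (v : Fin m → F) : Prop := ∀ i, φ (v (tm k i)) = v i

/-- the rational matrices. -/
def Rm (φ : F →+* F) (k : ℕ) (g : SLm m F) : Prop :=
  ∀ i j, φ (g.1 (tm k i) (tm k j)) = g.1 i j

/-- the rational vectors in the middle. -/
def Mv (φ : F →+* F) (k : ℕ) (f : Fin m → F) : Prop := Rt φ k f ∧ ∀ i, ¬ Md k i → f i = 0

/-- the pairs of indices that give a long root. -/
structure Pr (k : ℕ) (a b : Fin m) : Prop where
  l : ¬ Md k a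
  r : ¬ Md k b
  ne : a ≠ b
  nr : a ≠ b.rev

/-- a central extension of a group of rotations, with lifts of the Eichler transformations. -/
structure Spn {X : Type} [Group X] (φ : F →+* F) (k : ℕ) (π : X →* SLm m F)
    (E : (Fin m → F) → (Fin m → F) → X) : Prop where
  par : Par F m
  lo : 2 * k ≤ m
  hi : m ≤ 2 * k + 2
  k2 : 2 ≤ k
  oq : ∀ x, π x ∈ OQ m F
  sgn : Even m → ∀ x σ, IsMon (π x).1 σ → Equiv.Perm.sign σ = 1
  rat : ∀ x, Rm φ k (π x)
  ker : ∀ z, π z = 1 → (∀ x, z * x = x * z) ∧ z * z = 1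
  inj : (2 : F) = 0 → ∀ z, π z = 1 → z = 1
  ab : ∀ s t, IsMon (π s).1 1 → IsMon (π t).1 1 → s * t = t * s
  cj : ∀ g e f, Rt φ k e → Rt φ k f → g⁻¹ * E e f * g = E (e ᵥ* (π g).1) (f ᵥ* (π g).1)
  sc : ∀ c : F, φ c = c → ∀ e f, Rt φ k e → Rt φ k f → E (c • e) f = E e (c • f)
  sw : ∀ e f, Rt φ k e → Rt φ k f → bt e f = 0 → E e f = E f (-e)
  add : ∀ a : Fin m, ¬ Md k a → ∀ f f' : Fin m → F, Rt φ k f → Rt φ k f' → f a.rev = 0 →
    f' a.rev = 0 → E (ev F a) (f + f') = E (ev F a) f * E (ev F a) f'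
  act : ∀ a : Fin m, ¬ Md k a → ∀ f : Fin m → F, Rt φ k f → f a.rev = 0 → ∀ v : Fin m → F,
    v ᵥ* (π (E (ev F a) f)).1 = v + bt v f • ev F a - v a.rev • f - (v a.rev * qf f) • ev F a
  gr : ∀ a : Fin m, ¬ Md k a → ∃ g : MulAut X, (∀ x, g (g x) = x) ∧
    (∀ x i j, (π (g x)).1 i j = (π x).1 (Equiv.swap a a.rev i) (Equiv.swap a a.rev j)) ∧
    ∀ e f, Rt φ k e → Rt φ k f →
      g (E e f) = E (e ∘ Equiv.swap a a.rev) (f ∘ Equiv.swap a a.rev)

section grp
variable {X : Type} [Group X]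

/-- the monomial elements. -/
abbrev NN (π : X →* SLm m F) : Subgroup X := (MonS m F).comap π

/-- `U` is the Sylow subgroup over the unitriangular matrices. -/
def SU {r : ℕ} (π : X →* SLm m F) (U : Sylow r X) : Prop :=
  ∀ x, x ∈ U ↔ π x ∈ US m F ∧ ∃ j, x ^ r ^ j = 1

/-- the lift of the reflection in a long root. -/
def Wl (E : (Fin m → F) → (Fin m → F) → X) (a b : Fin m) (c : F) : X :=
  E (ev F a.rev) (c • ev F b) * E (ev F b.rev) ((-c⁻¹) • ev F a) * E (ev F a.rev) (c • ev F b)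

/-- the lift of the reflection in a short root. -/
def Ws (E : (Fin m → F) → (Fin m → F) → X) (a : Fin m) (f : Fin m → F) : X :=
  E (ev F a.rev) f * E (ev F a) ((qf f)⁻¹ • f) * E (ev F a.rev) f

end grp

/-- the permutation of a long reflection. -/
def sw2 (a b : Fin m) : Equiv.Perm (Fin m) := Equiv.swap a b * Equiv.swap a.rev b.rev

/-- the permutation of a short reflection. -/
def sw0 (k : ℕ) (a : Fin m) : Equiv.Perm (Fin m) := Equiv.swap a a.rev * tm k

/-- the Weyl group. -/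
def WW (m k : ℕ) : Subgroup (Equiv.Perm (Fin m)) where
  carrier := {σ | (∀ i, σ i.rev = (σ i).rev) ∧ (∀ i, Md k (σ i) ↔ Md k i) ∧
    (Even m → Equiv.Perm.sign σ = 1)}
  one_mem' := ⟨fun _ => rfl, fun _ => Iff.rfl, fun _ => map_one _⟩
  mul_mem' := fun {a b} ha hb => ⟨fun i => by
    rw [Equiv.Perm.mul_apply, Equiv.Perm.mul_apply, hb.1, ha.1],
    fun i => (ha.2.1 _).trans (hb.2.1 i), fun h => by rw [map_mul, ha.2.2 h, hb.2.2 h, mul_one]⟩
  inv_mem' := fun {a} ha => ⟨fun i => a.injective (by rw [ha.1]; simp),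
    fun i => by rw [← ha.2.1]; simp, fun h => by rw [map_inv, ha.2.2 h, inv_one]⟩

/-- the vector with ones in the middle. -/
def f0 (F : Type) [Field F] (k : ℕ) : Fin m → F := fun i => if Md k i then 1 else 0

namespace Spn
variable {X : Type} [Group X] {φ : F →+* F} {k : ℕ} {π : X →* SLm m F}
  {E : (Fin m → F) → (Fin m → F) → X}

lemma iso (h : Spn φ k π E) (x : X) : π x ∈ SOm m F := (h.oq x).1

/-- the indices of the first half, counted from the middle. -/
def ix (h : Spn φ k π E) (j : ℕ) : Fin m := ⟨k - 1 - j, by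
  have := h.lo
  have := h.k2
  omega⟩

/-- the generators in type `B`. -/
def nB (h : Spn φ k π E) (i : ℕ) : X :=
  if i = 0 then Ws E (h.ix 0) (f0 F k) else Wl E (h.ix i) (h.ix (i - 1)) 1

/-- the generators in type `D`. -/
def nD (h : Spn φ k π E) (i : ℕ) : X :=
  if i = 0 then Wl E (h.ix 1) (h.ix 0).rev 1 else Wl E (h.ix i) (h.ix (i - 1)) 1

end Spn

lemma bt_comm (v w : Fin m → F) : bt v w = bt w v := by
  rw [bt, bt, ← Equiv.sum_comp Fin.revPerm]
  simp [mul_comm]

lemma bt_ev_l (a : Fin m) (w : Fin m → F) : bt (ev F a) w = w a.rev := by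
  simp [bt, Pi.single_apply]

lemma bt_ev_r (a : Fin m) (w : Fin m → F) : bt w (ev F a) = w a.rev := by
  rw [bt_comm, bt_ev_l]

lemma bt_add_l (u v w : Fin m → F) : bt (u + v) w = bt u w + bt v w := by
  simp [bt, add_mul, Finset.sum_add_distrib]

lemma bt_add_r (u v w : Fin m → F) : bt w (u + v) = bt w u + bt w v := by
  simp [bt, mul_add, Finset.sum_add_distrib]

lemma bt_smul_l (c : F) (v w : Fin m → F) : bt (c • v) w = c * bt v w := by
  simp [bt, Finset.mul_sum, mul_assoc]

lemma bt_smul_r (c : F) (v w : Fin m → F) : bt v (c • w) = c * bt v w := by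
  simp [bt, Finset.mul_sum, mul_left_comm]

lemma bt_neg_l (v w : Fin m → F) : bt (-v) w = -bt v w := by
  simp [bt]

lemma bt_neg_r (v w : Fin m → F) : bt v (-w) = -bt v w := by
  simp [bt]

lemma bt_sub_l (u v w : Fin m → F) : bt (u - v) w = bt u w - bt v w := by
  rw [sub_eq_add_neg, bt_add_l, bt_neg_l, sub_eq_add_neg]

lemma bt_sub_r (u v w : Fin m → F) : bt w (u - v) = bt w u - bt w v := by
  rw [sub_eq_add_neg, bt_add_r, bt_neg_r, sub_eq_add_neg]

lemma bt_zero_r (v : Fin m → F) : bt v 0 = 0 := by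
  simp [bt]

lemma ev_vecMul (a : Fin m) (A : Matrix (Fin m) (Fin m) F) : ev F a ᵥ* A = A a := by
  ext j
  simp

lemma mem_SO {g : SLm m F} :
    g ∈ SOm m F ↔ ∀ i j, bt (g.1 i) (g.1 j) = if j = i.rev then 1 else 0 := by
  rw [mem_Iso, ← Matrix.ext_iff]
  refine forall₂_congr fun i j => ?_
  rw [mul_assoc, Matrix.mul_apply]
  simp only [JJ_l, one_mul]
  rfl

lemma so_bt {g : SLm m F} (hg : g ∈ SOm m F) (v w : Fin m → F) :
    bt (v ᵥ* g.1) (w ᵥ* g.1) = bt v w := by
  have e : ∀ v w : Fin m → F, bt v w = v ᵥ* (JJ fun _ => (1 : F)) ⬝ᵥ w := fun v w => by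
    rw [← dotProduct_mulVec, bt, dotProduct]
    refine Finset.sum_congr rfl fun i _ => ?_
    rw [mulVec, dotProduct, Finset.sum_eq_single i.rev (fun j _ hj => by
      rw [JJ_mon _ i j hj, zero_mul]) (by simp), JJ_rev, one_mul]
  have h : g.1 * (JJ fun _ => (1 : F)) * g.1ᵀ = JJ fun _ => (1 : F) := hg
  rw [e, e, vecMul_vecMul, ← mulVec_transpose g.1 w, dotProduct_mulVec, vecMul_vecMul, h]

lemma md_ne {k : ℕ} (h : 2 * k ≤ m) {a : Fin m} (ha : ¬ Md k a) : a ≠ a.rev := fun e => ha (by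
  have h1 := congrArg Fin.val e
  rw [Md, ← e, and_self]
  rw [Fin.val_rev] at h1
  omega)

variable {φ : F →+* F} {k : ℕ} {v w : Fin m → F}

lemma rt_zero : Rt φ k (0 : Fin m → F) := fun _ => map_zero φ

lemma Rt.add (h : Rt φ k v) (h' : Rt φ k w) : Rt φ k (v + w) := fun i => by
  rw [Pi.add_apply, map_add, h, h', Pi.add_apply]

lemma Rt.neg (h : Rt φ k v) : Rt φ k (-v) := fun i => by
  rw [Pi.neg_apply, map_neg, h, Pi.neg_apply]

lemma Rt.smul (h : Rt φ k v) {c : F} (hc : φ c = c) : Rt φ k (c • v) := fun i => by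
  rw [Pi.smul_apply, smul_eq_mul, map_mul, hc, h, Pi.smul_apply, smul_eq_mul]

lemma rt_ev {a : Fin m} (ha : ¬ Md k a) : Rt φ k (ev F a) := fun i => by
  by_cases e : i = a
  · rw [e, tm_nd ha]
    simp
  · have : tm k i ≠ a := fun c => e ((tm k).injective (c.trans (tm_nd ha).symm))
    simp [Pi.single_eq_of_ne e, Pi.single_eq_of_ne this]

lemma tm_rev (i : Fin m) : tm k i.rev = (tm k i).rev := by
  by_cases h : Md k i
  · rw [tm_md h, tm_md (md_rev.2 h)]
  · rw [tm_nd h, tm_nd (mt md_rev.1 h)]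

lemma Rt.bt (h : Rt φ k v) (h' : Rt φ k w) : φ (bt v w) = bt v w := by
  rw [JP.bt, ← Equiv.sum_comp (tm k), map_sum, Equiv.sum_comp (tm k) fun i => v i * w i.rev]
  exact Finset.sum_congr rfl fun i _ => by rw [map_mul, h, ← tm_rev, h']

lemma Par.two (h : Par F m) {i : Fin m} (d : i = i.rev) : (2 : F) ≠ 0 :=
  h.resolve_right fun ⟨t, ht⟩ => by
    have := congrArg Fin.val d
    rw [Fin.val_rev] at this
    omega

lemma qf_smul (c : F) (v : Fin m → F) : qf (c • v) = c * c * qf v := by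
  rw [qf, qf, Finset.mul_sum]
  refine Finset.sum_congr rfl fun i _ => ?_
  simp only [Pi.smul_apply, smul_eq_mul]
  split_ifs <;> ring

lemma qf_neg (v : Fin m → F) : qf (-v) = qf v := by
  rw [← neg_one_smul F, qf_smul]
  ring

lemma qf_zero : qf (0 : Fin m → F) = 0 := by
  simp [qf]

lemma qf_add (h : Par F m) (v w : Fin m → F) : qf (v + w) = qf v + qf w + bt v w := by
  have e : bt v w = ∑ i : Fin m, ((if i < i.rev then v i * w i.rev + v i.rev * w i else 0) +
      if i = i.rev then v i * w i else 0) := by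
    have e1 : ∑ i : Fin m, (if i < i.rev then v i.rev * w i else 0) =
        ∑ i : Fin m, if i.rev < i then v i * w i.rev else 0 := by
      rw [← Equiv.sum_comp Fin.revPerm]
      simp
    simp only [ite_add_zero, Finset.sum_add_distrib, e1]
    rw [bt, ← Finset.sum_add_distrib, ← Finset.sum_add_distrib]
    refine Finset.sum_congr rfl fun i _ => ?_
    rcases lt_trichotomy i i.rev with c | c | c
    · simp [c, c.ne, c.not_gt]
    · rw [if_pos c, ← c]
      simp
    · simp [c, c.ne', c.not_gt]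
  rw [e, qf, qf, qf, ← Finset.sum_add_distrib, ← Finset.sum_add_distrib]
  refine Finset.sum_congr rfl fun i _ => ?_
  simp only [Pi.add_apply]
  by_cases c : i < i.rev
  · simp only [if_pos c, if_neg c.ne]
    ring
  by_cases d : i = i.rev
  · have h2 := h.two d
    simp only [if_neg c, if_pos d]
    field_simp
    ring
  · simp [c, d]

lemma two_qf (h : Par F m) (v : Fin m → F) : bt v v = 2 * qf v := by
  have := qf_add h v v
  rw [← two_smul F v, qf_smul] at this
  linear_combination -this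

/-- a vector with at most one hyperbolic pair in its support. -/
lemma qf_pair {i : Fin m} (hi : i ≠ i.rev)
    (hz : ∀ l, l ≠ i → l ≠ i.rev → v l * v l.rev = 0) : qf v = v i * v i.rev := by
  rw [qf, Fintype.sum_eq_add i i.rev hi fun l c => ?_]
  · rw [Fin.rev_rev, if_neg hi, if_neg hi.symm]
    rcases lt_or_gt_of_ne hi with c | c
    · rw [if_pos c, if_neg c.not_gt, add_zero]
    · rw [if_neg c.not_gt, if_pos c, zero_add, mul_comm]
  · have := hz l c.1 c.2
    split_ifs with d e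
    · exact this
    · rw [← e] at this
      rw [this, mul_zero]
    · rfl

lemma qf_mid {i : Fin m} (hi : i = i.rev) (hz : ∀ l, l ≠ i → v l * v l.rev = 0) :
    qf v = 2⁻¹ * (v i * v i) := by
  rw [qf, Finset.sum_eq_single i (fun l _ c => ?_) (by simp), if_neg hi.not_lt, if_pos hi]
  have := hz l c
  split_ifs with d e
  · exact this
  · rw [← e] at this
    rw [this, mul_zero]
  · rfl

lemma qf_nul (hz : ∀ l, v l * v l.rev = 0) : qf v = 0 :=
  Finset.sum_eq_zero fun l _ => by
    have := hz l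
    split_ifs with d e
    · exact this
    · rw [← e] at this
      rw [this, mul_zero]
    · rfl

lemma qf_ev {a : Fin m} (ha : a ≠ a.rev) : qf (ev F a) = 0 := qf_nul fun l => by
  by_cases e : l = a
  · rw [e, show ev F a a.rev = 0 from Pi.single_eq_of_ne ha.symm _, mul_zero]
  · rw [show ev F a l = 0 from Pi.single_eq_of_ne e _, zero_mul]

lemma qf_rev (v : Fin m → F) : qf (fun i => v i.rev) = qf v := by
  refine Finset.sum_congr rfl fun i _ => ?_
  simp only [Fin.rev_rev]
  split_ifs with d e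
  · ring
  · rw [← e]
  · rfl

lemma Rt.qf (h : Rt φ k v) : φ (qf v) = qf v := by
  rw [JP.qf, map_sum]
  refine Finset.sum_congr rfl fun i _ => ?_
  by_cases c : Md k i
  · have e1 := h i
    have e2 := h i.rev
    rw [tm_md c] at e1
    rw [tm_md (md_rev.2 c), Fin.rev_rev] at e2
    split_ifs with d e
    · rw [map_mul, e1, e2, mul_comm]
    · rw [map_mul, map_mul, map_inv₀, map_ofNat, e2, ← e]
    · exact map_zero φ
  · have e1 := h i
    have e2 := h i.rev
    rw [tm_nd c] at e1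
    rw [tm_nd (mt md_rev.1 c)] at e2
    split_ifs with d e
    · rw [map_mul, e1, e2]
    · rw [map_mul, map_mul, map_inv₀, map_ofNat, e1]
    · exact map_zero φ

/-- in odd characteristic the isometries of the bilinear form keep the quadratic form. -/
lemma oq_odd (h2 : (2 : F) ≠ 0) {g : SLm m F} (hg : g ∈ SOm m F) : g ∈ OQ m F :=
  ⟨hg, fun v => mul_left_cancel₀ h2 (by
    rw [← two_qf (Or.inl h2), ← two_qf (Or.inl h2), so_bt hg])⟩

end Pool.Agent.Lib.MP_1ae3da_al.JP
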