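import Pool.Agent.Lib.MP_1ae3da_al.P.Df
import Pool.Agent.Lib.MP_1ae3da_al.J.Gd

/-! Rotations, monomial rotations, Eichler elements. -/

namespace Pool.Agent.Lib.MP_1ae3da_al.JP

open SLI Matrix JM

variable {F : Type} [Field F] {m k : ℕ} {φ : F →+* F} {X : Type} [Group X]
  {π : X →* SLm m F} {E : (Fin m → F) → (Fin m → F) → X} {σ : Equiv.Perm (Fin m)}
  {a b : Fin m} {c : F} {f v : Fin m → F}

lemma so_inv {g : SLm m F} (hg : g ∈ SOm m F) (i j : Fin m) : (g⁻¹).1 i j = g.1 j.rev i.rev := by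
  have h := th_val (RingHom.id F) (ε := fun _ => 1) (fun _ => one_ne_zero) g j.rev i.rev
  rw [(th_fix _ _).mpr hg] at h
  simpa using h.symm

lemma so_rev {g : SLm m F} (hg : g ∈ SOm m F) (hσ : IsMon g.1 σ) (i : Fin m) :
    σ i.rev = (σ i).rev := iso_rev (RingHom.id F) (fun _ => one_ne_zero) hg hσ i

lemma mon_ev {g : SLm m F} (hσ : IsMon g.1 σ) (i : Fin m) :
    ev F i ᵥ* g.1 = g.1 i (σ i) • ev F (σ i) := by
  rw [ev_vecMul]
  funext j
  by_cases e : j = σ i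
  · simp [e]
  · simp [hσ i j e, Pi.single_eq_of_ne e]

lemma mon_of_ev {g : SLm m F} {μ : Fin m → F} (h : ∀ i, ev F i ᵥ* g.1 = μ i • ev F (σ i)) :
    IsMon g.1 σ ∧ ∀ i, g.1 i (σ i) = μ i := by
  simp only [ev_vecMul] at h
  refine ⟨fun i j e => ?_, fun i => ?_⟩
  · rw [h i]; simp [Pi.single_eq_of_ne e]
  · rw [h i]; simp

lemma sl_ext {g g' : SLm m F} (h : ∀ i, ev F i ᵥ* g.1 = ev F i ᵥ* g'.1) : g = g' := by
  simp only [ev_vecMul] at h
  exact Subtype.ext (funext h)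

lemma so_mu {g : SLm m F} (hg : g ∈ SOm m F) (hσ : IsMon g.1 σ) (i : Fin m) :
    g.1 i (σ i) * g.1 i.rev (σ i).rev = 1 := by
  have h := so_bt hg (ev F i) (ev F i.rev)
  rw [mon_ev hσ, mon_ev hσ, bt_smul_l, bt_smul_r, bt_ev_l, bt_ev_l, so_rev hg hσ] at h
  simpa using h

lemma m1_ne {i j : Fin m} (h : j ≠ i) : ev F i j = 0 := Pi.single_eq_of_ne h _

lemma m1_eq (i : Fin m) : ev F i i = 1 := Pi.single_eq_same _ _

lemma m1_det {g : SLm m F} (hσ : IsMon g.1 σ) :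
    ((Equiv.Perm.sign σ : ℤ) : F) * ∏ i, g.1 i (σ i) = 1 := by
  have h : g.1.det = 1 := g.2
  rw [← det_transpose, det_apply', Finset.sum_eq_single σ (fun τ _ e => ?_) (by simp)] at h
  · exact h
  · obtain ⟨i, hi⟩ := DFunLike.ne_iff.1 e
    exact mul_eq_zero_of_right _ (Finset.prod_eq_zero (Finset.mem_univ i) (hσ i _ hi))

lemma so_sign (h2 : (2 : F) ≠ 0) (hm : Even m) {g : SLm m F} (hg : g ∈ SOm m F)
    (hσ : IsMon g.1 σ) : Equiv.Perm.sign σ = 1 := by
  have h := m1_det hσ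
  rw [Finset.prod_involution (fun i _ => i.rev) (fun i _ => by
    rw [so_rev hg hσ]; exact so_mu hg hσ i) (fun i _ _ e => by
      have := congrArg Fin.val e
      obtain ⟨t, ht⟩ := hm
      rw [Fin.val_rev] at this
      omega) (fun _ _ => Finset.mem_univ _) (fun i _ => Fin.rev_rev i), mul_one] at h
  refine (Int.units_eq_one_or _).resolve_right fun e => h2 ?_
  rw [e] at h
  simp only [Units.val_neg, Units.val_one, Int.cast_neg, Int.cast_one] at h
  linear_combination -h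

lemma so_mid {g : SLm m F} (hg : g ∈ SOm m F) (h1 : IsMon g.1 1) {i : Fin m} (hi : i = i.rev) :
    g.1 i i = 1 := by
  have h := m1_det h1
  rw [← Finset.mul_prod_erase _ _ (Finset.mem_univ i), Finset.prod_involution (fun j _ => j.rev)
    (fun j _ => so_mu hg h1 j) (fun j hj _ e => Finset.ne_of_mem_erase hj (mid_eq e.symm hi))
    (fun j hj => Finset.mem_erase.2 ⟨fun e => Finset.ne_of_mem_erase hj
      (by rw [← Fin.rev_rev j, e, ← hi]), Finset.mem_univ _⟩) (fun j _ => Fin.rev_rev j)] at h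
  simpa using h

lemma so_off (hi : m ≤ 2 * k + 2) {g : SLm m F} (hg : g ∈ OQ m F)
    (hu : g ∈ US m F) {i j : Fin m} (h1 : Md k i) (h3 : Md k j) (hne : i ≠ j) : g.1 i j = 0 := by
  obtain ⟨u1, u2⟩ := mem_US'.mp hu
  rcases lt_or_gt_of_ne hne with hl | hl
  swap
  · exact u1 i j hl
  have v1 := h1.1
  have v2 := h1.2
  have v3 := h3.1
  have v4 := h3.2
  have v5 : (i : ℕ) < j := hl
  rw [Fin.val_rev] at v2 v4
  have e : i.rev = j := Fin.ext (by rw [Fin.val_rev]; omega)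
  have n : i ≠ i.rev := e ▸ hne
  have h := hg.2 (ev F i)
  rw [qf_ev n, ev_vecMul, qf_pair n fun l l1 l2 => ?_, e, u2, one_mul] at h
  · exact h
  · rcases lt_or_gt_of_ne l1 with c | c
    · rw [u1 i l c, zero_mul]
    · have c1 : (i : ℕ) < l := c
      have c2 : (l : ℕ) ≠ j := fun c => l2 (e ▸ Fin.ext c)
      rw [u1 i l.rev (by rw [Fin.lt_def, Fin.val_rev]; omega), mul_zero]

lemma Rm.vec {g : SLm m F} (hg : Rm φ k g) (hv : Rt φ k v) : Rt φ k (v ᵥ* g.1) := fun i => by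
  rw [vecMul, dotProduct, ← Equiv.sum_comp (tm k), map_sum, vecMul, dotProduct]
  exact Finset.sum_congr rfl fun l _ => by rw [map_mul, hv, hg]

lemma mv_f0 : Mv φ k (f0 F k : Fin m → F) := by
  refine ⟨fun i => ?_, fun i hi => if_neg hi⟩
  by_cases h : Md k i
  · rw [tm_md h, f0, f0, if_pos h, if_pos (md_rev.2 h), map_one]
  · rw [tm_nd h, f0, if_neg h, map_zero]

lemma f0_ne (h : 2 * k < m) : (f0 F k : Fin m → F) ≠ 0 := fun e => by
  have h1 := congrFun e ⟨k, by omega⟩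
  rw [f0, if_pos ⟨le_rfl, by rw [Fin.val_rev]; simp only; omega⟩] at h1
  exact one_ne_zero h1

namespace Spn
variable (h : Spn φ k π E)
include h

lemma ww {x : X} (hσ : IsMon (π x).1 σ) : σ ∈ WW m k := by
  refine ⟨so_rev (h.iso x) hσ, fun i => ?_, fun hm => h.sgn hm x σ hσ⟩
  have e : ∀ j : Fin m, Md k j ↔ tm k j = j.rev := fun j =>
    ⟨tm_md, fun c => by_contra fun d => md_ne h.lo d ((tm_nd d).symm.trans c)⟩
  have e2 : tm k (σ i) = σ (tm k i) := by_contra fun c => mon_ne hσ i (by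
    rw [← h.rat x, hσ _ _ c, map_zero])
  rw [e, e, e2, ← so_rev (h.iso x) hσ, σ.injective.eq_iff]

lemma mu_rat {x : X} (hσ : IsMon (π x).1 σ) {i : Fin m} (hi : ¬ Md k i) :
    φ ((π x).1 i (σ i)) = (π x).1 i (σ i) := by
  have := h.rat x i (σ i)
  rwa [tm_nd hi, tm_nd (mt ((h.ww hσ).2.1 i).1 hi)] at this

lemma mv_vec {x : X} (hσ : IsMon (π x).1 σ) (hf : Mv φ k f) : Mv φ k (f ᵥ* (π x).1) := by
  refine ⟨(h.rat x).vec hf.1, fun j hj => ?_⟩
  rw [vecMul, dotProduct]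
  refine Finset.sum_eq_zero fun l _ => ?_
  by_cases c : Md k l
  · rw [hσ l j fun e => hj (e ▸ ((h.ww hσ).2.1 l).2 c), mul_zero]
  · rw [hf.2 l c, zero_mul]

lemma mv_ne (hf : Mv φ k f) (h0 : f ≠ 0) : qf f ≠ 0 := by
  obtain ⟨i, hi⟩ := Function.ne_iff.1 h0
  have hi' : f i ≠ 0 := hi
  have hm : Md k i := by_contra fun c => hi' (hf.2 i c)
  have hr : f i.rev ≠ 0 := fun c => hi' (by rw [← hf.1 i, tm_md hm, c, map_zero])
  have z : ∀ l, l ≠ i → l ≠ i.rev → f l * f l.rev = 0 := fun l c d => by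
    refine mul_eq_zero_of_left (hf.2 l fun e => ?_) _
    have v0 := h.hi
    have v1 := hm.1
    have v2 := hm.2
    have v3 := e.1
    have v4 := e.2
    have v5 : (l : ℕ) ≠ i := fun t => c (Fin.ext t)
    have v6 : (l : ℕ) ≠ i.rev := fun t => d (Fin.ext t)
    rw [Fin.val_rev] at v2 v4 v6
    omega
  by_cases e : i = i.rev
  · rw [qf_mid e fun l c => z l c (e ▸ c)]
    exact mul_ne_zero (inv_ne_zero (h.par.two e)) (mul_ne_zero hi' hi')
  · rw [qf_pair e z]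
    exact mul_ne_zero hi' hr

lemma E_zero (ha : ¬ Md k a) : E (ev F a) 0 = 1 := by
  have := h.add a ha 0 0 rt_zero rt_zero rfl rfl
  rw [add_zero] at this
  exact left_eq_mul.1 this

lemma E_neg (ha : ¬ Md k a) (hf : Rt φ k f) (h0 : f a.rev = 0) :
    (E (ev F a) f)⁻¹ = E (ev F a) (-f) := by
  refine inv_eq_of_mul_eq_one_right ?_
  rw [← h.add a ha f (-f) hf hf.neg h0 (by simp [h0]), add_neg_cancel, h.E_zero ha]

lemma E_pow {r : ℕ} [CharP F r] (ha : ¬ Md k a) (hf : Rt φ k f) (h0 : f a.rev = 0) :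
    E (ev F a) f ^ r = 1 := by
  have e : ∀ n : ℕ, E (ev F a) f ^ n = E (ev F a) ((n : F) • f) := fun n => by
    induction n with
    | zero => rw [pow_zero, Nat.cast_zero, zero_smul, h.E_zero ha]
    | succ n ih =>
      rw [pow_succ, ih, Nat.cast_succ, add_smul, one_smul,
        h.add a ha _ f (hf.smul (map_natCast φ n)) hf (by simp [h0]) h0]
  rw [e, CharP.cast_eq_zero, zero_smul, h.E_zero ha]

lemma E_US (ha : ¬ Md k a) (hf : Rt φ k f) (h1 : ∀ j, f j ≠ 0 → a.rev < j) :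
    π (E (ev F a) f) ∈ US m F := by
  have h0 : f a.rev = 0 := by_contra fun c => lt_irrefl _ (h1 _ c)
  have key : ∀ i j : Fin m, j ≤ i → (π (E (ev F a) f)).1 i j = ev F i j := fun i j hij => by
    have e := congrFun (h.act a ha f hf h0 (ev F i)) j
    rw [ev_vecMul, bt_ev_l] at e
    have t1 : f i.rev * ev F a j = 0 := by
      by_cases c : j = a
      · refine mul_eq_zero_of_left (by_contra fun d => ?_) _
        exact absurd (Fin.rev_lt_rev.1 (h1 _ d)) (not_lt.2 (c ▸ hij))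
      · rw [m1_ne c, mul_zero]
    have t2 : ev F i a.rev * f j = 0 := by
      by_cases c : a.rev = i
      · refine mul_eq_zero_of_right _ (by_contra fun d => ?_)
        exact absurd (h1 _ d) (not_lt.2 (c ▸ hij))
      · rw [m1_ne c, zero_mul]
    have t3 : ev F i a.rev * qf f * ev F a j = 0 := by
      by_cases c : a.rev = i
      swap
      · rw [m1_ne c, zero_mul, zero_mul]
      by_cases d : j = a
      swap
      · rw [m1_ne d, mul_zero]
      have : qf f = 0 := qf_nul fun l => by_contra fun t => by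
        have t1 := h1 _ (left_ne_zero_of_mul t)
        have t2 := Fin.rev_lt_rev.1 (h1 _ (right_ne_zero_of_mul t))
        rw [d, ← c] at hij
        exact absurd (t1.trans t2) (not_lt.2 hij)
      rw [this, mul_zero, zero_mul]
    simp only [Pi.sub_apply, Pi.add_apply, Pi.smul_apply, smul_eq_mul, t1, t2, t3, add_zero,
      sub_zero] at e
    exact e
  exact mem_US'.mpr ⟨fun i j hij => by rw [key i j hij.le, m1_ne hij.ne],
    fun i => by rw [key i i le_rfl, m1_eq]⟩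

lemma E_cj {g : X} (hσ : IsMon (π g).1 σ) (ha : ¬ Md k a) (hf : Rt φ k f) :
    g⁻¹ * E (ev F a) f * g = E (ev F (σ a)) ((π g).1 a (σ a) • (f ᵥ* (π g).1)) := by
  rw [h.cj g _ f (rt_ev ha) hf, mon_ev hσ,
    h.sc _ (h.mu_rat hσ ha) _ _ (rt_ev (mt ((h.ww hσ).2.1 a).1 ha)) ((h.rat g).vec hf)]

lemma ix_val (j : ℕ) : (h.ix j : ℕ) = k - 1 - j := rfl

lemma ix_nd (j : ℕ) : ¬ Md k (h.ix j) := fun c => by
  have h1 := c.1
  have h2 := h.k2
  rw [h.ix_val] at h1
  omega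

end Spn

lemma pr_of (lo : 2 * k ≤ m) (ha : (a : ℕ) < k) (hb : (b : ℕ) < k) (hne : a ≠ b) : Pr k a b :=
  ⟨fun c => absurd c.1 (not_le.2 ha), fun c => absurd c.1 (not_le.2 hb), hne, fun e => by
    have := congrArg Fin.val e
    rw [Fin.val_rev] at this
    omega⟩

lemma Pr.rev (p : Pr k a b) : Pr k a b.rev :=
  ⟨p.l, mt md_rev.1 p.r, p.nr, by rw [Fin.rev_rev]; exact p.ne⟩

lemma Pr.symm (p : Pr k a b) : Pr k b a :=
  ⟨p.r, p.l, p.ne.symm, fun e => p.nr (by rw [e, Fin.rev_rev])⟩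

lemma Pr.map (p : Pr k a b) (hσ : σ ∈ WW m k) : Pr k (σ a) (σ b) :=
  ⟨mt (hσ.2.1 a).1 p.l, mt (hσ.2.1 b).1 p.r, σ.injective.ne p.ne,
    by rw [← hσ.1]; exact σ.injective.ne p.nr⟩

end Pool.Agent.Lib.MP_1ae3da_al.JP
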