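import Pool.Agent.Lib.MP_1ae3da_al.P.M1

/-! The image is closed under the Bruhat decomposition. -/

namespace Pool.Agent.Lib.MP_1ae3da_al.JP

open SLI Matrix JM

variable {F : Type} [Field F] {m k : ℕ} {φ : F →+* F} {X : Type} [Group X]
  {π : X →* SLm m F} {E : (Fin m → F) → (Fin m → F) → X} {σ : Equiv.Perm (Fin m)}
  {a b : Fin m} {c : F} {f v : Fin m → F}

lemma m1b_ne (hab : a ≠ b) : ev F b a = 0 := Pi.single_eq_of_ne hab _

lemma m1b_eq (a : Fin m) : ev F a a = 1 := Pi.single_eq_same _ _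

/-- the twisted Frobenius map. -/
def m1b_ro (φ : F →+* F) (k : ℕ) : SLm m F →* SLm m F :=
  MonoidHom.mk' (fun g => ⟨(g.1.submatrix (tm k) (tm k)).map φ, by
    have := φ.map_det (g.1.submatrix (tm k) (tm k))
    rw [det_submatrix_equiv_self, g.2, map_one] at this
    exact this.symm⟩) fun g g' => Subtype.ext (by
      show ((g.1 * g'.1).submatrix (tm k) (tm k)).map φ = _ * _
      rw [← Matrix.map_mul, submatrix_mul_equiv])

lemma m1b_val (g : SLm m F) (i j : Fin m) :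
    (m1b_ro φ k g).1 i j = φ (g.1 (tm k i) (tm k j)) := rfl

lemma m1b_fix {g : SLm m F} : m1b_ro φ k g = g ↔ Rm φ k g :=
  ⟨fun e i j => by rw [← m1b_val, e], fun e => Subtype.ext (Matrix.ext e)⟩

lemma m1b_lt {i j : Fin m} (hij : i < j) (hn : ¬ (Md k i ∧ Md k j)) : tm k i < tm k j := by
  have h1 := i.2
  have h2 := j.2
  rw [Fin.lt_def] at hij
  by_cases hi : Md k i
  · have hj : ¬ Md k j := fun c => hn ⟨hi, c⟩
    rw [tm_md hi, tm_nd hj, Fin.lt_def]
    simp only [Md, Fin.val_rev] at hi hj ⊢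
    omega
  · by_cases hj : Md k j
    · rw [tm_md hj, tm_nd hi, Fin.lt_def]
      simp only [Md, Fin.val_rev] at hi hj ⊢
      omega
    · rwa [tm_nd hi, tm_nd hj]

lemma m1b_md {i : Fin m} (hi : Md k i) : Md k (tm k i) := by
  rw [tm_md hi]
  exact md_rev.2 hi

lemma m1b_U (hi : m ≤ 2 * k + 2) {g : SLm m F} (hg : g ∈ OQ m F)
    (hu : g ∈ US m F) : m1b_ro φ k g ∈ US m F := by
  refine mem_US'.mpr ⟨fun i j hij => ?_, fun i => ?_⟩
  · rw [m1b_val]
    by_cases c : Md k j ∧ Md k i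
    · rw [so_off hi hg hu (m1b_md c.2) (m1b_md c.1) ((tm k).injective.ne hij.ne'), map_zero]
    · rw [(mem_US'.mp hu).1 _ _ (m1b_lt hij c), map_zero]
  · rw [m1b_val, (mem_US'.mp hu).2, map_one]

lemma m1b_tr {g : SLm m F} (hg : g ∈ SOm m F) : g.transpose ∈ SOm m F := by
  refine mem_SO.mpr fun i j => ?_
  have e : (g⁻¹).1 * g.1 = 1 := congrArg Subtype.val (inv_mul_cancel g)
  have e1 := congrFun (congrFun e i.rev) j
  rw [Matrix.mul_apply, ← Equiv.sum_comp Fin.revPerm, one_apply] at e1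
  simp only [so_inv hg, Fin.revPerm_apply, Fin.rev_rev, eq_comm (a := i.rev)] at e1
  exact e1

lemma oq_rows (par : Par F m) {g : SLm m F} (hg : g ∈ SOm m F)
    (hr : ∀ i, qf (g.1 i) = qf (ev F i)) : g ∈ OQ m F := by
  refine ⟨hg, fun v => ?_⟩
  induction v using Pi.single_induction with
  | zero => rw [zero_vecMul]
  | add v w hv hw => rw [add_vecMul, qf_add par, qf_add par, hv, hw, so_bt hg]
  | single i c =>
    have e : (Pi.single i c : Fin m → F) = c • ev F i := by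
      rw [← Pi.single_smul, smul_eq_mul, mul_one]
    rw [e, smul_vecMul, qf_smul, qf_smul, ev_vecMul, hr]

lemma oq_row {g : SLm m F} (hg : g ∈ OQ m F) (i : Fin m) : qf (g.1 i) = qf (ev F i) := by
  rw [← hg.2 (ev F i), ev_vecMul]

lemma m1b_tq (par : Par F m) {g : SLm m F} (hg : g ∈ OQ m F) : g.transpose ∈ OQ m F :=
  oq_rows par (m1b_tr hg.1) fun i => by
    have e1 : g.transpose.1 i = fun j => (g⁻¹).1 i.rev j.rev := funext fun j => by
      rw [so_inv hg.1, Fin.rev_rev, Fin.rev_rev]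
      rfl
    have e2 : ev F i = fun j => ev F i.rev j.rev := funext fun j => by
      simp [Pi.single_apply]
    rw [e1, e2, qf_rev, qf_rev, oq_row (inv_mem hg)]

lemma m1b_L (par : Par F m) (hi : m ≤ 2 * k + 2) {g : SLm m F} (hg : g ∈ OQ m F)
    (hu : g ∈ LS m F) : m1b_ro φ k g ∈ LS m F :=
  m1b_U (φ := φ) hi (m1b_tq par hg) hu

lemma m1b_oq (par : Par F m) {u n w : SLm m F} (hn : n ∈ MonS m F) (hl : n⁻¹ * u * n ∈ LS m F)
    (hw : w ∈ US m F) (a1 : u ∈ SOm m F) (a2 : n ∈ SOm m F) (a3 : w ∈ SOm m F)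
    (hx : u * n * w ∈ OQ m F) : u ∈ OQ m F ∧ n ∈ OQ m F ∧ w ∈ OQ m F := by
  by_cases h2 : (2 : F) = 0
  swap
  · exact ⟨oq_odd h2 a1, oq_odd h2 a2, oq_odd h2 a3⟩
  have hz : ∀ i : Fin m, i ≠ i.rev := fun i c => par.two c h2
  obtain ⟨σ, hσ⟩ := hn
  have b2 : n ∈ OQ m F := oq_rows par a2 fun i => by
    rw [← ev_vecMul i n.1, mon_ev hσ, qf_smul, qf_ev (hz _), qf_ev (hz _), mul_zero]
  have b3 : w ∈ OQ m F := oq_rows par a3 fun i => by
    rw [qf_ev (hz i)]
    rcases lt_or_gt_of_ne (hz i) with c | c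
    · have e : w = (n⁻¹ * u * n)⁻¹ * (n⁻¹ * (u * n * w)) := by group
      have e1 : w.1 i = ((n⁻¹ * u * n)⁻¹).1 i ᵥ* (n⁻¹ * (u * n * w)).1 := by
        conv_lhs => rw [e]
        rfl
      have l0 : ∀ j, i < j → ((n⁻¹ * u * n)⁻¹).1 i j = 0 := fun j hj =>
        (mem_US'.mp (inv_mem hl : _ ∈ LS m F)).1 j i hj
      rw [e1, (mul_mem (inv_mem b2) hx).2]
      refine qf_nul fun j => ?_
      rcases lt_or_ge i j with d | d
      · rw [l0 j d, zero_mul]
      · rw [l0 j.rev (c.trans_le (Fin.rev_le_rev.mpr d)), mul_zero]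
    · refine qf_nul fun j => ?_
      rcases lt_or_ge j i with d | d
      · rw [(mem_US'.mp hw).1 i j d, zero_mul]
      · rw [(mem_US'.mp hw).1 i j.rev ((Fin.rev_le_rev.mpr d).trans_lt c), mul_zero]
  refine ⟨?_, b2, b3⟩
  have e : u = u * n * w * w⁻¹ * n⁻¹ := by group
  rw [e]
  exact mul_mem (mul_mem hx (inv_mem b3)) (inv_mem b2)

lemma m1b_M {g : SLm m F} (hg : g ∈ MonS m F) : m1b_ro φ k g ∈ MonS m F := by
  obtain ⟨σ, hσ⟩ := hg
  refine ⟨(tm k)⁻¹ * σ * tm k, fun i j hj => ?_⟩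
  rw [m1b_val, hσ _ _ fun e => hj (by simp [← e]), map_zero]

lemma m1b_core (θ : SLm m F →* SLm m F) {u n w : SLm m F} (hu : u ∈ US m F) (hn : n ∈ MonS m F)
    (hl : n⁻¹ * u * n ∈ LS m F) (hv : w ∈ US m F) (hu' : θ u ∈ US m F) (hn' : θ n ∈ MonS m F)
    (hl' : θ (n⁻¹ * u * n) ∈ LS m F) (hv' : θ w ∈ US m F) (hx : θ (u * n * w) = u * n * w) :
    θ u = u ∧ θ n = n ∧ θ w = w := by
  have e1 : θ u * θ n * θ w = u * n * w := by rw [← map_mul, ← map_mul, hx]
  have e2 : θ n = n := mon_cell hn hn' (mul_mem (inv_mem hu) hu') (mul_mem hv (inv_mem hv')) (by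
    rw [mul_assoc, eq_mul_inv_of_mul_eq e1]; group)
  rw [map_mul, map_mul, map_inv, e2] at hl'
  rw [e2] at e1
  have e3 : (n⁻¹ * u * n)⁻¹ * (n⁻¹ * θ u * n) = w * (θ w)⁻¹ := by
    rw [eq_mul_inv_of_mul_eq (eq_mul_inv_of_mul_eq e1)]; group
  have e4 := US_LS (e3 ▸ mul_mem hv (inv_mem hv')) (mul_mem (inv_mem hl) hl')
  have e5 : θ u = u := by
    rw [inv_mul_eq_one] at e4
    exact (mul_left_cancel (mul_right_cancel e4)).symm
  rw [e5] at e1
  exact ⟨e5, e2, mul_left_cancel e1⟩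

lemma m1b_col {u : SLm m F} (h1 : u ∈ SOm m F) {j : Fin m} (hj : u.1 j.rev = ev F j.rev)
    (i : Fin m) : u.1 i j = if i = j then 1 else 0 := by
  have := mem_SO.mp h1 j.rev i
  rwa [hj, bt_ev_l, Fin.rev_rev] at this

lemma m1b_one (hi : m ≤ 2 * k + 2) {u : SLm m F} (hu : u ∈ US m F)
    (h1 : u ∈ OQ m F) (hr : ∀ i : Fin m, (i : ℕ) < k → u.1 i = ev F i) : u = 1 := by
  apply Subtype.ext
  ext i j
  show u.1 i j = (1 : Matrix (Fin m) (Fin m) F) i j
  rcases lt_trichotomy j i with c | rfl | c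
  · rw [(mem_US'.mp hu).1 i j c, one_apply_ne c.ne']
  · rw [(mem_US'.mp hu).2, one_apply_eq]
  · rw [one_apply_ne c.ne]
    by_cases c1 : (i : ℕ) < k
    · rw [hr i c1, m1b_ne c.ne']
    · by_cases c2 : (j.rev : ℕ) < k
      · rw [m1b_col h1.1 (hr _ c2), if_neg c.ne]
      · have c3 := Fin.rev_lt_rev.mpr c
        rw [Fin.lt_def] at c c3
        exact so_off hi h1 hu (k := k) ⟨by omega, by omega⟩ ⟨by omega, by omega⟩
          (Fin.ne_of_lt c)

lemma m1b_row (par : Par F m) {w r : Fin m → F} (ha : a ≠ a.rev) (hw : qf w = 0)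
    (hr : qf r = 0) (h1 : r a = 1) (he : ∀ j, j ≠ a.rev → w j = r j) : w = r := by
  have e : w = r + (w a.rev - r a.rev) • ev F a.rev := by
    ext j
    by_cases c : j = a.rev
    · simp [c]
    · simp [c, he j c]
  generalize w a.rev - r a.rev = d at e
  rw [e, qf_add par, hr, qf_smul, qf_ev (by rw [Fin.rev_rev]; exact ha.symm), bt_smul_r, bt_ev_r,
    Fin.rev_rev, h1] at hw
  have : d = 0 := by linear_combination hw
  rw [e, this, zero_smul, add_zero]

namespace Spn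
variable (h : Spn φ k π E)
include h

lemma m1b_step {u : SLm m F} (hu : u ∈ US m F) (h1 : u ∈ OQ m F) (h2 : Rm φ k u)
    (ha : (a : ℕ) < k) (hr : ∀ i : Fin m, i < a → u.1 i = ev F i) :
    ∃ x, π x ∈ US m F ∧ ∀ i : Fin m, i ≤ a → u.1 i = (π x).1 i := by
  have lo := h.lo
  have hm := a.2
  have na : ¬ Md k a := fun c => absurd c.1 (not_le.mpr ha)
  have nr : ¬ Md k a.rev := mt md_rev.1 na
  have ar : a < a.rev := by
    rw [Fin.lt_def, Fin.val_rev]
    omega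
  let f : Fin m → F := fun j => if a < j ∧ j < a.rev then -u.1 a j else 0
  have f1 : ∀ j, ¬ (a < j ∧ j < a.rev) → f j = 0 := fun j hj => if_neg hj
  have f2 : ∀ j, a < j → j < a.rev → f j = -u.1 a j := fun j c c' => if_pos ⟨c, c'⟩
  have hf : Rt φ k f := fun i => by
    have e := h2 a i
    rw [tm_nd na] at e
    by_cases c : Md k i
    · have c1 : ∀ j : Fin m, Md k j → a < j ∧ j < a.rev := fun j hj => by
        have := j.2
        simp only [Md, Fin.lt_def, Fin.val_rev] at hj ⊢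
        omega
      rw [f2 _ (c1 _ (m1b_md c)).1 (c1 _ (m1b_md c)).2, f2 _ (c1 _ c).1 (c1 _ c).2, map_neg, e]
    · rw [tm_nd c] at e ⊢
      by_cases c1 : a < i ∧ i < a.rev
      · rw [f2 _ c1.1 c1.2, map_neg, e]
      · rw [f1 _ c1, map_zero]
  have f0 : f a.rev.rev = 0 := f1 _ fun c => absurd c.1 (by simp)
  have hU : π (E (ev F a.rev) f) ∈ US m F := h.E_US nr hf fun j hj => by
    rw [Fin.rev_rev]
    by_contra c
    exact hj (f1 j fun c' => c c'.1)
  have act := fun i => h.act a.rev nr f hf f0 (ev F i)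
  simp only [ev_vecMul, bt_ev_l, Fin.rev_rev] at act
  refine ⟨_, hU, fun i hi => ?_⟩
  rcases hi.lt_or_eq with c | rfl
  · rw [hr i c, act, f1 _ fun c' => lt_asymm c'.2 (Fin.rev_lt_rev.mpr c),
      m1b_ne c.ne']
    simp
  · refine m1b_row h.par ar.ne ((oq_row h1 i).trans (qf_ev ar.ne))
      ((oq_row (h.oq _) i).trans (qf_ev ar.ne)) ((mem_US'.mp hU).2 i) fun j hj => ?_
    rw [act]
    simp only [Pi.sub_apply, Pi.add_apply, Pi.smul_apply, Pi.single_eq_of_ne hj, smul_zero,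
      add_zero, sub_zero, Pi.single_eq_same, one_smul]
    rcases lt_trichotomy j i with c | rfl | c
    · rw [(mem_US'.mp hu).1 i j c, f1 _ fun c' => lt_asymm c c'.1, m1b_ne c.ne,
        sub_zero]
    · rw [(mem_US'.mp hu).2, f1 _ fun c' => lt_irrefl _ c'.1, m1b_eq, sub_zero]
    · rw [m1b_ne c.ne']
      rcases lt_or_gt_of_ne hj with c1 | c1
      · rw [f2 _ c c1, zero_sub, neg_neg]
      · rw [f1 _ fun c' => lt_asymm c1 c'.2, sub_zero,
          m1b_col h1.1 (hr _ (by rwa [Fin.rev_lt_iff])), if_neg c.ne]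

lemma m1b_ind (d : ℕ) : ∀ {u : SLm m F}, u ∈ US m F → u ∈ OQ m F → Rm φ k u →
    (∀ i : Fin m, (i : ℕ) + d < k → u.1 i = ev F i) → u ∈ π.range := by
  induction d with
  | zero =>
    intro u hu h1 _ hr
    rw [m1b_one h.hi hu h1 hr]
    exact one_mem _
  | succ d ih =>
    intro u hu h1 h2 hr
    by_cases c : k ≤ d
    · exact ih hu h1 h2 fun i hi => absurd hi (by omega)
    · have lo := h.lo
      obtain ⟨x, hx, he⟩ := h.m1b_step (a := ⟨k - 1 - d, by omega⟩) hu h1 h2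
        (by show k - 1 - d < k; omega) fun i hi => hr i (by
          rw [Fin.lt_def] at hi
          change (i : ℕ) < k - 1 - d at hi
          omega)
      have := ih (mul_mem hu (inv_mem hx)) (mul_mem h1 (inv_mem (h.oq x)))
        (m1b_fix.1 (by rw [map_mul, map_inv, m1b_fix.2 h2, m1b_fix.2 (h.rat x)])) fun i hi => by
          have e : (π x).1 * ((π x)⁻¹).1 = 1 := congrArg Subtype.val (mul_inv_cancel (π x))
          have e1 : (u * (π x)⁻¹).1 i = u.1 i ᵥ* ((π x)⁻¹).1 := rfl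
          have e2 : ((π x).1 * ((π x)⁻¹).1) i = (π x).1 i ᵥ* ((π x)⁻¹).1 := rfl
          rw [e1, he i (by
            rw [Fin.le_def]
            change (i : ℕ) ≤ k - 1 - d
            omega), ← e2, e]
          ext j
          simp [one_apply, Pi.single_apply, eq_comm]
      have e : u = u * (π x)⁻¹ * π x := by group
      rw [e]
      exact mul_mem this ⟨x, rfl⟩

lemma U_rng {u : SLm m F} (hu : u ∈ US m F) (h1 : u ∈ OQ m F) (h2 : Rm φ k u) :
    u ∈ π.range := h.m1b_ind k hu h1 h2 fun i hi => absurd hi (by omega)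

lemma cl [Finite F] : ∀ x ∈ π.range, ∃ u ∈ US m F, ∃ n ∈ MonS m F, ∃ v ∈ US m F,
    u ∈ π.range ∧ n ∈ π.range ∧ v ∈ π.range ∧ x = u * n * v := by
  rintro x ⟨y, hy⟩
  obtain ⟨u, hu, n, hn, hl, w, hw, e⟩ := bruhat' x
  have hε : ∀ i : Fin m, (fun _ => (1 : F)) i ≠ 0 := fun _ => one_ne_zero
  have t := @th_fix _ _ _ (RingHom.id F) _ hε
  obtain ⟨a1, a2, a3⟩ := m1b_core (th (RingHom.id F) hε) hu hn hl hw (th_U _ hε u hu)
    (hn.elim fun _ hσ => ⟨_, th_mon _ hε hσ⟩) (th_L _ hε _ hl) (th_U _ hε w hw)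
    (by rw [← e, t, ← hy]; exact h.iso y)
  rw [t] at a1 a2 a3
  obtain ⟨a1, a2, a3⟩ := m1b_oq h.par hn hl hw a1 a2 a3 (by rw [← e, ← hy]; exact h.oq y)
  obtain ⟨b1, -, b3⟩ := m1b_core (m1b_ro φ k) hu hn hl hw (m1b_U h.hi a1 hu) (m1b_M hn)
    (m1b_L h.par h.hi (mul_mem (mul_mem (inv_mem a2) a1) a2) hl) (m1b_U h.hi a3 hw)
    (by rw [← e, m1b_fix, ← hy]; exact h.rat y)
  have c1 := h.U_rng hu a1 (m1b_fix.1 b1)
  have c3 := h.U_rng hw a3 (m1b_fix.1 b3)
  refine ⟨u, hu, n, hn, w, hw, c1, ?_, c3, e⟩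
  have : n = u⁻¹ * x * w⁻¹ := by rw [e]; group
  rw [this]
  exact mul_mem (mul_mem (inv_mem c1) ⟨y, hy⟩) (inv_mem c3)

end Spn

end Pool.Agent.Lib.MP_1ae3da_al.JP
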