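import Pool.Agent.Lib.MP_1ae3da_al.P.M1

/-! The lifts of the reflections. -/

namespace Pool.Agent.Lib.MP_1ae3da_al.JP

open SLI Matrix JM

variable {F : Type} [Field F] {m k : ℕ} {φ : F →+* F} {X : Type} [Group X]
  {π : X →* SLm m F} {E : (Fin m → F) → (Fin m → F) → X} {σ : Equiv.Perm (Fin m)}
  {a b : Fin m} {c : F} {f v : Fin m → F}

lemma m2_ev0 {i j : Fin m} (h : j ≠ i) : ev F i j = 0 := Pi.single_eq_of_ne h 1

lemma m2_ev1 (i : Fin m) : ev F i i = 1 := Pi.single_eq_same i 1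

lemma m2_mul (π : X →* SLm m F) (x y : X) (v : Fin m → F) :
    v ᵥ* (π (x * y)).1 = (v ᵥ* (π x).1) ᵥ* (π y).1 := by
  rw [vecMul_vecMul, map_mul]
  rfl

lemma m2_cj (g x y : X) : g⁻¹ * (x * y * x) * g =
    (g⁻¹ * x * g) * (g⁻¹ * y * g) * (g⁻¹ * x * g) := by group

lemma m2_rr {i j : Fin m} (h : i ≠ j) : i.rev ≠ j.rev := fun e => h (Fin.rev_injective e)

lemma m2_ra {i j : Fin m} (h : i ≠ j.rev) : i.rev ≠ j := fun e => h (by rw [← e, Fin.rev_rev])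

namespace Spn
variable (h : Spn φ k π E)
include h

lemma m2_L (ha : ¬ Md k a) (hb : ¬ Md k b) (hn : a.rev ≠ b) (hc : φ c = c) (v : Fin m → F) :
    v ᵥ* (π (E (ev F a) (c • ev F b))).1 =
      v + (c * v b.rev) • ev F a - (c * v a.rev) • ev F b := by
  rw [h.act a ha _ ((rt_ev hb).smul hc) (by rw [Pi.smul_apply, m2_ev0 hn, smul_zero]),
    bt_smul_r, bt_ev_r, qf_smul, qf_ev (md_ne h.lo hb), smul_smul,
    mul_comm (v a.rev) c]
  simp only [mul_zero, zero_smul, sub_zero]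

lemma m2_Wl (p : Pr k a b) (hc : φ c = c) (h0 : c ≠ 0) (v : Fin m → F) :
    v ᵥ* (π (Wl E a b c)).1 = v + (c⁻¹ * v b - v a) • ev F a + (-c * v a - v b) • ev F b +
      (c * v b.rev - v a.rev) • ev F a.rev + (-c⁻¹ * v a.rev - v b.rev) • ev F b.rev := by
  have ha := md_ne h.lo p.l
  have hb := md_ne h.lo p.r
  have l1 := h.m2_L (mt md_rev.1 p.l) p.r (by rw [Fin.rev_rev]; exact p.ne) hc
  have l2 := h.m2_L (c := -c⁻¹) (mt md_rev.1 p.r) p.l (by rw [Fin.rev_rev]; exact p.ne.symm)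
    (by rw [map_neg, map_inv₀, hc])
  rw [Fin.rev_rev] at l1 l2
  rw [Wl, m2_mul, m2_mul, l1, l2, l1]
  simp only [Pi.add_apply, Pi.sub_apply, Pi.smul_apply, smul_eq_mul, m2_ev1, m2_ev0 ha,
    m2_ev0 hb.symm, m2_ev0 p.ne, m2_ev0 p.nr, m2_ev0 p.nr.symm,
    m2_ev0 (m2_rr p.ne).symm, m2_ev0 (m2_ra p.nr), m2_ev0 (m2_ra p.nr).symm]
  ext j
  simp only [Pi.add_apply, Pi.sub_apply, Pi.smul_apply, smul_eq_mul]
  field_simp
  ring

/-- hint: `act` three times (`vecMul_vecMul`); first a formula for a general vector. -/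
lemma Wl_ev (p : Pr k a b) (hc : φ c = c) (h0 : c ≠ 0) (i : Fin m) :
    ev F i ᵥ* (π (Wl E a b c)).1 = (if i = a then -c else if i = b then c⁻¹ else
      if i = b.rev then c else if i = a.rev then -c⁻¹ else 1) • ev F (sw2 a b i) := by
  have ha := md_ne h.lo p.l
  have hb := md_ne h.lo p.r
  have n1 := m2_rr p.ne
  have n2 := m2_ra p.nr
  rw [h.m2_Wl p hc h0, sw2, Equiv.Perm.mul_apply]
  by_cases e1 : i = a
  · subst e1
    rw [if_pos rfl, Equiv.swap_apply_of_ne_of_ne ha p.nr, Equiv.swap_apply_left, m2_ev1,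
      m2_ev0 p.ne.symm, m2_ev0 p.nr.symm, m2_ev0 ha.symm]
    module
  by_cases e2 : i = b
  · subst e2
    rw [if_neg e1, if_pos rfl, Equiv.swap_apply_of_ne_of_ne n2.symm hb, Equiv.swap_apply_right,
      m2_ev1, m2_ev0 p.ne, m2_ev0 hb.symm, m2_ev0 n2]
    module
  by_cases e3 : i = b.rev
  · subst e3
    rw [if_neg e1, if_neg e2, if_pos rfl, Equiv.swap_apply_right,
      Equiv.swap_apply_of_ne_of_ne ha.symm n2, m2_ev1, m2_ev0 p.nr, m2_ev0 hb, m2_ev0 n1]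
    module
  by_cases e4 : i = a.rev
  · subst e4
    rw [if_neg e1, if_neg e2, if_neg e3, if_pos rfl, Equiv.swap_apply_left,
      Equiv.swap_apply_of_ne_of_ne p.nr.symm hb.symm, m2_ev1, m2_ev0 ha, m2_ev0 n2.symm,
      m2_ev0 n1.symm]
    module
  rw [if_neg e1, if_neg e2, if_neg e3, if_neg e4, Equiv.swap_apply_of_ne_of_ne e4 e3,
    Equiv.swap_apply_of_ne_of_ne e1 e2, m2_ev0 (Ne.symm e1), m2_ev0 (Ne.symm e2),
    m2_ev0 (Ne.symm e3), m2_ev0 (Ne.symm e4)]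
  module

lemma Wl_mon (p : Pr k a b) (hc : φ c = c) (h0 : c ≠ 0) :
    IsMon (π (Wl E a b c)).1 (sw2 a b) := (mon_of_ev (h.Wl_ev p hc h0)).1

lemma m2_cjL (ha : ¬ Md k a) (hb : ¬ Md k b) (hc : φ c = c) {g : X} (hσ : IsMon (π g).1 σ) :
    g⁻¹ * E (ev F a.rev) (c • ev F b) * g =
      E (ev F (σ a).rev) ((c * (π g).1 a.rev (σ a).rev * (π g).1 b (σ b)) • ev F (σ b)) := by
  rw [h.E_cj hσ (mt md_rev.1 ha) ((rt_ev hb).smul hc), smul_vecMul, mon_ev hσ,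
    so_rev (h.iso g) hσ, smul_smul, smul_smul, mul_comm _ c]

/-- hint: `E_cj`, `mon_ev`, `so_mu`, `so_rev`. -/
lemma Wl_cj (p : Pr k a b) (hc : φ c = c) {g : X} (hσ : IsMon (π g).1 σ) :
    g⁻¹ * Wl E a b c * g =
      Wl E (σ a) (σ b) (c * (π g).1 a.rev (σ a).rev * (π g).1 b (σ b)) := by
  have e1 := eq_inv_of_mul_eq_one_left (so_mu (h.iso g) hσ a)
  have e2 := eq_inv_of_mul_eq_one_right (so_mu (h.iso g) hσ b)
  rw [Wl, Wl, m2_cj, h.m2_cjL p.l p.r hc hσ,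
    h.m2_cjL (c := -c⁻¹) p.r p.l (by rw [map_neg, map_inv₀, hc]) hσ, e1, e2, mul_inv, mul_inv,
    neg_mul, neg_mul, mul_right_comm c⁻¹]

/-- hint: `sw` and `sc`. -/
lemma E_sym (p : Pr k a b) (hc : φ c = c) :
    E (ev F a) (c • ev F b) = E (ev F b) ((-c) • ev F a) := by
  rw [h.sw _ _ (rt_ev p.l) ((rt_ev p.r).smul hc)
    (by rw [bt_ev_l, Pi.smul_apply, m2_ev0 (m2_ra p.nr), smul_zero]),
    h.sc c hc _ _ (rt_ev p.r) (rt_ev p.l).neg, smul_neg, neg_smul]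

lemma Wl_sym (p : Pr k a b) (hc : φ c = c) : Wl E a b c = Wl E b.rev a.rev (-c) := by
  rw [Wl, Wl, Fin.rev_rev, Fin.rev_rev, h.E_sym p.symm.rev.symm hc,
    h.E_sym (c := -c⁻¹) p.rev.symm (by rw [map_neg, map_inv₀, hc]), inv_neg]

omit h in
lemma m2_rt (hf : Rt φ k f) : Rt φ k ((qf f)⁻¹ • f) :=
  hf.smul (by rw [map_inv₀, hf.qf])

lemma Ws_vec (ha : ¬ Md k a) (hf : Mv φ k f) (h0 : f ≠ 0) (v : Fin m → F) :
    v ᵥ* (π (Ws E a f)).1 = v - (v a + (qf f)⁻¹ * v a.rev) • ev F a -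
      (v a.rev + qf f * v a) • ev F a.rev - (bt v f / qf f) • f := by
  have hN := h.mv_ne hf h0
  have h2 := two_qf h.par f
  have hn := md_ne h.lo ha
  have fa := hf.2 a ha
  have fr := hf.2 a.rev (mt md_rev.1 ha)
  have l1 := h.act a.rev (mt md_rev.1 ha) f hf.1 (by rw [Fin.rev_rev, fa])
  have l2 := h.act a ha _ (m2_rt hf.1) (by rw [Pi.smul_apply, fr, smul_zero])
  rw [Fin.rev_rev] at l1
  rw [Ws, m2_mul, m2_mul, l1, l2, l1]
  simp only [bt_add_l, bt_sub_l, bt_smul_l, bt_smul_r, bt_ev_l, Fin.rev_rev, Pi.add_apply,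
    Pi.sub_apply, Pi.smul_apply, smul_eq_mul, m2_ev1, m2_ev0 hn, fa, fr, qf_smul, h2]
  ext j
  simp only [Pi.add_apply, Pi.sub_apply, Pi.smul_apply, smul_eq_mul]
  field_simp
  ring

lemma m2_md {i j : Fin m} (hi : Md k i) (hj : Md k j) (hn : j ≠ i.rev) : j = i := by
  have := h.hi
  have h1 : (j : ℕ) ≠ (i.rev : ℕ) := fun e => hn (Fin.ext e)
  rw [Md, Fin.val_rev] at hi hj
  rw [Fin.val_rev] at h1
  apply Fin.ext
  omega

/-- hint: for a middle index `i`, `qf f` is `f i * f i / 2` or `f i * f i.rev`. -/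
lemma Ws_mon (ha : ¬ Md k a) (hf : Mv φ k f) (h0 : f ≠ 0) :
    IsMon (π (Ws E a f)).1 (sw0 k a) := by
  have hN := h.mv_ne hf h0
  have hn := md_ne h.lo ha
  have hr : ¬ Md k a.rev := mt md_rev.1 ha
  intro i j hj
  rw [← ev_vecMul i (π (Ws E a f)).1, h.Ws_vec ha hf h0, bt_ev_l]
  rw [sw0, Equiv.Perm.mul_apply] at hj
  simp only [Pi.sub_apply, Pi.smul_apply, smul_eq_mul]
  by_cases hi : Md k i
  · have n1 : a ≠ i := fun e => ha (e ▸ hi)
    have n2 : a.rev ≠ i := fun e => hr (e ▸ hi)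
    rw [tm_md hi, Equiv.swap_apply_of_ne_of_ne (m2_ra (Ne.symm n2)) (m2_rr n1.symm)] at hj
    rw [m2_ev0 n1, m2_ev0 n2]
    by_cases hj' : Md k j
    · obtain rfl := h.m2_md hi hj' hj
      have e : qf f = f j * f j.rev := qf_pair hj fun l l1 l2 => by
        rw [hf.2 l fun hm => l1 (h.m2_md hi hm l2), zero_mul]
      rw [m2_ev1]
      field_simp
      rw [e]
      ring
    · rw [hf.2 j hj', m2_ev0 (fun e : j = i => hj' (e ▸ hi))]
      ring
  · rw [tm_nd hi] at hj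
    rw [hf.2 i.rev (mt md_rev.1 hi)]
    by_cases e1 : i = a
    · subst e1
      rw [Equiv.swap_apply_left] at hj
      rw [m2_ev1, m2_ev0 hn.symm, m2_ev0 hj]
      ring
    by_cases e2 : i = a.rev
    · subst e2
      rw [Equiv.swap_apply_right] at hj
      rw [m2_ev1, m2_ev0 hn, m2_ev0 hj]
      ring
    rw [Equiv.swap_apply_of_ne_of_ne e1 e2] at hj
    rw [m2_ev0 (Ne.symm e1), m2_ev0 (Ne.symm e2), m2_ev0 hj]
    ring

lemma Ws_cj (ha : ¬ Md k a) (hf : Mv φ k f) {g : X} (hσ : IsMon (π g).1 σ) :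
    g⁻¹ * Ws E a f * g = Ws E (σ a) ((π g).1 a.rev (σ a).rev • (f ᵥ* (π g).1)) := by
  have e0 := so_mu (h.iso g) hσ a
  have e1 := eq_inv_of_mul_eq_one_left e0
  have e2 := right_ne_zero_of_mul_eq_one e0
  rw [Ws, Ws, m2_cj, h.E_cj hσ (mt md_rev.1 ha) hf.1, h.E_cj hσ ha (m2_rt hf.1),
    so_rev (h.iso g) hσ, smul_vecMul, qf_smul, (h.oq g).2, smul_smul, smul_smul, e1]
  congr 4
  rw [mul_inv, mul_inv]
  generalize (qf f)⁻¹ = t
  field_simp

/-- hint: `Wl E a b c * (Wl E a b 1)⁻¹`. -/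
lemma tor_ex (p : Pr k a b) (hc : φ c = c) (h0 : c ≠ 0) : ∃ s : X, ∀ i,
    ev F i ᵥ* (π s).1 = (if i = a then c else if i = b then c⁻¹ else
      if i = b.rev then c else if i = a.rev then c⁻¹ else 1) • ev F i := by
  refine ⟨Wl E a b c * (Wl E a b 1)⁻¹, fun i => ?_⟩
  have e : ev F i ᵥ* (π (Wl E a b c)).1 = ((if i = a then c else if i = b then c⁻¹ else
      if i = b.rev then c else if i = a.rev then c⁻¹ else 1) • ev F i) ᵥ*
        (π (Wl E a b 1)).1 := by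
    rw [smul_vecMul, h.Wl_ev p hc h0, h.Wl_ev p (map_one φ) one_ne_zero, smul_smul]
    congr 1
    split_ifs <;> simp
  rw [m2_mul, e, ← m2_mul, mul_inv_cancel, map_one]
  exact vecMul_one _

lemma m2_pr (ha : ¬ Md k a) : ∃ d, Pr k a d := by
  have h2 := h.k2
  have h3 := h.lo
  by_cases e : a = h.ix 0 ∨ a = (h.ix 0).rev
  · refine ⟨h.ix 1, ha, h.ix_nd 1, fun c => ?_, fun c => ?_⟩ <;> rcases e with e | e <;>
      have := congrArg Fin.val (c.symm.trans e) <;>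
      simp only [Fin.val_rev, h.ix_val] at this <;> omega
  · exact ⟨h.ix 0, ha, h.ix_nd 0, fun c => e (Or.inl c), fun c => e (Or.inr c)⟩

/-- hint: `tor_ex` for `a, d` and for `a, d.rev`, where `d` is a second index (`k2`). -/
lemma el_rng (ha : ¬ Md k a) (hne : a ≠ a.rev) {z : Fˣ} (hz : φ z = z) :
    el hne (z ^ 2) ∈ π.range := by
  obtain ⟨d, p⟩ := h.m2_pr ha
  obtain ⟨s, hs⟩ := h.tor_ex p hz z.ne_zero
  obtain ⟨t, ht⟩ := h.tor_ex p.rev hz z.ne_zero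
  have hd := md_ne h.lo p.r
  have n1 := m2_rr p.ne
  have n2 := m2_ra p.nr
  refine ⟨s * t, sl_ext fun i => ?_⟩
  rw [m2_mul, hs, smul_vecMul, ht, smul_smul, el_val, Fin.rev_rev, ev_vecMul]
  ext j
  rw [Pi.smul_apply, smul_eq_mul]
  by_cases e : j = i
  · subst e
    rw [m2_ev1, mul_one, diagonal_apply_eq]
    by_cases e1 : j = a
    · simp only [if_pos e1, sq, Units.val_mul]
    by_cases e2 : j = d
    · subst e2
      simp [e1, hd, n2.symm]
    by_cases e3 : j = d.rev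
    · subst e3
      simp [e1, e2, n1.symm]
    by_cases e4 : j = a.rev
    · simp only [if_neg e1, if_neg e2, if_neg e3, if_pos e4, Units.val_inv_eq_inv_val,
        sq, Units.val_mul, mul_inv]
    simp only [if_neg e1, if_neg e2, if_neg e3, if_neg e4, mul_one, Units.val_one]
  · rw [m2_ev0 e, mul_zero, diagonal_apply_ne _ (Ne.symm e)]

end Spn

end Pool.Agent.Lib.MP_1ae3da_al.JP
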