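import Pool.Agent.Lib.MP_1ae3da_al.P.M2

/-! The braid relations. -/

namespace Pool.Agent.Lib.MP_1ae3da_al.JP

open SLI Matrix JM

variable {F : Type} [Field F] {m k : ℕ} {φ : F →+* F} {X : Type} [Group X]
  {π : X →* SLm m F} {E : (Fin m → F) → (Fin m → F) → X} {σ : Equiv.Perm (Fin m)}
  {a b : Fin m} {c : F} {f v : Fin m → F}

/-- the entries of the lift of a long reflection. -/
def m2bMu (a b : Fin m) (c : F) (i : Fin m) : F :=
  if i = a then -c else if i = b then c⁻¹ else if i = b.rev then c else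
    if i = a.rev then -c⁻¹ else 1

lemma m2b_swap_rev (a i : Fin m) : Equiv.swap a a.rev i.rev = (Equiv.swap a a.rev i).rev := by
  by_cases h1 : i = a
  · rw [h1, Equiv.swap_apply_left, Equiv.swap_apply_right, Fin.rev_rev]
  by_cases h2 : i = a.rev
  · rw [h2, Fin.rev_rev, Equiv.swap_apply_left, Equiv.swap_apply_right]
  rw [Equiv.swap_apply_of_ne_of_ne h1 h2, Equiv.swap_apply_of_ne_of_ne
    (fun e => h2 (by rw [← e, Fin.rev_rev])) (fun e => h1 (Fin.rev_injective e))]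

lemma m2b_ev_swap (s t a : Fin m) : ev F a ∘ Equiv.swap s t = ev F (Equiv.swap s t a) := by
  ext j
  simp only [Function.comp_apply, Pi.single_apply, Equiv.swap_apply_eq_iff]

lemma m2b_smul_swap (s t a : Fin m) (c : F) :
    (c • ev F a) ∘ Equiv.swap s t = c • ev F (Equiv.swap s t a) := by
  rw [← m2b_ev_swap]
  rfl

/-- the index `i` is not moved by the long reflection. -/
def m2bOff (a b i : Fin m) : Prop := i ≠ a ∧ i ≠ b ∧ i ≠ a.rev ∧ i ≠ b.rev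

lemma m2bOff.rev {i : Fin m} (o : m2bOff a b i) : m2bOff a b i.rev :=
  ⟨fun e => o.2.2.1 (by rw [← e, Fin.rev_rev]), fun e => o.2.2.2 (by rw [← e, Fin.rev_rev]),
    Fin.rev_injective.ne o.1, Fin.rev_injective.ne o.2.1⟩

lemma m2bOff.sw {i : Fin m} (o : m2bOff a b i) : sw2 a b i = i := by
  rw [sw2, Equiv.Perm.mul_apply, Equiv.swap_apply_of_ne_of_ne o.2.2.1 o.2.2.2,
    Equiv.swap_apply_of_ne_of_ne o.1 o.2.1]

lemma m2bOff.mu {i : Fin m} (o : m2bOff a b i) : m2bMu a b c i = 1 := by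
  rw [m2bMu, if_neg o.1, if_neg o.2.1, if_neg o.2.2.2, if_neg o.2.2.1]

lemma m2b_off {i : Fin m} (p : Pr k i a) (q : Pr k i b) : m2bOff a b i := ⟨p.ne, q.ne, p.nr, q.nr⟩

lemma m2b_off_md {i : Fin m} (p : Pr k a b) (hi : Md k i) : m2bOff a b i :=
  ⟨fun e => p.l (e ▸ hi), fun e => p.r (e ▸ hi), fun e => p.l (md_rev.1 (e ▸ hi)),
    fun e => p.r (md_rev.1 (e ▸ hi))⟩

section vals
variable (lo : 2 * k ≤ m) (p : Pr k a b)
include lo p

lemma m2b_sw_l : sw2 a b a = b := by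
  rw [sw2, Equiv.Perm.mul_apply, Equiv.swap_apply_of_ne_of_ne (md_ne lo p.l) p.nr,
    Equiv.swap_apply_left]

lemma m2b_sw_r : sw2 a b b = a := by
  rw [sw2, Equiv.Perm.mul_apply, Equiv.swap_apply_of_ne_of_ne p.symm.nr (md_ne lo p.r),
    Equiv.swap_apply_right]

lemma m2b_sw_lr : sw2 a b a.rev = b.rev := by
  rw [sw2, Equiv.Perm.mul_apply, Equiv.swap_apply_left,
    Equiv.swap_apply_of_ne_of_ne p.nr.symm (md_ne lo p.r).symm]

lemma m2b_sw_rr : sw2 a b b.rev = a.rev := by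
  rw [sw2, Equiv.Perm.mul_apply, Equiv.swap_apply_right,
    Equiv.swap_apply_of_ne_of_ne (md_ne lo p.l).symm p.symm.nr.symm]

omit lo p in
lemma m2b_mu_l : m2bMu a b c a = -c := if_pos rfl

omit lo in
lemma m2b_mu_r : m2bMu a b c b = c⁻¹ := by rw [m2bMu, if_neg p.ne.symm, if_pos rfl]

lemma m2b_mu_rr : m2bMu a b c b.rev = c := by
  rw [m2bMu, if_neg p.nr.symm, if_neg (md_ne lo p.r).symm, if_pos rfl]

lemma m2b_mu_lr : m2bMu a b c a.rev = -c⁻¹ := by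
  rw [m2bMu, if_neg (md_ne lo p.l).symm, if_neg p.symm.nr.symm,
    if_neg (Fin.rev_injective.ne p.ne), if_pos rfl]

end vals

lemma m2b_mv_neg (hf : Mv φ k f) : Mv φ k (-f) :=
  ⟨hf.1.neg, fun i hi => by rw [Pi.neg_apply, hf.2 i hi, neg_zero]⟩

namespace Spn
variable (h : Spn φ k π E)
include h

lemma m2b_ev (p : Pr k a b) (hc : φ c = c) (h0 : c ≠ 0) (i : Fin m) :
    ev F i ᵥ* (π (Wl E a b c)).1 = m2bMu a b c i • ev F (sw2 a b i) := h.Wl_ev p hc h0 i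

lemma m2b_ent (p : Pr k a b) (hc : φ c = c) (h0 : c ≠ 0) (i : Fin m) :
    (π (Wl E a b c)).1 i (sw2 a b i) = m2bMu a b c i := (mon_of_ev (h.m2b_ev p hc h0)).2 i

lemma m2b_ll {a' b' : Fin m} {c' : F} (p : Pr k a b) (hc : φ c = c) (q : Pr k a' b')
    (hc' : φ c' = c') (h0 : c' ≠ 0) : (Wl E a' b' c')⁻¹ * Wl E a b c * Wl E a' b' c' =
      Wl E (sw2 a' b' a) (sw2 a' b' b) (c * m2bMu a' b' c' a.rev * m2bMu a' b' c' b) := by
  rw [h.Wl_cj p hc (h.Wl_mon q hc' h0), ← so_rev (h.iso _) (h.Wl_mon q hc' h0),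
    h.m2b_ent q hc' h0, h.m2b_ent q hc' h0]

lemma m2b_mid (p : Pr k a b) (hc : φ c = c) (h0 : c ≠ 0) (hf : Mv φ k f) :
    f ᵥ* (π (Wl E a b c)).1 = f := by
  ext j
  have e : ∀ i, f i * (π (Wl E a b c)).1 i j = f i * ev F i j := fun i => by
    by_cases hi : Md k i
    · rw [← ev_vecMul i (π (Wl E a b c)).1, h.m2b_ev p hc h0, (m2b_off_md p hi).sw,
        (m2b_off_md p hi).mu, one_smul]
    · rw [hf.2 i hi, zero_mul, zero_mul]
  rw [vecMul, dotProduct]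
  simp only [e]
  simp [Pi.single_apply]

lemma m2b_sl {d : Fin m} (hd : ¬ Md k d) (hf : Mv φ k f) (p : Pr k a b) (hc : φ c = c)
    (h0 : c ≠ 0) : (Wl E a b c)⁻¹ * Ws E d f * Wl E a b c =
      Ws E (sw2 a b d) (m2bMu a b c d.rev • f) := by
  rw [h.Ws_cj hd hf (h.Wl_mon p hc h0), ← so_rev (h.iso _) (h.Wl_mon p hc h0),
    h.m2b_ent p hc h0, h.m2b_mid p hc h0 hf]

lemma m2b_ss (p : Pr k a b) (hf : Mv φ k f) (h0 : f ≠ 0) :
    (Ws E a f)⁻¹ * Ws E b f * Ws E a f = Ws E b (-f) := by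
  have e1 : sw0 k a b = b := by
    rw [sw0, Equiv.Perm.mul_apply, tm_nd p.r, Equiv.swap_apply_of_ne_of_ne p.ne.symm p.symm.nr]
  have e2 : f ᵥ* (π (Ws E a f)).1 = -f := by
    rw [h.Ws_vec p.l hf h0, hf.2 a p.l, hf.2 a.rev (mt md_rev.1 p.l),
      two_qf h.par, mul_div_cancel_right₀ _ (h.mv_ne hf h0)]
    module
  have e3 : (π (Ws E a f)).1 b.rev b.rev = 1 := by
    rw [← ev_vecMul b.rev (π (Ws E a f)).1, h.Ws_vec p.l hf h0, bt_ev_l, Fin.rev_rev, hf.2 b p.r]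
    simp [Pi.single_eq_of_ne p.nr, Pi.single_eq_of_ne (Fin.rev_injective.ne p.ne)]
  rw [h.Ws_cj p.r hf (h.Ws_mon p.l hf h0), e1, e2, e3, one_smul]

lemma m2b_neg (ha : ¬ Md k a) (hf : Mv φ k f) (h0 : f ≠ 0) : π (Ws E a (-f)) = π (Ws E a f) :=
  sl_ext fun i => by
    rw [h.Ws_vec ha (m2b_mv_neg hf) (neg_ne_zero.2 h0), h.Ws_vec ha hf h0, qf_neg, bt_neg_r,
      neg_div, neg_smul, smul_neg, neg_neg]

lemma m2b_sq (p : Pr k a b) (hc : φ c = c) (h0 : c ≠ 0) (i : Fin m) :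
    ev F i ᵥ* (π (Wl E a b c * Wl E a b c)).1 =
      (if i = a ∨ i = a.rev ∨ i = b ∨ i = b.rev then (-1 : F) else 1) • ev F i := by
  have e : (π (Wl E a b c * Wl E a b c)).1 = (π (Wl E a b c)).1 * (π (Wl E a b c)).1 :=
    congrArg Subtype.val (map_mul π _ _)
  rw [e, ← vecMul_vecMul, h.m2b_ev p hc h0, smul_vecMul, h.m2b_ev p hc h0, smul_smul]
  split_ifs with hi
  · rcases hi with rfl | rfl | rfl | rfl
    · rw [m2b_sw_l h.lo p, m2b_sw_r h.lo p, m2b_mu_l, m2b_mu_r p, neg_mul, mul_inv_cancel₀ h0]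
    · rw [m2b_sw_lr h.lo p, m2b_sw_rr h.lo p, m2b_mu_lr h.lo p, m2b_mu_rr h.lo p, neg_mul,
        inv_mul_cancel₀ h0]
    · rw [m2b_sw_r h.lo p, m2b_sw_l h.lo p, m2b_mu_l, m2b_mu_r p, mul_neg, inv_mul_cancel₀ h0]
    · rw [m2b_sw_rr h.lo p, m2b_sw_lr h.lo p, m2b_mu_lr h.lo p, m2b_mu_rr h.lo p, mul_neg,
        mul_inv_cancel₀ h0]
  · push Not at hi
    have o : m2bOff a b i := ⟨hi.1, hi.2.2.1, hi.2.1, hi.2.2.2⟩
    rw [o.sw, o.sw, o.mu, mul_one]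

omit h in
lemma m2b_g {g : MulAut X} {d : Fin m} (hg : ∀ e f, Rt φ k e → Rt φ k f →
    g (E e f) = E (e ∘ Equiv.swap d d.rev) (f ∘ Equiv.swap d d.rev)) (p : Pr k a b) :
    g (Wl E a b 1) = Wl E (Equiv.swap d d.rev a) (Equiv.swap d d.rev b) 1 := by
  have h1 : φ (-(1 : F)⁻¹) = -(1 : F)⁻¹ := by simp
  rw [Wl, map_mul, map_mul, hg _ _ (rt_ev (mt md_rev.1 p.l)) ((rt_ev p.r).smul (map_one φ)),
    hg _ _ (rt_ev (mt md_rev.1 p.r)) ((rt_ev p.l).smul h1), m2b_ev_swap, m2b_ev_swap,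
    m2b_smul_swap, m2b_smul_swap, m2b_swap_rev, m2b_swap_rev, Wl]

lemma nB_pos {i : ℕ} (h0 : 0 < i) : h.nB i = Wl E (h.ix i) (h.ix (i - 1)) 1 := if_neg h0.ne'

lemma nD_pos {i : ℕ} (h0 : 0 < i) : h.nD i = h.nB i := (if_neg h0.ne').trans (h.nB_pos h0).symm

lemma m2b_one : h.nB 1 = Wl E (h.ix 1) (h.ix 0) 1 := h.nB_pos one_pos

lemma ix_pr {i j : ℕ} (hi : i < k) (hj : j < k) (hne : i ≠ j) : Pr k (h.ix i) (h.ix j) :=
  pr_of h.lo (by rw [ix_val]; omega) (by rw [ix_val]; omega) fun e => by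
    have := congrArg Fin.val e
    rw [ix_val, ix_val] at this
    omega

lemma nB_c1 (i j : ℕ) (h0 : 0 < i) (hij : i + 1 < j) (hj : j < k) :
    h.nB i * h.nB j = h.nB j * h.nB i := by
  have o1 := m2b_off (h.ix_pr (i := i) (j := j) (by omega) hj (by omega))
    (h.ix_pr (j := j - 1) (by omega) (by omega) (by omega))
  have o2 := m2b_off (h.ix_pr (i := i - 1) (j := j) (by omega) hj (by omega))
    (h.ix_pr (j := j - 1) (by omega) (by omega) (by omega))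
  have e := h.m2b_ll (h.ix_pr (i := i) (j := i - 1) (by omega) (by omega) (by omega)) (map_one φ)
    (h.ix_pr (i := j) (j := j - 1) hj (by omega) (by omega)) (map_one φ) one_ne_zero
  rw [o1.sw, o2.sw, o1.rev.mu, o2.mu, mul_one, mul_one, mul_assoc, inv_mul_eq_iff_eq_mul] at e
  rw [h.nB_pos h0, h.nB_pos (by omega : 0 < j), e]

lemma nB_b3 (i : ℕ) (h0 : 0 < i) (hi : i + 1 < k) :
    h.nB i * h.nB (i + 1) * h.nB i = h.nB (i + 1) * h.nB i * h.nB (i + 1) := by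
  have p10 := h.ix_pr (i := i) (j := i - 1) (by omega) (by omega) (by omega)
  have p21 := h.ix_pr (i := i + 1) (j := i) hi (by omega) (by omega)
  have p20 := h.ix_pr (i := i + 1) (j := i - 1) hi (by omega) (by omega)
  have e1 := h.m2b_ll p21 (map_one φ) p10 (map_one φ) one_ne_zero
  rw [(m2b_off p21 p20).sw, m2b_sw_l h.lo p10, (m2b_off p21 p20).rev.mu, m2b_mu_l, mul_one,
    one_mul] at e1
  have e2 := h.m2b_ll p20 (c := -1) (by simp) p21 (map_one φ) one_ne_zero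
  rw [m2b_sw_l h.lo p21, (m2b_off p20.symm p10.symm).sw, (m2b_off p20.symm p10.symm).mu,
    m2b_mu_lr h.lo p21, mul_one, inv_one, neg_mul_neg, mul_one, ← e1] at e2
  rw [h.nB_pos h0, h.nB_pos i.succ_pos, Nat.succ_sub_one]
  conv_lhs => enter [2]; rw [← e2]
  group

lemma m2b_01 (hf : Mv φ k f) : (h.nB 1)⁻¹ * Ws E (h.ix 0) f * h.nB 1 = Ws E (h.ix 1) f := by
  have p := h.ix_pr (i := 1) (j := 0) h.k2 (by have := h.k2; omega) one_ne_zero
  rw [h.m2b_one, h.m2b_sl p.r hf p (map_one φ) one_ne_zero, m2b_sw_r h.lo p,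
    m2b_mu_rr h.lo p, one_smul]

lemma m2b_10 (hf : Mv φ k f) : (h.nB 1)⁻¹ * Ws E (h.ix 1) f * h.nB 1 = Ws E (h.ix 0) (-f) := by
  have p := h.ix_pr (i := 1) (j := 0) h.k2 (by have := h.k2; omega) one_ne_zero
  rw [h.m2b_one, h.m2b_sl p.l hf p (map_one φ) one_ne_zero, m2b_sw_l h.lo p,
    m2b_mu_lr h.lo p, inv_one, neg_smul, one_smul]

lemma nB_br (hm : 2 * k < m) : Br k h.nB := by
  have e0 : h.nB 0 = Ws E (h.ix 0) (f0 F k) := if_pos rfl
  refine ⟨fun i j hij hj => ?_, h.nB_b3, fun h1 => ?_⟩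
  · rcases Nat.eq_zero_or_pos i with rfl | h0
    swap
    · exact h.nB_c1 i j h0 hij hj
    have o := m2b_off (h.ix_pr (i := 0) (j := j) (by omega) hj (by omega))
      (h.ix_pr (j := j - 1) (by omega) (by omega) (by omega))
    have e := h.m2b_sl (h.ix_nd 0) mv_f0 (h.ix_pr (i := j) (j := j - 1) hj (by omega) (by omega))
      (map_one φ) one_ne_zero
    rw [o.sw, o.rev.mu, one_smul, mul_assoc, inv_mul_eq_iff_eq_mul] at e
    rw [e0, h.nB_pos (by omega : 0 < j), e]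
  · have e1 := h.m2b_10 (m2b_mv_neg mv_f0)
    rw [neg_neg, ← h.m2b_ss (h.ix_pr (i := 0) (j := 1) (by omega) h1 zero_ne_one) mv_f0 (f0_ne hm),
      ← h.m2b_01 mv_f0, ← e0] at e1
    conv_rhs => enter [2]; rw [← e1]
    group

/-- hint: conjugation by `nB 1 * nB 1` sends `Ws a f` to `Ws a (-f)`, which has the same image
by `Ws_vec`. -/
lemma nB_cen (hm : 2 * k < m) :
    π (h.nB 1 * h.nB 1 * h.nB 0 * (h.nB 1 * h.nB 1)⁻¹ * (h.nB 0)⁻¹) = 1 := by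
  have e0 : h.nB 0 = Ws E (h.ix 0) (f0 F k) := if_pos rfl
  have e1 := h.m2b_10 (m2b_mv_neg mv_f0)
  rw [neg_neg, ← h.m2b_01 (m2b_mv_neg mv_f0), ← e0] at e1
  have e2 : h.nB 1 * h.nB 1 * h.nB 0 * (h.nB 1 * h.nB 1)⁻¹ = Ws E (h.ix 0) (-f0 F k) := by
    rw [← e1]
    group
  rw [e2, map_mul, h.m2b_neg (h.ix_nd 0) mv_f0 (f0_ne hm), ← e0, map_inv, mul_inv_cancel]

/-- hint: `Wl_cj` and `Wl_sym`. -/
lemma nD_c0 : h.nD 0 * h.nD 1 = h.nD 1 * h.nD 0 := by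
  have p := h.ix_pr (i := 1) (j := 0) h.k2 (by have := h.k2; omega) one_ne_zero
  have e0 : h.nD 0 = Wl E (h.ix 1) (h.ix 0).rev 1 := if_pos rfl
  have e := h.m2b_ll p.rev (map_one φ) p (map_one φ) one_ne_zero
  rw [m2b_sw_l h.lo p, m2b_sw_rr h.lo p, m2b_mu_lr h.lo p, m2b_mu_rr h.lo p, mul_one, one_mul,
    inv_one, h.Wl_sym p.symm.rev (c := -1) (by simp), Fin.rev_rev, neg_neg, mul_assoc,
    inv_mul_eq_iff_eq_mul] at e
  rw [e0, h.nD_pos one_pos, h.m2b_one, e]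

lemma nD_cen : π (h.nD 1 * h.nD 1 * (h.nD 0 * h.nD 0)⁻¹) = 1 := by
  have p := h.ix_pr (i := 1) (j := 0) h.k2 (by have := h.k2; omega) one_ne_zero
  have e0 : h.nD 0 = Wl E (h.ix 1) (h.ix 0).rev 1 := if_pos rfl
  rw [map_mul, map_inv, mul_inv_eq_one, e0, h.nD_pos one_pos, h.m2b_one]
  refine sl_ext fun i => ?_
  rw [h.m2b_sq p (map_one φ) one_ne_zero, h.m2b_sq p.rev (map_one φ) one_ne_zero, Fin.rev_rev]
  simp only [or_comm (a := i = (h.ix 0).rev)]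

/-- hint: `gr` at `ix 0`. -/
lemma nD_g : ∃ g : MulAut X, (∀ x, g (g x) = x) ∧
    (∀ x i j, (π (g x)).1 i j =
      (π x).1 (Equiv.swap (h.ix 0) (h.ix 0).rev i) (Equiv.swap (h.ix 0) (h.ix 0).rev j)) ∧
    g (h.nD 1) = h.nD 0 ∧ ∀ i, 2 ≤ i → i < k → g (h.nD i) = h.nD i := by
  obtain ⟨g, g1, g2, g3⟩ := h.gr (h.ix 0) (h.ix_nd 0)
  have k0 : 0 < k := by have := h.k2; omega
  refine ⟨g, g1, g2, ?_, fun i h2 hi => ?_⟩
  · have p := h.ix_pr (i := 1) (j := 0) h.k2 k0 one_ne_zero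
    rw [h.nD_pos one_pos, h.m2b_one, m2b_g g3 p, Equiv.swap_apply_left,
      Equiv.swap_apply_of_ne_of_ne p.ne p.nr]
    exact (if_pos rfl).symm
  · have p := h.ix_pr (i := i) (j := 0) hi k0 (by omega)
    have q := h.ix_pr (i := i - 1) (j := 0) (by omega) k0 (by omega)
    rw [h.nD_pos (by omega : 0 < i), h.nB_pos (by omega : 0 < i),
      m2b_g g3 (h.ix_pr hi (by omega) (by omega)), Equiv.swap_apply_of_ne_of_ne p.ne p.nr,
      Equiv.swap_apply_of_ne_of_ne q.ne q.nr]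

end Spn

end Pool.Agent.Lib.MP_1ae3da_al.JP
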