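import Pool.Agent.Lib.MP_1ae3da_al.P.Df

/-! The Weyl groups as groups of permutations. -/

namespace Pool.Agent.Lib.MP_1ae3da_al.JP

open SLI

variable {m k : ℕ} {σ : Equiv.Perm (Fin m)} {a b : Fin m}

lemma m4_sw2 (lo : 2 * k ≤ m) (p : Pr k a b) (i : Fin m) :
    (i = a ∧ sw2 a b i = b) ∨ (i = b ∧ sw2 a b i = a) ∨ (i = a.rev ∧ sw2 a b i = b.rev) ∨
      (i = b.rev ∧ sw2 a b i = a.rev) ∨
      (i ≠ a ∧ i ≠ b ∧ i ≠ a.rev ∧ i ≠ b.rev ∧ sw2 a b i = i) := by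
  have h1 := md_ne lo p.l
  have h2 := md_ne lo p.r
  have h3 := p.ne
  have h4 := p.nr
  simp only [sw2, Equiv.Perm.mul_apply, Equiv.swap_apply_def, ne_eq, Fin.ext_iff, Fin.val_rev,
    apply_ite Fin.val] at *
  split_ifs <;> omega

lemma m4_lr (lo : 2 * k ≤ m) (p : Pr k a b) :
    sw2 a b a = b ∧ sw2 a b b = a ∧ sw2 a b b.rev = a.rev := by
  have h : ∀ i, (i = a → sw2 a b i = b) ∧ (i = b → sw2 a b i = a) ∧
      (i = b.rev → sw2 a b i = a.rev) := fun i => by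
    have h0 := m4_sw2 lo p i
    have h1 := md_ne lo p.l
    have h2 := md_ne lo p.r
    have h3 := p.ne
    have h4 := p.nr
    simp only [ne_eq, Fin.ext_iff, Fin.val_rev] at *
    omega
  exact ⟨(h _).1 rfl, (h _).2.1 rfl, (h _).2.2 rfl⟩

lemma m4_sw0 (ha : ¬ Md k a) (i : Fin m) :
    (i = a ∧ sw0 k a i = a.rev) ∨ (i = a.rev ∧ sw0 k a i = a) ∨
      (Md k i ∧ sw0 k a i = i.rev) ∨ (i ≠ a ∧ i ≠ a.rev ∧ ¬ Md k i ∧ sw0 k a i = i) := by
  rw [sw0, Equiv.Perm.mul_apply]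
  by_cases h : Md k i
  · rw [tm_md h, Equiv.swap_apply_of_ne_of_ne (ne_of_apply_ne (Md k) (by simp [md_rev, h, ha]))
      (ne_of_apply_ne (Md k) (by simp [md_rev, h, ha]))]
    exact .inr (.inr (.inl ⟨h, rfl⟩))
  · rw [tm_nd h]
    by_cases e : i = a
    · exact .inl ⟨e, e ▸ Equiv.swap_apply_left _ _⟩
    · by_cases e' : i = a.rev
      · exact .inr (.inl ⟨e', e' ▸ Equiv.swap_apply_right _ _⟩)
      · exact .inr (.inr (.inr ⟨e, e', h, Equiv.swap_apply_of_ne_of_ne e e'⟩))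

lemma m4_swap (a i : Fin m) : Equiv.swap a a.rev i.rev = (Equiv.swap a a.rev i).rev := by
  simp only [Equiv.swap_apply_def, Fin.ext_iff, Fin.val_rev, apply_ite Fin.val]
  split_ifs <;> omega

lemma m4_two {i j : Fin m} (hi : m ≤ 2 * k + 2) (h1 : Md k i) (h2 : Md k j) (ne : i ≠ j)
    {τ : Equiv.Perm (Fin m)} (h : ∀ x, Md k (τ x) ↔ Md k x) (h3 : ∀ x, ¬ Md k x → τ x = x)
    (e : τ i = j) : Even m ∧ Equiv.Perm.sign τ = -1 := by
  have key : ∀ x, Md k x → x = i ∨ x = j := fun x hx => by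
    simp only [Md, ne_eq, Fin.ext_iff, Fin.val_rev] at *
    omega
  refine ⟨⟨k + 1, ?_⟩, ?_⟩
  · simp only [Md, ne_eq, Fin.ext_iff, Fin.val_rev] at h1 h2 ne
    omega
  · rw [← Equiv.Perm.sign_swap ne]
    congr 1
    ext1 x
    by_cases hx : Md k x
    · rcases key x hx with rfl | rfl
      · rw [e, Equiv.swap_apply_left]
      · rw [Equiv.swap_apply_right]
        exact (key _ ((h x).2 hx)).resolve_right fun c => ne (τ.injective (e.trans c.symm))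
    · rw [h3 x hx, Equiv.swap_apply_of_ne_of_ne (ne_of_apply_ne (Md k) (by simp [hx, h1]))
        (ne_of_apply_ne (Md k) (by simp [hx, h2]))]

lemma m4_fix (t : ℕ) (ht : t ≤ m) (h1 : ∀ a b : Fin m, (a : ℕ) + 1 = b → (b : ℕ) < t → σ a < σ b)
    (h2 : ∀ a : Fin m, (a : ℕ) + 1 = t → (σ a : ℕ) < t) (a : Fin m) (ha : (a : ℕ) < t) :
    σ a = a := by
  have up : ∀ j, ∀ a : Fin m, (a : ℕ) = j → j < t → j ≤ σ a := by
    intro j
    induction j with
    | zero => exact fun _ _ _ => Nat.zero_le _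
    | succ j ih =>
      intro a e l
      have i1 := ih ⟨j, by omega⟩ rfl (by omega)
      have i2 := Fin.lt_def.1 (h1 ⟨j, by omega⟩ a e.symm (by omega))
      omega
  have dn : ∀ j, ∀ a : Fin m, (a : ℕ) + j + 1 = t → (σ a : ℕ) ≤ a := by
    intro j
    induction j with
    | zero => exact fun a e => by have := h2 a e; omega
    | succ j ih =>
      intro a e
      have i1 := ih ⟨a + 1, by omega⟩ (by simp only; omega)
      have i2 := Fin.lt_def.1 (h1 a ⟨a + 1, by omega⟩ rfl (by simp only; omega))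
      simp only at i1
      omega
  exact Fin.ext (le_antisymm (dn (t - 1 - a) a (by omega)) (up _ a rfl ha))

lemma m4_nd (h0 : ∀ i, σ i.rev = (σ i).rev) (h : ∀ a : Fin m, (a : ℕ) < k → σ a = a) (i : Fin m)
    (hi : ¬ Md k i) : σ i = i := by
  by_cases c : (i : ℕ) < k
  · exact h i c
  · refine Fin.rev_injective ((h0 i).symm.trans (h _ ?_))
    rw [Md] at hi
    omega

/-- the potential -/
def m4P (k : ℕ) (σ : Equiv.Perm (Fin m)) : ℕ := ∑ i : Fin m, (k - i) * (σ i : ℕ)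

lemma m4_lt {τ : Equiv.Perm (Fin m)} (e : (a : ℕ) + 1 = b)
    (h1 : ∀ i : Fin m, (i : ℕ) < k → i ≠ a → i ≠ b → τ i = σ i)
    (h2 : (k - a) * (τ a : ℕ) + (k - b) * (τ b : ℕ) < (k - a) * (σ a : ℕ) + (k - b) * (σ b : ℕ)) :
    m4P k τ < m4P k σ := by
  have ne : b ∈ Finset.univ.erase a := Finset.mem_erase.2
    ⟨fun c => by rw [c] at e; omega, Finset.mem_univ _⟩
  rw [m4P, m4P, ← Finset.add_sum_erase _ _ (Finset.mem_univ a),
    ← Finset.add_sum_erase _ _ (Finset.mem_univ a), ← Finset.add_sum_erase _ _ ne,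
    ← Finset.add_sum_erase _ _ ne, ← add_assoc, ← add_assoc]
  refine add_lt_add_of_lt_of_le h2 (Finset.sum_congr rfl fun i hi => ?_).le
  by_cases c : (i : ℕ) < k
  · rw [h1 i c (Finset.mem_erase.1 (Finset.mem_erase.1 hi).2).1 (Finset.mem_erase.1 hi).1]
  · rw [Nat.sub_eq_zero_of_le (not_lt.1 c), zero_mul, zero_mul]

lemma m4_gen (G : Subgroup (Equiv.Perm (Fin m)))
    (h : ∀ σ ∈ WW m k, σ ≠ 1 → ∃ s ∈ G, s ∈ WW m k ∧ m4P k (σ * s) < m4P k σ) : WW m k ≤ G := by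
  intro σ hσ
  induction hn : m4P k σ using Nat.strong_induction_on generalizing σ with
  | _ n ih =>
    by_cases e : σ = 1
    · exact e ▸ one_mem _
    · obtain ⟨s, s1, s2, s3⟩ := h σ hσ e
      exact (Subgroup.mul_mem_cancel_right G s1).1 (ih _ (hn ▸ s3) (mul_mem hσ s2) rfl)

lemma m4_pr (lo : 2 * k ≤ m) (e : (a : ℕ) + 1 = b) (l : (b : ℕ) < k) : Pr k a b := by
  refine ⟨?_, ?_, ?_, ?_⟩ <;> simp only [Md, ne_eq, Fin.ext_iff, Fin.val_rev] <;> omega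

lemma m4_adj (lo : 2 * k ≤ m) (e : (a : ℕ) + 1 = b) (l : (b : ℕ) < k) (h : ¬ σ a < σ b) :
    m4P k (σ * sw2 a b) < m4P k σ := by
  have p := m4_pr lo e l
  have sp := m4_sw2 lo p
  have h' : (σ b : ℕ) < σ a :=
    lt_of_le_of_ne (not_lt.1 h) (Fin.val_ne_of_ne (σ.injective.ne p.ne.symm))
  obtain ⟨e1, e2, -⟩ := m4_lr lo p
  refine m4_lt e (fun i c c1 c2 => congrArg σ ?_) ?_
  · have := sp i
    simp only [ne_eq, Fin.ext_iff, Fin.val_rev] at this c1 c2 ⊢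
    omega
  · rw [Equiv.Perm.mul_apply, Equiv.Perm.mul_apply, e1, e2, show k - a = k - b + 1 by omega]
    nlinarith

lemma m4_os (D : Subgroup (Equiv.Perm (Fin m))) (c : Fin m) :
    Nat.card (MulAction.stabilizer (Equiv.Perm (Fin m)) c ⊓ D : Subgroup _) *
      (MulAction.orbit D c).ncard = Nat.card D := by
  rw [← MulAction.index_stabilizer, ← Subgroup.card_mul_index (MulAction.stabilizer D c),
    ← Nat.card_congr (Subgroup.subgroupOfEquivOfLe inf_le_right).toEquiv,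
    Subgroup.inf_subgroupOf_right]
  rfl

lemma m4_cen {σ : Equiv.Perm (Fin m)} :
    σ ∈ Subgroup.centralizer {Fin.revPerm} ↔ ∀ i, σ i.rev = (σ i).rev := by
  rw [Subgroup.mem_centralizer_singleton_iff]
  exact ⟨fun h i => Equiv.congr_fun h i, fun h => Equiv.ext h⟩

lemma sw2_mem (lo : 2 * k ≤ m) (p : Pr k a b) : sw2 a b ∈ WW m k := by
  have sp := m4_sw2 lo p
  refine ⟨fun i => ?_, fun i => ?_, fun _ => ?_⟩
  · have h1 := sp i
    have h2 := sp i.rev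
    have h3 := p.ne
    have h4 := p.nr
    have h5 := md_ne lo p.l
    have h6 := md_ne lo p.r
    simp only [ne_eq, Fin.ext_iff, Fin.val_rev] at h1 h2 h3 h4 h5 h6 ⊢
    omega
  · have h1 := p.l
    have h2 := p.r
    rcases sp i with ⟨rfl, e⟩ | ⟨rfl, e⟩ | ⟨rfl, e⟩ | ⟨rfl, e⟩ | ⟨-, -, -, -, e⟩ <;>
      simp only [e, md_rev, h1, h2]
  · rw [sw2, map_mul, Equiv.Perm.sign_swap p.ne, Equiv.Perm.sign_swap (Fin.rev_injective.ne p.ne),
      Int.units_mul_self]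

lemma sw0_mem (lo : 2 * k < m) (hi : m ≤ 2 * k + 2) (ha : ¬ Md k a) : sw0 k a ∈ WW m k := by
  have mt : ∀ x : Fin m, Md k (tm k x) ↔ Md k x := fun x => by
    by_cases c : Md k x
    · rw [tm_md c, md_rev]
    · rw [tm_nd c]
  refine ⟨fun i => ?_, fun i => ?_, fun e => ?_⟩
  · rw [sw0, Equiv.Perm.mul_apply, Equiv.Perm.mul_apply, tm_rev, m4_swap]
  · rcases m4_sw0 ha i with ⟨rfl, e⟩ | ⟨rfl, e⟩ | ⟨-, e⟩ | ⟨-, -, -, e⟩ <;> simp only [e, md_rev]
  · obtain ⟨j, hj⟩ := e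
    have c : Md k (⟨k, by omega⟩ : Fin m) := ⟨le_rfl, by rw [Fin.val_rev]; simp only; omega⟩
    rw [sw0, map_mul, Equiv.Perm.sign_swap (md_ne lo.le ha), (m4_two hi c (md_rev.2 c) (fun x => by
      have := congrArg Fin.val x
      rw [Fin.val_rev] at this
      simp only at this
      omega) mt (fun _ => tm_nd) (tm_md c)).2, Int.units_mul_self]

lemma sw2_sq (lo : 2 * k ≤ m) (p : Pr k a b) : sw2 a b * sw2 a b = 1 := by
  ext1 i
  have h1 := m4_sw2 lo p i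
  have h2 := m4_sw2 lo p (sw2 a b i)
  have h3 := p.ne
  have h4 := p.nr
  have h5 := md_ne lo p.l
  have h6 := md_ne lo p.r
  rw [Equiv.Perm.mul_apply, Equiv.Perm.one_apply]
  simp only [ne_eq, Fin.ext_iff, Fin.val_rev] at h1 h2 h3 h4 h5 h6 ⊢
  omega

lemma sw0_sq (ha : ¬ Md k a) : sw0 k a * sw0 k a = 1 := by
  ext1 i
  have h1 := m4_sw0 ha i
  have h2 := m4_sw0 ha (sw0 k a i)
  rw [Equiv.Perm.mul_apply, Equiv.Perm.one_apply]
  simp only [Md, ne_eq, Fin.ext_iff, Fin.val_rev] at h1 h2 ha ⊢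
  omega

lemma ww_id (hi : m ≤ 2 * k + 2) (hσ : σ ∈ WW m k) (h : ∀ i, ¬ Md k i → σ i = i) : σ = 1 := by
  ext1 i
  by_contra c
  have h1 : Md k i := not_not.1 fun x => c (h i x)
  obtain ⟨e1, e2⟩ := m4_two hi h1 ((hσ.2.1 i).2 h1) (Ne.symm c) hσ.2.1 h rfl
  rw [hσ.2.2 e1] at e2
  exact absurd e2 (by decide)

lemma nodB (lo : 2 * k ≤ m) (hi : m ≤ 2 * k + 2) (hσ : σ ∈ WW m k)
    (h1 : ∀ a b : Fin m, (a : ℕ) + 1 = b → (b : ℕ) < k → σ a < σ b)
    (h2 : ∀ a : Fin m, (a : ℕ) + 1 = k → σ a < σ a.rev) : σ = 1 := by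
  refine ww_id hi hσ (m4_nd hσ.1 (m4_fix k (by omega) h1 fun a e => ?_))
  have h3 := h2 a e
  have h4 := hσ.2.1 a
  rw [hσ.1] at h3
  simp only [Md, Fin.lt_def, Fin.val_rev] at h3 h4
  omega

lemma nodD (hm : m = 2 * k) (hσ : σ ∈ WW m k)
    (h1 : ∀ a b : Fin m, (a : ℕ) + 1 = b → (b : ℕ) < k → σ a < σ b)
    (h2 : ∀ a b : Fin m, (a : ℕ) + 1 = b → (b : ℕ) + 1 = k → σ a < σ b.rev) : σ = 1 := by
  have h3 := m4_nd hσ.1 (m4_fix (k - 1) (by omega) (fun a b e l => h1 a b e (by omega))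
    fun a e => by
      have h3 := h1 a ⟨a + 1, by omega⟩ rfl (by simp only; omega)
      have h4 := h2 a ⟨a + 1, by omega⟩ rfl (by simp only; omega)
      rw [hσ.1] at h4
      simp only [Fin.lt_def, Fin.val_rev] at h3 h4
      omega)
  refine ww_id (k := k - 1) (by omega) ⟨hσ.1, fun i => not_iff_not.1 ⟨fun c => ?_, fun c => ?_⟩,
    hσ.2.2⟩ h3
  · rwa [← σ.injective (h3 _ c)]
  · rwa [h3 i c]

lemma genB (lo : 2 * k < m) (hi : m ≤ 2 * k + 2) (G : Subgroup (Equiv.Perm (Fin m)))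
    (h1 : ∀ a b : Fin m, (a : ℕ) + 1 = b → (b : ℕ) < k → sw2 a b ∈ G)
    (h2 : ∀ a : Fin m, (a : ℕ) + 1 = k → sw0 k a ∈ G) : WW m k ≤ G := by
  refine m4_gen G fun σ hσ ne => ?_
  by_contra hc
  refine ne (nodB lo.le hi hσ (fun a b e l => ?_) fun a e => ?_) <;> by_contra c
  · exact hc ⟨_, h1 a b e l, sw2_mem lo.le (m4_pr lo.le e l), m4_adj lo.le e l c⟩
  · have ha : ¬ Md k a := fun x => by have := x.1; omega
    refine hc ⟨_, h2 a e, sw0_mem lo hi ha, Finset.sum_lt_sum (fun i _ => ?_)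
      ⟨a, Finset.mem_univ _, ?_⟩⟩
    · rw [Equiv.Perm.mul_apply]
      rcases m4_sw0 ha i with ⟨rfl, e⟩ | ⟨rfl, -⟩ | ⟨e, -⟩ | ⟨-, -, -, e⟩
      · rw [e]
        exact Nat.mul_le_mul_left _ (not_lt.1 c)
      · rw [Nat.sub_eq_zero_of_le (by rw [Fin.val_rev]; omega), zero_mul, zero_mul]
      · rw [Nat.sub_eq_zero_of_le e.1, zero_mul, zero_mul]
      · rw [e]
    · rw [sw0, Equiv.Perm.mul_apply, Equiv.Perm.mul_apply, tm_nd ha, Equiv.swap_apply_left]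
      exact Nat.mul_lt_mul_of_pos_left (lt_of_le_of_ne (not_lt.1 c)
        (Fin.val_ne_of_ne (σ.injective.ne (md_ne lo.le ha).symm))) (by omega)

lemma genD (hm : m = 2 * k) (G : Subgroup (Equiv.Perm (Fin m)))
    (h1 : ∀ a b : Fin m, (a : ℕ) + 1 = b → (b : ℕ) < k → sw2 a b ∈ G)
    (h2 : ∀ a b : Fin m, (a : ℕ) + 1 = b → (b : ℕ) + 1 = k → sw2 a b.rev ∈ G) :
    WW m k ≤ G := by
  refine m4_gen G fun σ hσ ne => ?_
  by_contra hc
  refine ne (nodD hm hσ (fun a b e l => ?_) fun a b e l => ?_) <;> by_contra c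
  · exact hc ⟨_, h1 a b e l, sw2_mem hm.ge (m4_pr hm.ge e l), m4_adj hm.ge e l c⟩
  · have p : Pr k a b.rev := by
      refine ⟨?_, ?_, ?_, ?_⟩ <;> simp only [Md, ne_eq, Fin.ext_iff, Fin.val_rev] <;> omega
    have sp := m4_sw2 hm.ge p
    obtain ⟨e1, -, e2⟩ := m4_lr hm.ge p
    rw [Fin.rev_rev] at e2
    refine hc ⟨_, h2 a b e l, sw2_mem hm.ge p, m4_lt e (fun i c c1 c2 => congrArg σ ?_) ?_⟩
    · have := sp i
      simp only [ne_eq, Fin.ext_iff, Fin.val_rev] at this c1 c2 ⊢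
      omega
    · have h3 := Fin.val_ne_of_ne (σ.injective.ne p.ne)
      rw [Equiv.Perm.mul_apply, Equiv.Perm.mul_apply, e1, e2, show k - a = 2 by omega,
        show k - b = 1 by omega, hσ.1 a, hσ.1 b]
      rw [hσ.1 b] at c h3
      simp only [Fin.lt_def, Fin.val_rev] at c h3 ⊢
      omega

lemma cardD (hm : m = 2 * k) (hk : 1 ≤ k) : Nat.card (WW m k) = 2 ^ (k - 1) * k.factorial := by
  have e1 : WW m k = Equiv.Perm.sign.ker ⊓ Subgroup.centralizer {Fin.revPerm} := by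
    ext σ
    refine ⟨fun h => ⟨h.2.2 ⟨k, by omega⟩, m4_cen.2 h.1⟩,
      fun h => ⟨m4_cen.1 h.2, fun i => ?_, fun _ => h.1⟩⟩
    simp only [Md, Fin.val_rev]
    omega
  have e2 : (Subgroup.centralizer {Fin.revPerm (n := m)}).map Equiv.Perm.sign = ⊤ := by
    refine eq_top_iff.2 fun e _ => ?_
    rcases Int.units_eq_one_or e with rfl | rfl
    · exact one_mem _
    · have ha : ¬ Md k (⟨0, by omega⟩ : Fin m) := fun x => by have := x.1; simp only at this; omega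
      exact ⟨_, m4_cen.2 (m4_swap _), Equiv.Perm.sign_swap (md_ne hm.ge ha)⟩
  have e3 := Subgroup.card_mul_index
    (Equiv.Perm.sign.ker.subgroupOf (Subgroup.centralizer {Fin.revPerm (n := m)}))
  rw [← Subgroup.relIndex, Subgroup.relIndex_ker, e2, Subgroup.card_top,
    Nat.card_eq_fintype_card (α := ℤˣ), Fintype.card_units_int, card_cen,
    ← Subgroup.inf_subgroupOf_right,
    Nat.card_congr (Subgroup.subgroupOfEquivOfLe inf_le_right).toEquiv, ← e1,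
    show m / 2 = k - 1 + 1 by omega, pow_succ, Nat.sub_add_cancel hk] at e3
  nlinarith

lemma cardB (lo : 2 * k < m) (hi : m ≤ 2 * k + 2) (hk : 1 ≤ k) :
    Nat.card (WW m k) = 2 ^ k * k.factorial := by
  rcases (show m = 2 * k + 1 ∨ m = 2 * (k + 1) by omega) with hm | hm
  · have e1 : WW m k = Subgroup.centralizer {Fin.revPerm} := by
      ext σ
      refine ⟨fun h => m4_cen.2 h.1, fun h => ⟨m4_cen.1 h, fun i => ?_, fun ⟨j, e⟩ => by omega⟩⟩
      have h1 := (σ.injective.eq_iff (a := i.rev) (b := i))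
      rw [m4_cen.1 h] at h1
      simp only [Md, Fin.ext_iff, Fin.val_rev] at h1 ⊢
      omega
    rw [e1, card_cen, show m / 2 = k by omega]
  have nm : ∀ i : Fin m, ¬ Md (k + 1) i := fun i => by
    simp only [Md, Fin.val_rev]
    omega
  obtain ⟨c, hc⟩ : ∃ c : Fin m, (c : ℕ) = k := ⟨⟨k, by omega⟩, rfl⟩
  have md : ∀ i : Fin m, Md k i ↔ i = c ∨ i = c.rev := fun i => by
    simp only [Md, Fin.ext_iff, Fin.val_rev]
    omega
  have le : WW m k ≤ WW m (k + 1) := fun σ h => ⟨h.1, fun i => iff_of_false (nm _) (nm _), h.2.2⟩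
  have ha : ¬ Md k (⟨0, by omega⟩ : Fin m) := fun x => by have := x.1; simp only at this; omega
  have s0 := sw0_mem lo hi ha
  have s1 : sw0 k ⟨0, by omega⟩ c = c.rev := by
    have mc := (md c).2 (.inl rfl)
    rcases m4_sw0 ha c with ⟨e, -⟩ | ⟨e, -⟩ | ⟨-, e⟩ | ⟨-, -, e, -⟩
    exacts [absurd (e ▸ mc) ha, absurd (md_rev.1 (e ▸ mc)) ha, e, absurd mc e]
  have o1 : MulAction.orbit (WW m (k + 1)) c = Set.univ := by
    refine Set.eq_univ_of_forall fun x => ?_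
    by_cases e : c = x
    · exact ⟨1, e⟩
    · by_cases e' : c = x.rev
      · exact ⟨⟨_, le s0⟩, s1.trans (by rw [e', Fin.rev_rev])⟩
      · have p : Pr (k + 1) c x := ⟨nm _, nm _, e, e'⟩
        exact ⟨⟨_, sw2_mem hm.ge p⟩, (m4_lr hm.ge p).1⟩
  have o2 : MulAction.orbit (WW m k) c = {c, c.rev} := by
    ext x
    refine ⟨?_, ?_⟩
    · rintro ⟨σ, rfl⟩
      exact (md _).1 ((σ.2.2.1 c).2 ((md c).2 (.inl rfl)))
    · rintro (rfl | rfl)
      exacts [⟨1, rfl⟩, ⟨⟨_, s0⟩, s1⟩]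
  have st : MulAction.stabilizer (Equiv.Perm (Fin m)) c ⊓ WW m (k + 1) =
      MulAction.stabilizer (Equiv.Perm (Fin m)) c ⊓ WW m k := by
    refine le_antisymm (fun σ ⟨h1, h2⟩ => ⟨h1, h2.1, fun i => ?_, h2.2.2⟩) (inf_le_inf_left _ le)
    have e1 : σ c = c := h1
    have e2 : σ c.rev = c.rev := by rw [h2.1, e1]
    rw [md, md, ← σ.injective.eq_iff (a := i), ← σ.injective.eq_iff (a := i), e1, e2]
  have c1 := m4_os (WW m (k + 1)) c
  have c2 := m4_os (WW m k) c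
  rw [o1, Set.ncard_univ, Nat.card_fin, cardD hm (by omega), st, Nat.add_sub_cancel,
    Nat.factorial_succ] at c1
  rw [o2, Set.ncard_pair (md_ne hm.ge (nm c))] at c2
  refine Nat.eq_of_mul_eq_mul_right (Nat.succ_pos k) ?_
  rw [← c2, mul_assoc, Nat.succ_eq_add_one, ← hm, c1]
  ring

end Pool.Agent.Lib.MP_1ae3da_al.JP
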