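import Pool.Agent.Lib.MP_1ae3da_al.P.M1b
import Pool.Agent.Lib.MP_1ae3da_al.P.M2
import Pool.Agent.Lib.MP_1ae3da_al.P.M4
import Pool.Agent.Lib.MP_1ae3da_al.J.Bv

/-! The Sylow subgroup, the torus and the Bruhat data of the cover. -/

namespace Pool.Agent.Lib.MP_1ae3da_al.JP

open SLI Matrix JM

variable {F : Type} [Field F] {m k : ℕ} {φ : F →+* F} {X : Type} [Group X]
  {π : X →* SLm m F} {E : (Fin m → F) → (Fin m → F) → X} {σ : Equiv.Perm (Fin m)}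
  {a b : Fin m} {c : F} {f v : Fin m → F}

lemma m3_odd {x : X} (hx : x * x = 1) {s : ℕ} (hs : Odd s) : x ^ s = x := by
  obtain ⟨t, rfl⟩ := hs
  rw [pow_succ, pow_mul, pow_two, hx, one_pow, one_mul]

lemma m3_pow {r : ℕ} [hr : Fact r.Prime] [CharP F r] [Finite F] {w : SLm m F}
    (hw : w ∈ US m F) : ∃ j, w ^ r ^ j = 1 := by
  have := Fintype.ofFinite F
  obtain ⟨f, -, hf⟩ := FiniteField.card F r
  have : IsPGroup r (US m F) := IsPGroup.of_card (n := f * ∑ i : Fin m, (i : ℕ)) (by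
    rw [card_US, Nat.card_eq_fintype_card, hf, pow_mul])
  obtain ⟨j, hj⟩ := this ⟨w, hw⟩
  exact ⟨j, congrArg Subtype.val hj⟩

namespace Spn
variable (h : Spn φ k π E)
include h

lemma m3_row (ha : ¬ Md k a) (hf : Rt φ k f) (h0 : f a = 0) (j : Fin m) :
    (π (E (ev F a.rev) f)).1 a j =
      ev F a j + f a.rev * ev F a.rev j - f j - qf f * ev F a.rev j := by
  have := congrFun (h.act a.rev (mt md_rev.1 ha) f hf (by rwa [Fin.rev_rev]) (ev F a)) j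
  rw [ev_vecMul, bt_ev_l, Fin.rev_rev] at this
  simpa using this

lemma m3_long (p : Pr k a b) : (π (E (ev F a.rev) (ev F b))).1 a b = -1 := by
  have h1 : b ≠ a.rev := fun e => p.nr (by rw [e, Fin.rev_rev])
  rw [h.m3_row p.l (rt_ev p.r) (Pi.single_eq_of_ne p.ne _)]
  simp [h1, p.ne.symm]

omit h in
lemma m3_ev (hab : a < b) (j : Fin m) (hj : ev F b j ≠ 0) : a.rev.rev < j := by
  rw [Fin.rev_rev]
  by_cases e : j = b
  · rwa [e]
  · exact absurd (Pi.single_eq_of_ne e _) hj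

lemma m3_lift {x : X} {s : ℕ} (hs : Odd s) (h1 : π x ^ s = 1) : ∃ y, π y = π x ∧ y ^ s = 1 := by
  rw [← map_pow] at h1
  obtain ⟨c, q⟩ := h.ker _ h1
  refine ⟨x * x ^ s, by rw [map_mul, h1, mul_one], ?_⟩
  rw [(Commute.self_pow x s).mul_pow, m3_odd q hs, q]

omit h in
lemma m3_r {r : ℕ} [hr : Fact r.Prime] [CharP F r] (h2 : (2 : F) ≠ 0) : Odd r :=
  hr.out.odd_of_ne_two fun e => h2 (by
    have := CharP.cast_eq_zero F r
    rw [e] at this
    exact_mod_cast this)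

lemma m3_el {p : ℕ} (hp : Odd p) {z : Fˣ} (hz : φ z = z) (zp : z ^ p = 1) (ha : ¬ Md k a)
    (hne : a ≠ a.rev) : ∃ t, π t = el hne z ∧ t ^ p = 1 := by
  obtain ⟨c, hc⟩ := hp.add_one
  obtain ⟨t, ht⟩ := h.el_rng ha hne (z := z ^ c) (by
    rw [Units.val_pow_eq_pow_val, map_pow, hz])
  rw [← pow_mul, mul_two, ← hc, pow_succ, zp, one_mul] at ht
  obtain ⟨y, h1, h2⟩ := h.m3_lift (x := t) hp (by rw [ht]; exact bv_pow hne zp)
  exact ⟨y, h1.trans ht, h2⟩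

lemma m3_tor {p : ℕ} (hp : p.Prime) (h2 : p ≠ 2) {z : Fˣ} (hz : φ z = z) (z1 : z ≠ 1)
    (zp : z ^ p = 1) (i j : Fin m) (hij : i ≠ j) (hm : ¬ (Md k i ∧ Md k j)) :
    ∃ t, IsMon (π t).1 1 ∧ ∀ s : ℕ, (π t).1 i i ^ s = (π t).1 j j ^ s → p ∣ s := by
  wlog hi : ¬ Md k i generalizing i j
  · obtain ⟨t, h1, h3⟩ := this j i hij.symm (fun e => hm e.symm) fun e => hm ⟨not_not.mp hi, e⟩
    exact ⟨t, h1, fun s e => h3 s e.symm⟩
  obtain ⟨t, ht, -⟩ := h.m3_el (hp.odd_of_ne_two h2) hz zp hi (md_ne h.lo hi)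
  refine ⟨t, ht ▸ bv_mon _ z, fun s e => bv_odd hp h2 z1 zp ?_⟩
  rw [ht, bv_dg, bv_dg, if_pos rfl, if_neg hij.symm, ← Units.val_pow_eq_pow_val,
    ← Units.val_pow_eq_pow_val, Units.val_inj] at e
  rw [two_mul, pow_add]
  split_ifs at e
  · nth_rewrite 1 [e]
    rw [inv_pow, inv_mul_cancel]
  · rw [e, one_pow, one_mul]

lemma m3_quad {p : ℕ} (hp : p.Prime) (h2 : p ≠ 2) {z : Fˣ} (z1 : z ≠ 1) (zp : z ^ p = 1) {x : X}
    (hσ : IsMon (π x).1 σ) (hc : ∀ i : Fin m, ¬ Md k i → ∀ hi : i ≠ i.rev,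
      Commute (el hi z * π x * (el hi z)⁻¹ * (π x)⁻¹) (π x)) : σ = 1 := by
  have hw := h.ww hσ
  have hr := hw.1
  refine ww_id h.hi hw fun j hm => ?_
  by_contra hj
  have hm' : ¬ Md k (σ j) := mt (hw.2.1 j).1 hm
  have hi : σ j ≠ (σ j).rev := md_ne h.lo hm'
  have e := bv_comm (bv_mon hi z) hσ (hc _ hm' hi) j
  rw [bv_dg, bv_dg, bv_dg, if_neg (Ne.symm hj), if_neg (σ.injective.ne hj), if_pos rfl,
    ← Units.val_mul, ← Units.val_mul, Units.val_inj] at e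
  have p2 : ¬ p ∣ 2 := fun c => h2 ((Nat.prime_dvd_prime_iff_eq hp Nat.prime_two).mp c)
  by_cases c : j = (σ j).rev
  · have c' : σ (σ j) = (σ j).rev := by
      rw [← c]
      nth_rewrite 1 [show σ j = j.rev from Fin.rev_eq_iff.mp c.symm]
      rw [hr, ← c]
    rw [if_pos c, if_pos c'] at e
    refine p2 (bv_odd hp h2 z1 zp ?_)
    rw [show z ^ (2 * 2) = (z * z) * (z * z) by simp [pow_succ, mul_assoc]]
    nth_rewrite 1 [← e]
    group
  · have c' : σ (σ j) ≠ (σ j).rev := fun c' => c (by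
      have := σ.injective (c'.trans (hr j).symm)
      rw [this, Fin.rev_rev])
    rw [if_neg c, if_neg c', one_mul] at e
    exact hp.not_dvd_one (bv_odd hp h2 z1 zp (by rw [mul_one, pow_two, ← e]))

/-- hint: `lt_of_conj` (Z/Cl3) with `E (ev a.rev) (ev b)` (entry `-1` at `a, b`) and
`E (ev a.rev) f0` (entry `-(bt f0 f0) / 2` at `a, a.rev`); `nodB` if `2 k < m`, else `nodD`. -/
lemma reg {x : X} (hσ : IsMon (π x).1 σ)
    (hu : ∀ u ∈ US m F, u ∈ π.range → (π x)⁻¹ * u * π x ∈ US m F) : σ = 1 := by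
  have lt : ∀ a b : Fin m, Pr k a b → a < b → σ a < σ b := fun a b p hab =>
    lt_of_conj hσ (hu _ (h.E_US (mt md_rev.1 p.l) (rt_ev p.r) (m3_ev hab)) ⟨_, rfl⟩) p.ne
      (by rw [h.m3_long p]; simp)
  have pr : ∀ a b : Fin m, (a : ℕ) + 1 = b → (b : ℕ) < k → Pr k a b := fun a b e hb =>
    pr_of h.lo (by omega) hb fun c => by rw [c] at e; omega
  have h1 : ∀ a b : Fin m, (a : ℕ) + 1 = b → (b : ℕ) < k → σ a < σ b := fun a b e hb =>
    lt a b (pr a b e hb) (by rw [Fin.lt_def]; omega)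
  rcases h.lo.lt_or_eq with lo | lo
  · refine nodB h.lo h.hi (h.ww hσ) h1 fun a ha => ?_
    have nd : ¬ Md k a := fun c => by have := c.1; omega
    have z1 : f0 F k a = 0 := if_neg nd
    have z2 : f0 F k a.rev = 0 := if_neg (mt md_rev.1 nd)
    refine lt_of_conj hσ (hu _ (h.E_US (f := f0 F k) (mt md_rev.1 nd) mv_f0.1 fun j hj => ?_)
      ⟨_, rfl⟩) (md_ne h.lo nd) ?_
    · have := (not_not.mp fun c => hj (mv_f0 (φ := φ).2 j c)).1
      rw [Fin.rev_rev, Fin.lt_def]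
      omega
    · rw [h.m3_row nd mv_f0.1 z1, z2]
      simpa [(md_ne h.lo nd).symm] using h.mv_ne mv_f0 (f0_ne lo)
  · refine nodD lo.symm (h.ww hσ) h1 fun a b e hb => lt _ _ (pr a b e (by omega)).rev ?_
    rw [Fin.lt_def, Fin.val_rev]
    omega

variable {r : ℕ} [hr : Fact r.Prime] [CharP F r] [Finite F] [Finite X]

/-- two `r`-elements with the same image are equal (`r` is odd by `two`). -/
lemma uniq {x y : X} {i j : ℕ} (hx : x ^ r ^ i = 1) (hy : y ^ r ^ j = 1) (e : π x = π y) :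
    x = y := by
  have k : π (x * y⁻¹) = 1 := by rw [map_mul, map_inv, e, mul_inv_cancel]
  by_cases h2 : (2 : F) = 0
  · exact mul_inv_eq_one.1 (h.inj h2 _ k)
  obtain ⟨c, q⟩ := h.ker _ k
  have h1 := (show Commute (x * y⁻¹) y from c y).mul_pow (r ^ (i + j))
  rw [inv_mul_cancel_right, m3_odd q (m3_r h2).pow, pow_add, pow_mul, hx, one_pow, mul_comm (r ^ i),
    pow_mul, hy, one_pow, mul_one] at h1
  exact mul_inv_eq_one.1 h1.symm

/-- hint: `Clo 1 1 π.range ⊤` as in `Cz.clo` (J/Bv), `Clo.syl`,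
`Sylow.mapSurjective_surjective` for `π.rangeRestrict`, `uniq`. -/
lemma ex_U : ∃ U : Sylow r X, SU π U := by
  have clo : Clo 1 1 π.range ⊤ := ⟨h.cl, fun n ⟨x, e⟩ σ hσ hu => by
    subst e
    exact h.reg hσ hu, fun _ _ _ => ⟨1, one_mem _, mon_one, fun s _ => by simp⟩,
    fun _ _ _ _ => trivial, by simp⟩
  obtain ⟨V, hV⟩ := clo.syl (r := r)
  obtain ⟨U, rfl⟩ := Sylow.mapSurjective_surjective π.rangeRestrict_surjective r V
  rw [Sylow.coe_mapSurjective] at hV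
  refine ⟨U, fun x => ⟨fun hx => ⟨hV.le ⟨x, hx, rfl⟩, ?_⟩, fun ⟨h1, j, hj⟩ => ?_⟩⟩
  · obtain ⟨j, hj⟩ := U.isPGroup' ⟨x, hx⟩
    exact ⟨j, congrArg Subtype.val hj⟩
  · obtain ⟨y, hy, e⟩ := hV.ge (show π.rangeRestrict x ∈ (US m F).subgroupOf π.range from h1)
    obtain ⟨i, hi⟩ := U.isPGroup' ⟨y, hy⟩
    exact h.uniq (congrArg Subtype.val hi) hj (congrArg Subtype.val e) ▸ hy

variable {U : Sylow r X} (hU : SU π U)
include hU

/-- hint: a power of a preimage of exponent prime to `r`, or Sylow theory. -/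
lemma lift_U {w : SLm m F} (hw : w ∈ US m F) (h1 : w ∈ π.range) : ∃ u ∈ U, π u = w := by
  obtain ⟨x, rfl⟩ := h1
  obtain ⟨j, hj⟩ := m3_pow (r := r) hw
  by_cases h2 : (2 : F) = 0
  · exact ⟨x, (hU x).2 ⟨hw, j, h.inj h2 _ (by rwa [map_pow])⟩, rfl⟩
  obtain ⟨y, e, hy⟩ := h.m3_lift (m3_r h2).pow hj
  exact ⟨y, (hU y).2 ⟨e ▸ hw, j, hy⟩, e⟩

lemma cj_U {u : X} (hu : u ∈ U) (g : X) (h1 : (π g)⁻¹ * π u * π g ∈ US m F) :
    g⁻¹ * u * g ∈ U := by
  obtain ⟨-, j, hj⟩ := (hU u).1 hu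
  refine (hU _).2 ⟨by rwa [map_mul, map_mul, map_inv], j, ?_⟩
  have := conj_pow (a := g⁻¹) (b := u) (i := r ^ j)
  rwa [inv_inv, hj, mul_one, inv_mul_cancel] at this

lemma E_U (ha : ¬ Md k a) (hf : Rt φ k f) (h1 : ∀ j, f j ≠ 0 → a.rev < j) :
    E (ev F a) f ∈ U :=
  (hU _).2 ⟨h.E_US ha hf h1, 1, by
    rw [pow_one]
    exact h.E_pow ha hf (not_not.mp fun c => lt_irrefl _ (h1 _ c))⟩

lemma U_ne : (U : Subgroup X) ≠ ⊥ := fun e => by
  have k2 := h.k2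
  have lt : h.ix 1 < h.ix 0 := by
    rw [Fin.lt_def, h.ix_val, h.ix_val]
    omega
  have p : Pr k (h.ix 1) (h.ix 0) :=
    pr_of h.lo (by rw [h.ix_val]; omega) (by rw [h.ix_val]; omega) lt.ne
  have h1 := h.m3_long p
  rw [Subgroup.mem_bot.1 (e.le (h.E_U hU (mt md_rev.1 p.l) (rt_ev p.r) (m3_ev lt))), map_one] at h1
  simp [p.ne] at h1

lemma tor_iff {t : X} : t ∈ Tor U (NN π) ↔ IsMon (π t).1 1 := by
  constructor
  · rintro ⟨⟨σ, h1⟩, h2⟩
    have := h.reg h1 fun u hu hH => by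
      obtain ⟨y, hy, rfl⟩ := h.lift_U hU hu hH
      have := ((hU _).1 ((Subgroup.mem_normalizer_iff''.mp h2 y).mp hy)).1
      rwa [map_mul, map_mul, map_inv] at this
    exact this ▸ h1
  · intro ht
    refine Subgroup.mem_inf.mpr ⟨⟨1, ht⟩, Subgroup.mem_normalizer_fintype fun u hu => ?_⟩
    have := h.cj_U hU hu t⁻¹ (by
      rw [map_inv]
      exact dg_norm (mon_inv ht) ((hU u).1 hu).1)
    rwa [inv_inv] at this

lemma tor_div {x y : X} (hx : IsMon (π x).1 σ) (hy : IsMon (π y).1 σ) :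
    x * y⁻¹ ∈ Tor U (NN π) := by
  refine (h.tor_iff hU).mpr ?_
  have := mon_mul hx (mon_inv hy)
  rw [inv_mul_cancel] at this
  rwa [map_mul, map_inv]

/-- hint: copy `Cz.tor`, `Cz.quad`, `Cz.orb`, `Cz.bv` (J/Bv). The elements `el hi z` exist for
`¬ Md k i` only (`el_rng`, `z` is the square of a power of `z`); an off diagonal entry of
`π u` has an index outside the middle (`so_off`), and `ww_id` ends `quad`. A preimage `t` of
`el hi z` has `t ^ (2 p) = 1`, so `t ^ (p + 1)` is a preimage of order dividing `p`. -/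
theorem bv {p : ℕ} (hp : p.Prime) (h2 : p ≠ 2) (hpr : p ≠ r) {z : Fˣ} (hz : φ z = z) (z1 : z ≠ 1)
    (zp : z ^ p = 1) : BV p U (NN π) := by
  have hT := fun {t} => h.tor_iff hU (t := t)
  refine ⟨hpr, fun x hx y hy => h.ab x y (hT.mp hx) (hT.mp hy), ?_, fun x => ?_,
    fun u hu h1 => ?_, ?_⟩
  · rintro n ⟨σ, hn⟩
    refine Subgroup.mem_normalizer_fintype fun t ht => hT.mpr ?_
    have := mon_mul (mon_mul hn (hT.mp ht)) (mon_inv hn)
    rw [one_mul, inv_mul_cancel] at this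
    rwa [map_mul, map_mul, map_inv]
  · obtain ⟨u, hu, n, hn, v, hv, u1, -, v1, e⟩ := h.cl (π x) ⟨x, rfl⟩
    obtain ⟨u, hu', rfl⟩ := h.lift_U hU hu u1
    obtain ⟨v, hv', rfl⟩ := h.lift_U hU hv v1
    refine ⟨u, hu', u⁻¹ * x * v⁻¹, ?_, v, hv', by group⟩
    rw [Subgroup.mem_comap, map_mul, map_mul, map_inv, map_inv, e,
      show (π u)⁻¹ * (π u * n * π v) * (π v)⁻¹ = n by group]
    exact hn
  · obtain ⟨u1, l, hl⟩ := (hU u).1 hu
    obtain ⟨i, j, hij, h0⟩ := ex_off u1 fun e =>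
      h1 (h.uniq hl (one_pow (r ^ 0)) (e.trans (map_one π).symm))
    obtain ⟨t, ht1, ht2⟩ := h.m3_tor hp h2 hz z1 zp i j hij fun c =>
      h0 (so_off h.hi (h.oq u) u1 c.1 c.2 hij)
    have : ((Subgroup.centralizer {u}).subgroupOf (Tor U (NN π))).Normal :=
      ⟨fun a ha g => by
        have : g * a * g⁻¹ = a := by
          rw [mul_inv_eq_iff_eq_mul]
          exact Subtype.ext (h.ab _ _ (hT.mp g.2) (hT.mp a.2))
        rwa [this]⟩
    have h2 := Subgroup.pow_index_mem ((Subgroup.centralizer {u}).subgroupOf (Tor U (NN π)))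
      ⟨t, hT.mpr ht1⟩
    set s := (Subgroup.centralizer {u}).relIndex (Tor U (NN π)) with hs
    have h3 : t ^ s * u = u * t ^ s := Subgroup.mem_centralizer_singleton_iff.mp h2
    have h4 : (π t ^ s).1 * (π u).1 = (π u).1 * (π t ^ s).1 := by
      have := congrArg π h3
      rw [map_mul, map_mul, map_pow] at this
      exact congrArg Subtype.val this
    have h5 : (π t ^ s).1 i i * (π u).1 i j = (π u).1 i j * (π t ^ s).1 j j :=
      (mon_l (dg_pow ht1 s).1 _ i j).symm.trans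
        ((congrFun (congrFun h4 i) j).trans (mon_r (dg_pow ht1 s).1 _ i j))
    rw [(dg_pow ht1 s).2, (dg_pow ht1 s).2, mul_comm] at h5
    exact ht2 s (mul_left_cancel₀ h0 h5)
  · rintro n ⟨σ, hσ⟩ hc
    have := h.m3_quad hp h2 z1 zp hσ fun i hm hi => by
      obtain ⟨t, ht, tp⟩ := h.m3_el (hp.odd_of_ne_two h2) hz zp hm hi
      have := (hc t (hT.mpr (ht ▸ bv_mon hi z)) ⟨1, by rwa [pow_one]⟩).map π
      rwa [map_mul, map_mul, map_mul, map_inv, map_inv, ht] at this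
    exact hT.mpr (this ▸ hσ)

/-- hint: the homomorphism `wey` (Z/Cl1) composed with `π`. -/
lemma idx (hs : ∀ σ ∈ WW m k, ∃ x, IsMon (π x).1 σ) :
    (Tor U (NN π)).relIndex (NN π) = Nat.card (WW m k) := by
  let ψ : NN π →* Equiv.Perm (Fin m) :=
    (wey m F).comp ((π.comp (NN π).subtype).codRestrict _ fun x => x.2)
  have e : ∀ (x : NN π) (σ : Equiv.Perm (Fin m)), IsMon (π x).1 σ → ψ x = σ⁻¹ := fun x σ hσ =>
    wey_eq hσ
  have e1 : (Tor U (NN π)).subgroupOf (NN π) = ψ.ker := by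
    ext x
    obtain ⟨σ, hσ⟩ := x.2
    rw [MonoidHom.mem_ker, Subgroup.mem_subgroupOf, h.tor_iff hU, e x σ hσ, inv_eq_one]
    exact ⟨mon_uniq' hσ, fun c => c ▸ hσ⟩
  have e2 : ψ.range = WW m k := by
    refine le_antisymm ?_ fun σ hσ => ?_
    · rintro _ ⟨x, rfl⟩
      obtain ⟨σ, hσ⟩ := x.2
      rw [e x σ hσ]
      exact inv_mem (h.ww hσ)
    · obtain ⟨x, hx⟩ := hs σ⁻¹ (inv_mem hσ)
      exact ⟨⟨x, _, hx⟩, by rw [e _ _ hx, inv_inv]⟩
  rw [Subgroup.relIndex, e1, Subgroup.index_ker, e2]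

end Spn

end Pool.Agent.Lib.MP_1ae3da_al.JP
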