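import Pool.Agent.Lib.MP_1ae3da_al.P.M5a

/-! The rank one computations and the axiom of Tits. -/

namespace Pool.Agent.Lib.MP_1ae3da_al.JP

open SLI Matrix JM

variable {F : Type} [Field F] {m k : ℕ} {φ : F →+* F} {X : Type} [Group X]
  {π : X →* SLm m F} {E : (Fin m → F) → (Fin m → F) → X} {σ : Equiv.Perm (Fin m)}
  {a b : Fin m} {c : F} {f v : Fin m → F}

/-- the axiom from a root set `Y`. -/
lemma rk_tits {U T : Subgroup X} {g n : X} (Y : Set X) (g2 : g * g ∈ T)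
    (t1 : ∀ u ∈ U, ∃ w, ∃ x ∈ Y, g * w * g⁻¹ ∈ U ∧ u = w * x)
    (t3 : ∀ x ∈ Y, x = 1 ∨ ∃ y ∈ U, ∃ t ∈ T, ∃ y' ∈ Y, g * x * g⁻¹ = y * (t * g) * y')
    (t2 : (∀ x ∈ Y, n⁻¹ * x * n ∈ U) ∨ ∀ x ∈ Y, (g * n)⁻¹ * x * (g * n) ∈ U) :
    ∀ u ∈ U, ∃ v ∈ U, ∃ t ∈ T, ∃ w ∈ U,
      g * u * n = v * (t * (g * n)) * w ∨ g * u * n = v * (t * n) * w := by
  intro u hu
  obtain ⟨w, x, hx, hw, rfl⟩ := t1 u hu
  rcases t2 with t2 | t2
  · exact ⟨_, hw, 1, one_mem _, _, t2 x hx, Or.inl (by group)⟩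
  · rcases t3 x hx with rfl | ⟨y, hy, t, ht, y', hy', e⟩
    · exact ⟨_, hw, 1, one_mem _, 1, one_mem _, Or.inl (by group)⟩
    · refine ⟨_, mul_mem hw hy, _, mul_mem ht g2, _, t2 y' hy', Or.inr ?_⟩
      calc g * (w * x) * n = g * w * g⁻¹ * (g * x * g⁻¹) * (g * n) := by group
        _ = _ := by
          rw [e]
          group

namespace Spn
variable (h : Spn φ k π E) {r : ℕ} [hr : Fact r.Prime] [CharP F r] [Finite F] [Finite X]
  {U : Sylow r X} (hU : SU π U)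
include h hU

lemma m5_cj {g w : X} (hg : IsMon (π g).1 σ) (hw : w ∈ U)
    (h0 : ∀ i j, j < i → σ i < σ j → (π w).1 (σ i) (σ j) = 0) : g * w * g⁻¹ ∈ U := by
  have hn : IsMon (π g⁻¹).1 σ⁻¹ := by
    rw [map_inv]
    exact mon_inv hg
  obtain ⟨h1, h2⟩ := mem_US'.1 ((hU w).1 hw).1
  have := h.cj_U hU hw g⁻¹ (mem_US'.2 ⟨fun i j hij => ?_, fun i => ?_⟩)
  · rwa [inv_inv] at this
  · have e := (conj_zero hn (u := π w) (i := σ i) (j := σ j)).2 (by
      rcases lt_trichotomy (σ i) (σ j) with e | e | e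
      · exact h0 i j hij e
      · exact absurd (σ.injective e) hij.ne'
      · exact h1 _ _ e)
    simpa using e
  · have e := (conj_dg hn (π w) (σ i)).trans (h2 _)
    simpa using e

lemma m5_UL (p : Pr k a b) (hc : φ c = c) {n : X} (hn : IsMon (π n).1 σ) (hlt : σ a < σ b) :
    n⁻¹ * E (ev F a.rev) (c • ev F b) * n ∈ U := by
  have hf : Rt φ k (c • ev F b) := (rt_ev p.r).smul hc
  rw [h.E_cj hn (m5_ndr p.l) hf]
  refine h.E_U hU (mt ((h.ww hn).2.1 _).1 (m5_ndr p.l))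
    (((h.rat n).vec hf).smul (h.mu_rat hn (m5_ndr p.l))) fun j hj => ?_
  rw [so_rev (h.iso n) hn, Fin.rev_rev]
  by_contra hj'
  rw [smul_vecMul, mon_ev hn] at hj
  have : j ≠ σ b := fun e => hj' (e ▸ hlt)
  simp [Pi.single_eq_of_ne this] at hj

lemma m5_US (ha : ¬ Md k a) (hf : Mv φ k f) {n : X} (hn : IsMon (π n).1 σ)
    (hlt : (σ a : ℕ) < k) : n⁻¹ * E (ev F a.rev) f * n ∈ U := by
  have hv := m5_smul (h.mv_vec hn hf) (h.mu_rat hn (m5_ndr ha))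
  rw [h.E_cj hn (m5_ndr ha) hf.1]
  refine h.E_U hU (mt ((h.ww hn).2.1 _).1 (m5_ndr ha)) hv.1 fun j hj => ?_
  rw [so_rev (h.iso n) hn, Fin.rev_rev]
  have hm : Md k j := by
    by_contra e
    exact hj (hv.2 j e)
  exact Fin.lt_def.2 (lt_of_lt_of_le hlt hm.1)

lemma m5_UL1 (p : Pr k a b) (hc : φ c = c) (hlt : a < b) :
    E (ev F a.rev) (c • ev F b) ∈ U := by
  have := h.m5_UL hU p hc (n := 1) (σ := 1) (by rw [map_one]; exact mon_one) hlt
  simpa using this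

lemma m5_US1 (hf : Mv φ k f) (hlt : (a : ℕ) < k) : E (ev F a.rev) f ∈ U := by
  have := h.m5_US hU (m5_nd hlt) hf (n := 1) (σ := 1) (by rw [map_one]; exact mon_one) hlt
  simpa using this

/-- hint: `c = -(π u) a b`, `w = u * x⁻¹` has zero entries at `a, b` and (`so_inv`) at
`b.rev, a.rev`, the only inversions of `sw2 a b`; `conj_zero`, `conj_dg` (Z/Cl0), `cj_U`. -/
lemma splitL (hab : (a : ℕ) + 1 = b) (hb : (b : ℕ) < k) {g : X} (hg : IsMon (π g).1 (sw2 a b))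
    {u : X} (hu : u ∈ U) : ∃ w, ∃ c, φ c = c ∧ g * w * g⁻¹ ∈ U ∧
      u = w * E (ev F a.rev) (c • ev F b) := by
  have lo := h.lo
  have hlt : a < b := Fin.lt_def.2 (by omega)
  have p : Pr k a b := pr_of lo (by omega) hb hlt.ne
  have hc : φ (-(π u).1 a b) = -(π u).1 a b := by
    have := h.rat u a b
    rw [tm_nd p.l, tm_nd p.r] at this
    rw [map_neg, this]
  obtain ⟨c, hc'⟩ : ∃ c, c = -(π u).1 a b := ⟨_, rfl⟩
  rw [← hc'] at hc
  have hf : Rt φ k (c • ev F b) := (rt_ev p.r).smul hc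
  have f0' : (c • ev F b) a.rev.rev = 0 := by simp [Pi.single_eq_of_ne p.ne]
  have hw := mul_mem hu (inv_mem (h.m5_UL1 hU p hc hlt))
  refine ⟨_, c, hc, h.m5_cj hU hg hw fun i j hij hs => ?_, (inv_mul_cancel_right _ _).symm⟩
  have z1 : (π (u * (E (ev F a.rev) (c • ev F b))⁻¹)).1 a b = 0 := by
    have hba : b ≠ a.rev := fun e => p.nr (by rw [e, Fin.rev_rev])
    rw [m5_row, h.E_neg (m5_ndr p.l) hf f0',
      h.act _ (m5_ndr p.l) _ hf.neg (by rw [Pi.neg_apply, f0', neg_zero])]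
    simp [Pi.single_eq_of_ne hba, (mem_US'.1 ((hU u).1 hu).1).2 a, hc']
  generalize u * (E (ev F a.rev) (c • ev F b))⁻¹ = w at hw z1
  obtain ⟨h1, h2⟩ := mem_US'.1 ((hU w).1 hw).1
  have z2 : (π w).1 b.rev a.rev = 0 := by
    have e := mem_SO.1 (h.iso w) a b.rev
    rw [if_neg fun e => p.ne (Fin.rev_injective e).symm, bt, Finset.sum_eq_single a, h2,
      one_mul] at e
    · exact e
    · intro i _ hi
      rcases lt_trichotomy i b with e | e | e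
      · rw [h1 a i (by rw [Fin.lt_def] at *; have := Fin.val_ne_of_ne hi; omega), zero_mul]
      · rw [e, z1, zero_mul]
      · rw [h1 b.rev i.rev (Fin.rev_lt_rev.2 e), mul_zero]
    · simp
  have : (sw2 a b i = a ∧ sw2 a b j = b) ∨ (sw2 a b i = b.rev ∧ sw2 a b j = a.rev) := by
    simp only [Fin.ext_iff, Fin.lt_def, Fin.val_rev, m5_sw2 lo hab hb] at hij hs ⊢
    split_ifs at hs ⊢ <;> omega
  rcases this with ⟨e1, e2⟩ | ⟨e1, e2⟩ <;> rw [e1, e2] <;> assumption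

/-- hint: `f` is minus the middle part of row `a` of `π u`; `w = u * x⁻¹` is the identity on the
block from `a` to `a.rev` (isotropy of row `a`, `so_inv`, `so_off`). -/
lemma splitS (ha : (a : ℕ) + 1 = k) {g : X} (hg : IsMon (π g).1 (sw0 k a))
    {u : X} (hu : u ∈ U) : ∃ w, ∃ f, Mv φ k f ∧ g * w * g⁻¹ ∈ U ∧
      u = w * E (ev F a.rev) f := by
  have lo := h.lo
  have hk : (a : ℕ) < k := by omega
  have na := m5_nd hk
  obtain ⟨f, hf'⟩ : ∃ f : Fin m → F, ∀ i, f i = if Md k i then -(π u).1 a i else 0 :=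
    ⟨_, fun _ => rfl⟩
  have hf : Mv φ k f := by
    refine ⟨fun i => ?_, fun i hi => by rw [hf', if_neg hi]⟩
    by_cases e : Md k i
    · have := h.rat u a i
      rw [tm_nd na, tm_md e] at this
      rw [tm_md e, hf', hf', if_pos e, if_pos (md_rev.2 e), map_neg, this]
    · rw [tm_nd e, hf', if_neg e, map_zero]
  have f0' : f a.rev.rev = 0 := hf.2 _ (m5_ndr (m5_ndr na))
  have hw := mul_mem hu (inv_mem (h.m5_US1 hU hf hk))
  refine ⟨_, f, hf, h.m5_cj hU hg hw fun i j hij hs => ?_, (inv_mul_cancel_right _ _).symm⟩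
  have z1 : ∀ j, Md k j → (π (u * (E (ev F a.rev) f)⁻¹)).1 a j = 0 := fun j hj => by
    have hba : j ≠ a.rev := fun e => m5_ndr na (e ▸ hj)
    rw [m5_row, h.E_neg (m5_ndr na) hf.1 f0',
      h.act _ (m5_ndr na) _ hf.1.neg (by rw [Pi.neg_apply, f0', neg_zero])]
    simp [Pi.single_eq_of_ne hba, (mem_US'.1 ((hU u).1 hu).1).2 a, hf' j, hj]
  generalize u * (E (ev F a.rev) f)⁻¹ = w at hw z1
  have hw' := ((hU w).1 hw).1
  obtain ⟨h1, h2⟩ := mem_US'.1 hw'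
  have z2 : (π w).1 a a.rev = 0 := by
    have e := (h.oq w).2 (ev F a)
    rw [qf_ev (md_ne lo na), ev_vecMul, qf_pair (md_ne lo na), h2, one_mul] at e
    · exact e
    · intro i i1 i2
      by_cases e : Md k i
      · rw [z1 i e, zero_mul]
      · have i3 := Fin.val_ne_of_ne i1
        have i4 := Fin.val_ne_of_ne i2
        have i5 := i.2
        rw [Md] at e
        rw [Fin.val_rev] at e i4
        by_cases e' : i < a
        · rw [h1 a i e', zero_mul]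
        · rw [h1 a i.rev (by rw [Fin.lt_def] at *; rw [Fin.val_rev]; omega), mul_zero]
  have z3 : ∀ j, Md k j → (π w).1 j a.rev = 0 := fun j hj => by
    have e := mem_SO.1 (h.iso w) a j
    have hba : j ≠ a.rev := fun e => m5_ndr na (e ▸ hj)
    rw [if_neg hba, bt, Finset.sum_eq_single a, h2, one_mul] at e
    · exact e
    · intro i _ i1
      by_cases e : Md k i
      · rw [z1 i e, zero_mul]
      · have i3 := Fin.val_ne_of_ne i1
        have j1 := hj.1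
        rw [Md] at e
        by_cases e' : i < a
        · rw [h1 a i e', zero_mul]
        · rw [h1 j i.rev (by rw [Fin.lt_def] at *; omega), mul_zero]
    · simp
  have i5 := i.2
  have j5 := j.2
  have : (sw0 k a i = a ∨ Md k (sw0 k a i)) ∧ (sw0 k a j = a.rev ∨ Md k (sw0 k a j)) := by
    simp only [Md, Fin.ext_iff, Fin.lt_def, Fin.val_rev, m5_sw0 lo ha] at hij hs ⊢
    split_ifs at hs ⊢ <;> omega
  obtain ⟨e1 | e1, e2 | e2⟩ := this
  · rw [e1, e2, z2]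
  · rw [e1, z1 _ e2]
  · rw [e2, z3 _ e1]
  · exact so_off h.hi (h.oq w) hw' e1 e2 hs.ne

omit hr [CharP F r] [Finite F] [Finite X] hU in
lemma m5_L (hab : (a : ℕ) + 1 = b) (hb : (b : ℕ) < k) (hc : φ c = c) (h0 : c ≠ 0) :
    ∃ d, φ d = d ∧ d ≠ 0 ∧ Wl E a b 1 * E (ev F a.rev) (c • ev F b) * (Wl E a b 1)⁻¹ =
      E (ev F a.rev) ((-d) • ev F b) * Wl E a b d * E (ev F a.rev) ((-d) • ev F b) := by
  have lo := h.lo
  have p : Pr k a b := pr_of lo (by omega) hb (Fin.ne_of_val_ne (by omega))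
  have hg := m5_inv (sw2_sq lo p) (h.Wl_mon p (map_one φ) one_ne_zero)
  have e := h.E_cj hg (m5_ndr p.l) ((rt_ev p.r).smul hc)
  have r1 := h.mu_rat hg (m5_ndr p.l)
  have r2 := h.mu_rat hg p.r
  have n1 := mon_ne hg a.rev
  have n2 := mon_ne hg b
  rw [inv_inv, smul_vecMul, mon_ev hg, smul_smul, smul_smul] at e
  have s1 : sw2 a b a.rev = b.rev := by
    rw [Fin.ext_iff, m5_sw2 lo hab hb, Fin.val_rev, Fin.val_rev]
    split_ifs <;> omega
  have s2 : sw2 a b b = a := by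
    rw [Fin.ext_iff, m5_sw2 lo hab hb]
    split_ifs <;> omega
  rw [s1] at e r1 n1
  rw [s2] at e r2 n2
  generalize (π (Wl E a b 1)⁻¹).1 a.rev b.rev = x at e r1 n1
  generalize (π (Wl E a b 1)⁻¹).1 b a = y at e r2 n2
  have rd : φ (-(x * c * y)⁻¹) = -(x * c * y)⁻¹ := by
    rw [map_neg, map_inv₀, map_mul, map_mul, r1, r2, hc]
  refine ⟨-(x * c * y)⁻¹, rd, neg_ne_zero.2 (inv_ne_zero (mul_ne_zero (mul_ne_zero n1 h0) n2)), ?_⟩
  rw [e, neg_smul, ← h.E_neg (m5_ndr p.l) ((rt_ev p.r).smul rd)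
    (by simp [Pi.single_eq_of_ne p.ne]), Wl, inv_neg, inv_inv, neg_neg]
  group

/-- hint: `rk_tits` with `Y` the set of the `E (ev a.rev) (c • ev b)`; `g x g⁻¹` is
`E (ev b.rev) (d • ev a) = x1⁻¹ * Wl a b c1 * x1⁻¹` with `c1 = -d⁻¹`; `tor_div`; `E_cj`, `E_U`. -/
lemma titsL (hab : (a : ℕ) + 1 = b) (hb : (b : ℕ) < k) : ∀ n ∈ NN π, ∀ u ∈ U,
    ∃ v ∈ U, ∃ t ∈ Tor U (NN π), ∃ w ∈ U, Wl E a b 1 * u * n = v * (t * (Wl E a b 1 * n)) * w ∨
      Wl E a b 1 * u * n = v * (t * n) * w := by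
  rintro n ⟨τ, hn⟩
  have lo := h.lo
  have hlt : a < b := Fin.lt_def.2 (by omega)
  have p : Pr k a b := pr_of lo (by omega) hb hlt.ne
  have hg := h.Wl_mon p (map_one φ) one_ne_zero
  refine rk_tits {x | ∃ c, φ c = c ∧ x = E (ev F a.rev) (c • ev F b)}
    ((h.tor_iff hU).2 (sw2_sq lo p ▸ m5_mul hg hg)) (fun u hu => ?_) ?_ ?_
  · obtain ⟨w, c, hc, hw, e⟩ := h.splitL hU hab hb hg hu
    exact ⟨w, _, ⟨c, hc, rfl⟩, hw, e⟩
  · rintro _ ⟨c, hc, rfl⟩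
    by_cases h0 : c = 0
    · exact Or.inl (by rw [h0, zero_smul, h.E_zero (m5_ndr p.l)])
    · obtain ⟨d, hd, d0, e⟩ := h.m5_L hab hb hc h0
      have hd' : φ (-d) = -d := by rw [map_neg, hd]
      exact Or.inr ⟨_, h.m5_UL1 hU p hd' hlt, _, h.tor_div hU (h.Wl_mon p hd d0) hg, _,
        ⟨_, hd', rfl⟩, by rw [e, inv_mul_cancel_right]⟩
  · rcases lt_trichotomy (τ a) (τ b) with e | e | e
    · left
      rintro _ ⟨c, hc, rfl⟩
      exact h.m5_UL hU p hc hn e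
    · exact absurd (τ.injective e) p.ne
    · right
      rintro _ ⟨c, hc, rfl⟩
      refine h.m5_UL hU p hc (m5_mul hg hn) ?_
      have s1 : sw2 a b a = b := by rw [Fin.ext_iff, m5_sw2 lo hab hb, if_pos rfl]
      have s2 : sw2 a b b = a := by
        rw [Fin.ext_iff, m5_sw2 lo hab hb]
        split_ifs <;> omega
      rwa [Equiv.Perm.mul_apply, Equiv.Perm.mul_apply, s1, s2]

/-- hint: `Wl a b c1` is conjugate to `Wl a b 1` under the torus (`tor_ex` for `b` and a third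
index, `Wl_cj`). -/
lemma oneL (hk : 3 ≤ k) (hab : (a : ℕ) + 1 = b) (hb : (b : ℕ) < k) : ∀ u ∈ U,
    Wl E a b 1 * u * (Wl E a b 1)⁻¹ ∈ U ∨ ∃ s ∈ Tor U (NN π), ∃ v ∈ U, ∃ w ∈ U,
      Wl E a b 1 * u * (Wl E a b 1)⁻¹ = v * (s * Wl E a b 1 * s⁻¹) * w := by
  intro u hu
  have lo := h.lo
  have hlt : a < b := Fin.lt_def.2 (by omega)
  have p : Pr k a b := pr_of lo (by omega) hb hlt.ne
  obtain ⟨w, c, hc, hw, rfl⟩ := h.splitL hU hab hb (h.Wl_mon p (map_one φ) one_ne_zero) hu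
  by_cases h0 : c = 0
  · left
    rwa [h0, zero_smul, h.E_zero (m5_ndr p.l), mul_one]
  right
  obtain ⟨d, hd, d0, e⟩ := h.m5_L hab hb hc h0
  have hx := h.m5_UL1 hU p (c := -d) (by rw [map_neg, hd]) hlt
  obtain ⟨j, j1, j2, j3⟩ : ∃ j : Fin m, (j : ℕ) < k ∧ (j : ℕ) ≠ a ∧ (j : ℕ) ≠ b := by
    by_cases e : (a : ℕ) = 0
    · exact ⟨⟨2, by omega⟩, by simp only; omega, by simp only; omega, by simp only; omega⟩
    · exact ⟨⟨0, by omega⟩, by simp only; omega, by simp only; omega, by simp only; omega⟩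
  obtain ⟨s, hs⟩ := h.tor_ex (pr_of lo hb j1 (Fin.ne_of_val_ne j3.symm)) hd d0
  obtain ⟨m1, m2⟩ := mon_of_ev (σ := 1) hs
  have e1 := h.Wl_cj p (map_one φ) m1
  have a1 : (π s).1 a.rev a.rev = 1 := by
    refine (m2 a.rev).trans ?_
    simp only [Fin.ext_iff, Fin.val_rev]
    split_ifs <;> first | rfl | omega
  have a2 : (π s).1 b b = d := (m2 b).trans (if_pos rfl)
  simp only [Equiv.Perm.one_apply, a1, a2, one_mul] at e1
  refine ⟨s⁻¹, inv_mem ((h.tor_iff hU).2 m1), _, mul_mem hw hx, _, hx, ?_⟩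
  rw [inv_inv, e1]
  calc _ = Wl E a b 1 * w * (Wl E a b 1)⁻¹ *
        (Wl E a b 1 * E (ev F a.rev) (c • ev F b) * (Wl E a b 1)⁻¹) := by group
    _ = _ := by
      rw [e]
      group

/-- hint: `Y` is the set of the `E (ev a.rev) f` with `Mv φ k f`; `g x g⁻¹ = E (ev a) f'`, and
`f' = (qf f1)⁻¹ • f1` for `f1 = (qf f')⁻¹ • f'`. -/
lemma titsS (hm : 2 * k < m) (ha : (a : ℕ) + 1 = k) : ∀ n ∈ NN π, ∀ u ∈ U,
    ∃ v ∈ U, ∃ t ∈ Tor U (NN π), ∃ w ∈ U,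
      Ws E a (f0 F k) * u * n = v * (t * (Ws E a (f0 F k) * n)) * w ∨
      Ws E a (f0 F k) * u * n = v * (t * n) * w := by
  rintro n ⟨τ, hn⟩
  have lo := h.lo
  have hk : (a : ℕ) < k := by omega
  have na := m5_nd hk
  have hg := h.Ws_mon na mv_f0 (f0_ne hm)
  have s1 : sw0 k a a = a.rev := by
    rw [Fin.ext_iff, m5_sw0 lo ha, Fin.val_rev]
    split_ifs <;> omega
  have s2 : sw0 k a a.rev = a := by
    rw [Fin.ext_iff, m5_sw0 lo ha, Fin.val_rev]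
    split_ifs <;> omega
  refine rk_tits {x | ∃ f, Mv φ k f ∧ x = E (ev F a.rev) f}
    ((h.tor_iff hU).2 (sw0_sq na ▸ m5_mul hg hg)) (fun u hu => ?_) ?_ ?_
  · obtain ⟨w, f, hf, hw, e⟩ := h.splitS hU ha hg hu
    exact ⟨w, _, ⟨f, hf, rfl⟩, hw, e⟩
  · rintro _ ⟨f, hf, rfl⟩
    by_cases h0 : f = 0
    · exact Or.inl (by rw [h0, h.E_zero (m5_ndr na)])
    right
    have hg' := m5_inv (sw0_sq na) hg
    have e := h.E_cj hg' (m5_ndr na) hf.1
    have hv := m5_smul (h.mv_vec hg' hf) (h.mu_rat hg' (m5_ndr na))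
    have n1 := mon_ne hg' a.rev
    have n2 := mul_ne_zero n1 (mul_ne_zero n1 (h.mv_ne hf h0))
    rw [← (h.oq (Ws E a (f0 F k))⁻¹).2, ← mul_assoc, ← qf_smul] at n2
    rw [inv_inv] at e
    generalize (π (Ws E a (f0 F k))⁻¹).1 a.rev (sw0 k a a.rev) •
      (f ᵥ* (π (Ws E a (f0 F k))⁻¹).1) = v at e hv n2
    rw [s2] at e
    have hv1 : Mv φ k ((qf v)⁻¹ • v) := m5_smul hv (by rw [map_inv₀, hv.1.qf])
    have e1 : (qf ((qf v)⁻¹ • v))⁻¹ • (qf v)⁻¹ • v = v := by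
      have : ((qf v)⁻¹ * (qf v)⁻¹ * qf v)⁻¹ * (qf v)⁻¹ = 1 := by field_simp
      rw [smul_smul, qf_smul, this, one_smul]
    have v0 : (qf v)⁻¹ • v ≠ 0 := fun z => n2 (by rw [← e1, z, smul_zero, qf_zero])
    refine ⟨_, h.m5_US1 hU (m5_neg hv1) hk, _, h.tor_div hU (h.Ws_mon na hv1 v0) hg, _,
      ⟨_, m5_neg hv1, rfl⟩, ?_⟩
    rw [e, inv_mul_cancel_right, ← h.E_neg (m5_ndr na) hv1.1 (hv1.2 _ (m5_ndr (m5_ndr na))),
      Ws, e1]
    group
  · by_cases e : (τ a : ℕ) < k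
    · left
      rintro _ ⟨f, hf, rfl⟩
      exact h.m5_US hU na hf hn e
    · right
      rintro _ ⟨f, hf, rfl⟩
      refine h.m5_US hU na hf (m5_mul hg hn) ?_
      have := mt ((h.ww hn).2.1 a).1 na
      rw [Md] at this
      rw [Equiv.Perm.mul_apply, s1, so_rev (h.iso n) hn]
      omega

end Spn

end Pool.Agent.Lib.MP_1ae3da_al.JP
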