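import Pool.Agent.Lib.MP_1ae3da_al.P.M3

/-! Small facts on the reflections. -/

namespace Pool.Agent.Lib.MP_1ae3da_al.JP

open SLI Matrix JM

variable {F : Type} [Field F] {m k : ℕ} {φ : F →+* F} {X : Type} [Group X]
  {π : X →* SLm m F} {E : (Fin m → F) → (Fin m → F) → X} {σ : Equiv.Perm (Fin m)}
  {a b : Fin m} {c : F} {f v : Fin m → F}

lemma m5_sw2 (lo : 2 * k ≤ m) (hab : (a : ℕ) + 1 = b) (hb : (b : ℕ) < k) (i : Fin m) :
    (sw2 a b i : ℕ) = if (i : ℕ) = a then (b : ℕ) else if (i : ℕ) = b then (a : ℕ) else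
      if (i : ℕ) = m - (a + 1) then m - (b + 1) else
      if (i : ℕ) = m - (b + 1) then m - (a + 1) else i := by
  simp only [sw2, Equiv.Perm.mul_apply, Equiv.swap_apply_def, Fin.ext_iff, apply_ite Fin.val,
    Fin.val_rev]
  split_ifs <;> omega

lemma m5_sw0 (lo : 2 * k ≤ m) (ha : (a : ℕ) + 1 = k) (i : Fin m) :
    (sw0 k a i : ℕ) = if (a : ℕ) ≤ i ∧ (i : ℕ) ≤ m - k then m - (i + 1) else i := by
  have hi := i.2
  by_cases e : Md k i
  · simp only [sw0, Equiv.Perm.mul_apply, tm_md e, Equiv.swap_apply_def, Fin.ext_iff,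
      apply_ite Fin.val, Fin.val_rev]
    rw [Md, Fin.val_rev] at e
    split_ifs <;> omega
  · simp only [sw0, Equiv.Perm.mul_apply, tm_nd e, Equiv.swap_apply_def, Fin.ext_iff,
      apply_ite Fin.val, Fin.val_rev]
    rw [Md, Fin.val_rev] at e
    split_ifs <;> omega

lemma m5_nd (ha : (a : ℕ) < k) : ¬ Md k a := fun e => absurd e.1 (by omega)

lemma m5_ndr (ha : ¬ Md k a) : ¬ Md k a.rev := mt md_rev.1 ha

lemma m5_smul (hf : Mv φ k f) (hc : φ c = c) : Mv φ k (c • f) :=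
  ⟨hf.1.smul hc, fun i hi => by rw [Pi.smul_apply, hf.2 i hi, smul_zero]⟩

lemma m5_neg (hf : Mv φ k f) : Mv φ k (-f) :=
  ⟨hf.1.neg, fun i hi => by rw [Pi.neg_apply, hf.2 i hi, neg_zero]⟩

lemma m5_inv {s : Equiv.Perm (Fin m)} (hs : s * s = 1) {g : X} (hg : IsMon (π g).1 s) :
    IsMon (π g⁻¹).1 s := by
  have := mon_inv hg
  rwa [← map_inv, inv_eq_of_mul_eq_one_right hs] at this

lemma m5_mul {s t : Equiv.Perm (Fin m)} {g n : X} (hg : IsMon (π g).1 s) (hn : IsMon (π n).1 t) :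
    IsMon (π (g * n)).1 (t * s) := by
  rw [map_mul]
  exact mon_mul hg hn

lemma m5_row (u x : X) (i j : Fin m) : (π (u * x)).1 i j = ((π u).1 i ᵥ* (π x).1) j := by
  rw [map_mul]
  rfl

end Pool.Agent.Lib.MP_1ae3da_al.JP
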