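import Pool.Agent.Lib.MP_1ae3da_al.P.M5
import Pool.Agent.Lib.MP_1ae3da_al.P.M2b
import Pool.Agent.Lib.MP_1ae3da_al.J.St
import Pool.Agent.Lib.MP_1ae3da_al.I.Qd
import Pool.Agent.Lib.MP_1ae3da_al.Z.Xw

/-! The Tits systems of the covers of the orthogonal groups. -/

namespace Pool.Agent.Lib.MP_1ae3da_al.JP

open SLI Matrix JM

variable {F : Type} [Field F] {m k : ℕ} {φ : F →+* F} {X : Type} [Group X]
  {π : X →* SLm m F} {E : (Fin m → F) → (Fin m → F) → X} {σ : Equiv.Perm (Fin m)}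

/-- the permutations of the monomial elements of a subgroup. -/
def m6G (π : X →* SLm m F) (S : Subgroup X) : Subgroup (Equiv.Perm (Fin m)) where
  carrier := {σ | ∃ x ∈ S, IsMon (π x).1 σ}
  one_mem' := ⟨1, one_mem _, by
    rw [map_one]
    exact mon_one⟩
  mul_mem' := fun ⟨x, hx, h⟩ ⟨y, hy, h'⟩ => ⟨y * x, mul_mem hy hx, m5_mul h' h⟩
  inv_mem' := fun ⟨x, hx, h⟩ => ⟨x⁻¹, inv_mem hx, by
    rw [map_inv]
    exact mon_inv h⟩

namespace Spn
variable (h : Spn φ k π E)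
include h

lemma m6_ix {a : Fin m} (ha : (a : ℕ) < k) : h.ix (k - 1 - a) = a := Fin.ext (by
  rw [h.ix_val]
  omega)

lemma m6_mon {i : ℕ} (h0 : 0 < i) (hi : i < k) :
    IsMon (π (h.nB i)).1 (sw2 (h.ix i) (h.ix (i - 1))) := by
  rw [h.nB_pos h0]
  exact h.Wl_mon (h.ix_pr hi (by omega) (by omega)) (map_one φ) one_ne_zero

lemma m6_cen {z : X} (hz : z ∈ Subgroup.center X) (h1 : IsMon (π z).1 1) : z ^ 4 = 1 := by
  have key : ∀ (x : X) (i j : Fin m), (π x).1 i j ≠ 0 → (π z).1 i i = (π z).1 j j := by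
    intro x i j h0
    have e : (π z).1 * (π x).1 = (π x).1 * (π z).1 := by
      have := congrArg π (Subgroup.mem_center_iff.1 hz x).symm
      rw [map_mul, map_mul] at this
      exact congrArg Subtype.val this
    have := (mon_l h1 _ i j).symm.trans ((congrFun (congrFun e i) j).trans (mon_r h1 _ i j))
    rw [mul_comm] at this
    exact mul_left_cancel₀ h0 this
  have pr : ∀ a b : Fin m, Pr k a b → (π z).1 a a = (π z).1 b b := fun a b p =>
    key _ a b (by rw [h.m3_long p]; simp)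
  have nd : ∀ a : Fin m, ¬ Md k a → (π z).1 a a * (π z).1 a a = 1 := fun a ha => by
    obtain ⟨d, p⟩ := h.m2_pr ha
    nth_rewrite 1 [pr a d p]
    rw [pr a d.rev p.rev]
    exact so_mu (h.iso z) h1 d
  have all : ∀ a : Fin m, (π z).1 a a * (π z).1 a a = 1 := fun a => by
    by_cases ha : Md k a
    · have hb := h.ix_nd 0
      have n1 : a ≠ h.ix 0 := fun e => hb (e ▸ ha)
      have n2 : a ≠ (h.ix 0).rev := fun e => hb (md_rev.1 (e ▸ ha))
      rw [← key (E (ev F (h.ix 0).rev) (f0 F k)) (h.ix 0) a (by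
        rw [h.m3_row hb mv_f0.1 ((mv_f0 (φ := φ)).2 _ hb)]
        simp [n1, n2, f0, ha])]
      exact nd _ hb
    · exact nd a ha
  have : π (z ^ 2) = 1 := by
    obtain ⟨h2, h3⟩ := dg_pow h1 2
    rw [map_pow]
    refine Subtype.ext (Matrix.ext fun i j => ?_)
    by_cases e : j = i
    · rw [e, h3, pow_two, all]
      exact (one_apply_eq i).symm
    · rw [h2 i j e]
      exact (one_apply_ne (Ne.symm e)).symm
  rw [show z ^ 4 = z ^ 2 * z ^ 2 by group]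
  exact (h.ker _ this).2

variable {r : ℕ} [hr : Fact r.Prime] [CharP F r] [Finite F] [Finite X] {U : Sylow r X}
  (hU : SU π U)
include hU

lemma m6_sq {x : X} (hx : IsMon (π x).1 σ) (hs : σ * σ = 1) : x * x ∈ Tor U (NN π) :=
  (h.tor_iff hU).2 (hs ▸ m5_mul hx hx)

lemma m6_split {p : ℕ} (v : BV p U (NN π)) (hk : 3 ≤ k) {n : ℕ → X}
    (hn : ∀ i, 0 < i → n i = h.nB i) (s0 : IsMon (π (n 0)).1 σ) (ss : σ * σ = 1)
    (hg : ∀ G : Subgroup (Equiv.Perm (Fin m)),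
      (∀ a b : Fin m, (a : ℕ) + 1 = b → (b : ℕ) < k → sw2 a b ∈ G) → σ ∈ G → WW m k ≤ G)
    (t0 : ∀ y ∈ NN π, ∀ u ∈ U, ∃ v ∈ U, ∃ t ∈ Tor U (NN π), ∃ w ∈ U,
      n 0 * u * y = v * (t * (n 0 * y)) * w ∨ n 0 * u * y = v * (t * y) * w) :
    Split p k U (NN π) (Tor U (NN π)) n ∧
      (Tor U (NN π)).relIndex (NN π) = Nat.card (WW m k) := by
  have adj : ∀ i, 0 < i → i < k → (h.ix i : ℕ) + 1 = h.ix (i - 1) ∧ (h.ix (i - 1) : ℕ) < k :=
    fun i h0 hi => by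
      rw [h.ix_val, h.ix_val]
      omega
  have gen : WW m k ≤ m6G π (Subgroup.closure (n '' Set.Iio k)) := hg _ (fun a b hab hb => by
      have h0 : 0 < k - 1 - a := by omega
      have := h.m6_mon h0 (by omega)
      rw [h.m6_ix (by omega), show k - 1 - a - 1 = k - 1 - b by omega, h.m6_ix hb,
        ← hn _ h0] at this
      exact ⟨_, Subgroup.subset_closure ⟨_, show _ < k by omega, rfl⟩, this⟩)
    ⟨_, Subgroup.subset_closure ⟨0, show 0 < k by omega, rfl⟩, s0⟩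
  refine ⟨⟨rfl, v.ab, v.nrm, v.bru, v.orb, v.quad, fun i hi => ?_, ?_, fun i hi => ?_,
    fun i j h0 hij hj => ?_, fun i h0 hi => ?_, fun i h0 hi => ?_⟩,
    h.idx hU fun s hs => (gen hs).imp fun _ e => e.2⟩
  · rcases Nat.eq_zero_or_pos i with rfl | h0
    · exact ⟨⟨_, s0⟩, h.m6_sq hU s0 ss⟩
    · rw [hn i h0]
      exact ⟨⟨_, h.m6_mon h0 hi⟩, h.m6_sq hU (h.m6_mon h0 hi)
        (sw2_sq h.lo (h.ix_pr hi (by omega) (by omega)))⟩
  · rintro x ⟨s, hs⟩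
    obtain ⟨y, hy, hy'⟩ := gen (h.ww hs)
    rw [← inv_mul_cancel_right x y]
    exact mul_mem (Subgroup.subset_closure (Or.inl (h.tor_div hU hs hy')))
      (Subgroup.closure_mono Set.subset_union_right hy)
  · rcases Nat.eq_zero_or_pos i with rfl | h0
    · exact t0
    · rw [hn i h0, h.nB_pos h0]
      exact h.titsL hU (adj i h0 hi).1 (adj i h0 hi).2
  · rw [hn i h0, hn j (by omega)]
    exact h.nB_c1 i j h0 hij hj
  · rw [hn i h0, hn (i + 1) (by omega)]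
    exact h.nB_b3 i h0 hi
  · rw [hn i h0, h.nB_pos h0]
    exact h.oneL hU hk (adj i h0 hi).1 (adj i h0 hi).2

theorem tb {p : ℕ} (v : BV p U (NN π)) (hm : 2 * k < m) (hk : 3 ≤ k) :
    TB p k U (NN π) h.nB := by
  have e0 : h.nB 0 = Ws E (h.ix 0) (f0 F k) := if_pos rfl
  have a0 : (h.ix 0 : ℕ) + 1 = k := by
    rw [h.ix_val]
    omega
  obtain ⟨⟨-, -, a2, -, -, -, a6, a7, a8, -, -, a11⟩, c⟩ := h.m6_split hU v hk (n := h.nB)
    (fun _ _ => rfl) (e0 ▸ h.Ws_mon (h.ix_nd 0) mv_f0 (f0_ne hm)) (sw0_sq (h.ix_nd 0))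
    (fun G h1 h2 => genB hm h.hi G h1 fun a ha => by
      rwa [show a = h.ix 0 from Fin.ext (by omega)]) (e0 ▸ h.titsS hU hm a0)
  exact ⟨v, ⟨inf_le_left, a2, fun i hi => (a6 i hi).1, fun i hi => (a6 i hi).2, h.nB_br hm, a7,
    c.trans (cardB hm h.hi (by omega))⟩, hk, a8, a11, fun i _ => (h.ker _ (h.nB_cen hm)).1 _⟩

lemma m6_d {p : ℕ} (v : BV p U (NN π)) (hm : m = 2 * k) (hk : 3 ≤ k) :
    Split p k U (NN π) (Tor U (NN π)) h.nD ∧
      (Tor U (NN π)).relIndex (NN π) = 2 ^ (k - 1) * k.factorial ∧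
      ∃ g : MulAut X, (∀ x, g (g x) = x) ∧ (∀ x, g x ∈ U ↔ x ∈ U) ∧ (∀ x, g x ∈ NN π ↔ x ∈ NN π) ∧
        g (h.nD 1) = h.nD 0 ∧ ∀ i, 2 ≤ i → i < k → g (h.nD i) = h.nD i := by
  obtain ⟨g, gg, gm, g1, g2⟩ := h.nD_g
  have a0 : (h.ix 0 : ℕ) + 1 = k := by
    rw [h.ix_val]
    omega
  have a1 : ((h.ix 0).rev : ℕ) = k := by
    rw [Fin.val_rev]
    omega
  have a2 : (h.ix 1 : ℕ) + 1 = h.ix 0 := by
    rw [h.ix_val, h.ix_val]
    omega
  have iff : ∀ S : Subgroup X, (∀ x ∈ S, g x ∈ S) → ∀ x, g x ∈ S ↔ x ∈ S := fun S hS x =>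
    ⟨fun e => gg x ▸ hS _ e, hS x⟩
  have gU := iff U fun x hx => by
    obtain ⟨u, j, hj⟩ := (hU x).1 hx
    refine (hU _).2 ⟨mem_US'.2 ⟨fun a b hab => ?_, fun a => ?_⟩, j, by rw [← map_pow, hj, map_one]⟩
    · rw [gm]
      by_cases c : a = (h.ix 0).rev ∧ b = h.ix 0
      · rw [c.1, c.2, Equiv.swap_apply_left, Equiv.swap_apply_right]
        exact so_off (k := k - 1) (by omega) (h.oq x) u
          ⟨by omega, by omega⟩ ⟨by omega, by rw [Fin.rev_rev]; omega⟩ (md_ne h.lo (h.ix_nd 0))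
      · refine (mem_US'.1 u).1 _ _ ?_
        simp only [Equiv.swap_apply_def, Fin.lt_def, Fin.ext_iff] at c hab ⊢
        split_ifs <;> omega
    · rw [gm]
      exact (mem_US'.1 u).2 _
  have gN := iff (NN π) fun x ⟨s, hs⟩ =>
    ⟨Equiv.swap (h.ix 0) (h.ix 0).rev * s * Equiv.swap (h.ix 0) (h.ix 0).rev, fun i j e => by
      rw [gm]
      exact hs _ _ fun c => e (by
        rw [Equiv.Perm.mul_apply, Equiv.Perm.mul_apply, ← c, Equiv.swap_apply_self])⟩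
  have gT : ∀ x, g x ∈ Tor U (NN π) ↔ x ∈ Tor U (NN π) := fun x =>
    and_congr (gN x) (CT.Z.zTh_nrm (D := (U : Subgroup X)) gU x)
  have p0 : Pr k (h.ix 1) (h.ix 0).rev := (h.ix_pr (by omega) (by omega) one_ne_zero).rev
  have e0 : h.nD 0 = Wl E (h.ix 1) (h.ix 0).rev 1 := if_pos rfl
  obtain ⟨s, c⟩ := h.m6_split hU v hk (n := h.nD) (fun _ h0 => h.nD_pos h0)
    (e0 ▸ h.Wl_mon p0 (map_one φ) one_ne_zero) (sw2_sq h.lo p0)
    (fun G h1 h2 => genD hm G h1 fun a b hab hb => by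
      rwa [show a = h.ix 1 from Fin.ext (by omega), show b = h.ix 0 from Fin.ext (by omega)])
    fun y hy u hu => by
      obtain ⟨v, hv, t, ht, w, hw, e⟩ := h.titsL hU a2 (by omega) (g y) ((gN y).2 hy) (g u)
        ((gU u).2 hu)
      rw [← h.m2b_one, ← h.nD_pos one_pos] at e
      exact ⟨g v, (gU v).2 hv, g t, (gT t).2 ht, g w, (gU w).2 hw, e.imp
        (fun e => by simpa only [map_mul, gg, g1] using congrArg g e)
        fun e => by simpa only [map_mul, gg, g1] using congrArg g e⟩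
  exact ⟨s, c.trans (cardD hm (by omega)), g, gg, gU, gN, g1, g2⟩

theorem td {p : ℕ} (v : BV p U (NN π)) (hm : m = 2 * k) (hk : 5 ≤ k) :
    ∃ g, TD p k U (NN π) h.nD g := by
  obtain ⟨⟨-, -, a2, -, -, -, a6, a7, a8, a9, a10, a11⟩, c, g, g1, g2, g3, g4, g5⟩ :=
    h.m6_d hU v hm (by omega)
  have gT : ∀ x, g x ∈ Tor U (NN π) ↔ x ∈ Tor U (NN π) := fun x =>
    and_congr (g3 x) (CT.Z.zTh_nrm (D := (U : Subgroup X)) g2 x)
  refine ⟨g, v, ⟨inf_le_left, a2, by omega, g1, gT, g3, g4, g5, fun i hi => (a6 i hi).1,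
    fun i hi => (a6 i hi).2, h.nD_c0, a9, a10, a7, c⟩, hk, g2, a8, fun i hi u hu => ?_,
    fun i _ => (h.ker _ h.nD_cen).1 _⟩
  rcases Nat.eq_zero_or_pos i with rfl | h0
  swap
  · exact a11 i h0 hi u hu
  have e : ∀ x, h.nD 0 * u * (h.nD 0)⁻¹ = g x ↔ h.nD 1 * g u * (h.nD 1)⁻¹ = x := fun x => by
    rw [← g.injective.eq_iff (a := h.nD 1 * g u * (h.nD 1)⁻¹), map_mul, map_mul, map_inv, g4, g1]
  rcases a11 1 one_pos (by omega) (g u) ((g2 u).2 hu) with h1 | ⟨s, hs, v, hv, w, hw, h1⟩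
  · exact Or.inl ((e _).2 rfl ▸ (g2 _).2 h1)
  · refine Or.inr ⟨g s, (gT s).2 hs, g v, (g2 v).2 hv, g w, (g2 w).2 hw, ?_⟩
    rw [(e _).2 h1, map_mul, map_mul, map_mul, map_mul, map_inv, g4]

/-- the length of an orbit of the torus. -/
lemma m6_orb {y : Fˣ} (hy : φ y = y) {q : ℕ} (hq : ∀ s, y ^ (4 * s) = 1 → q ∣ s) {u : X}
    (hu : u ∈ U) (h1 : u ≠ 1) : q ∣ (Subgroup.centralizer {u}).relIndex (Tor U (NN π)) := by
  have hT := fun {t} => h.tor_iff hU (t := t)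
  obtain ⟨u1, l, hl⟩ := (hU u).1 hu
  obtain ⟨i, j, hij, h0⟩ := ex_off u1 fun e =>
    h1 (h.uniq hl (one_pow (r ^ 0)) (e.trans (map_one π).symm))
  have hm : ¬ (Md k i ∧ Md k j) := fun c => h0 (so_off h.hi (h.oq u) u1 c.1 c.2 hij)
  obtain ⟨t, ht1, ht2⟩ : ∃ t, IsMon (π t).1 1 ∧
      ∀ s : ℕ, (π t).1 i i ^ s = (π t).1 j j ^ s → q ∣ s := by
    clear h0
    wlog hi : ¬ Md k i generalizing i j
    · obtain ⟨t, h1, h3⟩ := this j i hij.symm (fun e => hm e.symm) fun e => hm ⟨not_not.mp hi, e⟩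
      exact ⟨t, h1, fun s e => h3 s e.symm⟩
    obtain ⟨t, ht⟩ := h.el_rng hi (md_ne h.lo hi) hy
    refine ⟨t, ht ▸ bv_mon _ _, fun s e => hq s ?_⟩
    rw [ht, bv_dg, bv_dg, if_pos rfl, if_neg hij.symm, ← Units.val_pow_eq_pow_val,
      ← Units.val_pow_eq_pow_val, Units.val_inj] at e
    rw [show 4 * s = 2 * (s + s) by ring, pow_mul, pow_add]
    split_ifs at e
    · nth_rewrite 1 [e]
      rw [inv_pow, inv_mul_cancel]
    · rw [e, one_pow, one_mul]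
  have : ((Subgroup.centralizer {u}).subgroupOf (Tor U (NN π))).Normal :=
    ⟨fun a ha g => by
      have : g * a * g⁻¹ = a := by
        rw [mul_inv_eq_iff_eq_mul]
        exact Subtype.ext (h.ab _ _ (hT.mp g.2) (hT.mp a.2))
      rwa [this]⟩
  have h2 := Subgroup.pow_index_mem ((Subgroup.centralizer {u}).subgroupOf (Tor U (NN π)))
    ⟨t, hT.mpr ht1⟩
  set s := (Subgroup.centralizer {u}).relIndex (Tor U (NN π)) with hs
  have h3 : t ^ s * u = u * t ^ s := Subgroup.mem_centralizer_singleton_iff.mp h2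
  have h4 : (π t ^ s).1 * (π u).1 = (π u).1 * (π t ^ s).1 := by
    have := congrArg π h3
    rw [map_mul, map_mul, map_pow] at this
    exact congrArg Subtype.val this
  have h5 : (π t ^ s).1 i i * (π u).1 i j = (π u).1 i j * (π t ^ s).1 j j :=
    (mon_l (dg_pow ht1 s).1 _ i j).symm.trans
      ((congrFun (congrFun h4 i) j).trans (mon_r (dg_pow ht1 s).1 _ i j))
  rw [(dg_pow ht1 s).2, (dg_pow ht1 s).2, mul_comm] at h5
  exact ht2 s (mul_left_cancel₀ h0 h5)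

end Spn

end Pool.Agent.Lib.MP_1ae3da_al.JP
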