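import Pool.Agent.Lib.MP_1ae3da_al.P.M6
import Pool.Agent.Lib.MP_1ae3da_al.P.C3
import Pool.Agent.Lib.MP_1ae3da_al.P.Wt
import Pool.Agent.Lib.MP_1ae3da_al.L.Hs

/-! The Tits system of a spin group as one statement. -/

namespace Pool.Agent.Lib.MP_1ae3da_al.JP

open SLI Matrix JM

/-- a Tits system of type `B`, of type `D`, or of type `D 4` with long orbits. -/
def Str (p k : ℕ) {r : ℕ} {X : Type} [Group X] (U : Sylow r X) (N : Subgroup X) (n : ℕ → X) :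
    Prop :=
  (U : Subgroup X) ≠ ⊥ ∧ BV p U N ∧ (∀ x ∈ Subgroup.center X, (∃ c, x ^ p ^ c = 1) → x = 1) ∧
    (TB p k U N n ∨ (∃ g, TD p k U N n g) ∨ BW p U N ∧ (Tor U N).relIndex N = 192)

theorem Str.ind {p k r : ℕ} [hp : Fact p.Prime] [hr : Fact r.Prime] {X : Type} [Group X] [Finite X]
    {U : Sylow r X} {N : Subgroup X} {n : ℕ → X} (h : Str p k U N n) (h2 : p ≠ 2) {Y : Type}
    [Group Y] {ρ : X →* Y} (hρ : Function.Surjective ρ) (hk : ρ.ker ≤ Subgroup.center X)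
    (R : Sylow p Y) : ∃ M, NSV.IndN p Y R M := by
  have : Finite Y := Finite.of_surjective ρ hρ
  obtain ⟨u, v, c, t | ⟨g, t⟩ | ⟨w, -⟩⟩ := h
  · obtain ⟨U', N', n', t', hR⟩ := t.qall (t.ind h2).1 hρ hk (fun x hx => c x (hk hx)) R
    exact ⟨N', (t'.ind h2).2 R hR⟩
  · exact t.all2 h2 hρ hk (fun x hx => c x (hk hx)) R
  · obtain ⟨U', ρ', -, -, u0, w', hR⟩ := w.all hρ hk u R
    exact ⟨_, (thm_bw p r hp.out h2 hr.out v.ne Y U' u0 _ _ rfl w'.ab w'.nrm w'.bru w'.val).2 R hR⟩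

theorem Spn.str {F : Type} [Field F] {m k : ℕ} {φ : F →+* F} {X : Type} [Group X]
    {π : X →* SLm m F} {E : (Fin m → F) → (Fin m → F) → X} (h : Spn φ k π E)
    {r : ℕ} [hr : Fact r.Prime] [CharP F r] [Finite F] [Finite X]
    {p : ℕ} (hp : p.Prime) (h2 : p ≠ 2) (hpr : p ≠ r) {z : Fˣ} (hz : φ z = z) (z1 : z ≠ 1)
    (zp : z ^ p = 1) (hm : 7 ≤ m)
    (h8 : m = 8 → k = 4 → p = 3 → ∃ y : Fˣ, φ y = y ∧ ∀ s, y ^ (4 * s) = 1 → 9 ∣ s) :
    ∃ (U : Sylow r X) (n : ℕ → X), Str p k U (NN π) n := by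
  have : Fact p.Prime := ⟨hp⟩
  obtain ⟨U, hU⟩ := h.ex_U (r := r)
  have v := h.bv hU hp h2 hpr hz z1 zp
  have hk' : ∀ x ∈ Subgroup.center X, (∃ c, x ^ p ^ c = 1) → x = 1 := fun x hx ⟨c, hc⟩ => by
    have h4 := h.m6_cen hx ((h.tor_iff hU).1 (v.q_cen hx))
    have : Nat.Coprime (2 ^ 2) (p ^ c) :=
      Nat.Coprime.pow _ _ ((Nat.coprime_primes Nat.prime_two hp).2 h2.symm)
    exact orderOf_eq_one_iff.1 (Nat.eq_one_of_dvd_coprimes this (orderOf_dvd_of_pow_eq_one h4)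
      (orderOf_dvd_of_pow_eq_one hc))
  have lo := h.lo
  have hi := h.hi
  rcases Nat.lt_or_ge (2 * k) m with c | c
  · exact ⟨U, _, h.U_ne hU, v, hk', Or.inl (h.tb hU v c (by omega))⟩
  have e : m = 2 * k := by omega
  rcases Nat.lt_or_ge k 5 with d | d
  swap
  · exact ⟨U, _, h.U_ne hU, v, hk', Or.inr (Or.inl (h.td hU v e d))⟩
  obtain rfl : k = 4 := by omega
  have c1 := (h.m6_d hU v e (by omega)).2.1
  refine ⟨U, h.nD, h.U_ne hU, v, hk', Or.inr (Or.inr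
    ⟨⟨hpr, v.ab, v.nrm, v.bru, fun u hu h1 => ?_⟩, c1⟩)⟩
  rw [c1, show 2 ^ (4 - 1) * Nat.factorial 4 = 2 ^ 6 * 3 by decide]
  have n0 : (Subgroup.centralizer {u}).relIndex (Tor U (NN π)) ≠ 0 :=
    Subgroup.index_ne_zero_of_finite
  have p2 : ¬ p ∣ 2 ^ 6 := fun c =>
    h2 ((Nat.prime_dvd_prime_iff_eq hp Nat.prime_two).mp (hp.dvd_of_dvd_pow c))
  rw [padicValNat.mul (by norm_num) (by norm_num), padicValNat.eq_zero_of_not_dvd p2, zero_add]
  by_cases p3 : p = 3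
  · obtain ⟨y, hy, hq⟩ := h8 e rfl p3
    subst p3
    rw [padicValNat.self (by norm_num)]
    exact (padicValNat_dvd_iff_le n0).1 (h.m6_orb hU hy hq hu h1)
  · rw [padicValNat.eq_zero_of_not_dvd fun c =>
      p3 ((Nat.prime_dvd_prime_iff_eq hp Nat.prime_three).mp c)]
    exact one_le_padicValNat_of_dvd n0 (v.orb u hu h1)

theorem spin_str (p : ℕ) (hp : p.Prime) (h2 : p ≠ 2) (K : Type) [Field K] [Finite K]
    (hq : p ∣ Nat.card K - 1) (m : ℕ) (hm : 7 ≤ m) (Q : QuadraticForm K (Fin m → K))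
    (nd : ∀ v, (∀ w, QuadraticMap.polar Q v w = 0) → v = 0)
    (h8 : m = 8 → p = 3 →
      (∃ W : Submodule K (Fin m → K), Module.finrank K W = 4 ∧ ∀ w ∈ W, Q w = 0) →
      9 ∣ Nat.card K - 1) :
    Finite (spinGroup Q) ∧ ∃ (r k : ℕ) (U : Sylow r (spinGroup Q)) (N : Subgroup (spinGroup Q))
      (n : ℕ → spinGroup Q), r.Prime ∧ Str p k U N n := by
  have : Fact p.Prime := ⟨hp⟩
  obtain ⟨k, F, _, _, _, P, P', φ, s, a1, a2, a3, a4, a5, a6, a7, a8, W, a9⟩ := ex_spl0 nd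
  have := Fintype.ofFinite K
  rw [Nat.card_eq_fintype_card] at hq h8
  obtain ⟨z, z1, zp, -⟩ := ex_z (F := K) h2 dvd_rfl hq
  have h : Spl Q P P' φ k s := ⟨a1, ⟨z, z.ne_zero, fun e => z1 (Units.ext e)⟩, a2, a3, a4,
    by omega, a5, a6, a7, fun c => (a8 c).1⟩
  obtain ⟨π, hπ⟩ := h.ex_pi
  have := h.fin hπ
  obtain ⟨r, hr⟩ := CharP.exists K
  have pr : Fact r.Prime := ⟨CharP.char_is_prime K r⟩
  have : CharP F r := charP_of_injective_algebraMap (algebraMap K F).injective r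
  let ι : Kˣ →* Fˣ := Units.map (algebraMap K F).toMonoidHom
  have hι : Function.Injective ι := Units.map_injective (algebraMap K F).injective
  have fx : ∀ y : Kˣ, φ (ι y) = ι y := fun y => (a8 _).2 ⟨y, rfl⟩
  obtain ⟨U, n, t⟩ := (h.spn hπ).str (r := r) hp h2 (ne_char hp hq) (fx z) (fun e => z1 (hι
    (e.trans (map_one ι).symm))) (by rw [← map_pow, zp, map_one]) hm fun e1 e2 e3 => by
      obtain ⟨y, -, hy⟩ := ex_root (F := K) (p := p) h2 (h8 e1 e3 ⟨W, e2 ▸ a9⟩)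
      refine ⟨ι y, fx y, fun t ht => ?_⟩
      have := hy (2 * t) (hι (by rw [map_pow, map_one, ← mul_assoc]; exact ht))
      rw [e3, show 9 = 3 ^ 2 by norm_num, padicValNat.prime_pow] at this
      exact Nat.Coprime.dvd_of_dvd_mul_left (by norm_num) this
  exact ⟨inferInstance, r, k, U, _, n, pr.out, t⟩

end Pool.Agent.Lib.MP_1ae3da_al.JP
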